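import Pool.Agent.Helper55_PB.Intr

open MeasureTheory Module Set Filter
open scoped RealInnerProductSpace Pointwise Topology

namespace Pool.Agent.Helper55_PB

open Pool.Agent.Helper28_PB (CC)

variable {E : Type} [NormedAddCommGroup E] [InnerProductSpace ℝ E]

theorem mem_of_support_le {F : Type*} [NormedAddCommGroup F] [InnerProductSpace ℝ F]
    [CompleteSpace F] {Z : Set F} (hZ : IsCompact Z) (hc : Convex ℝ Z)
    (hne : Z.Nonempty) {z : F} (h : ∀ u : F, ⟪z, u⟫ ≤ supportFn Z u) : z ∈ Z := by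
  by_contra hcon
  obtain ⟨f, s, hf1, hf2⟩ := geometric_hahn_banach_closed_point hc hZ.isClosed hcon
  set u := (InnerProductSpace.toDual ℝ F).symm f with hu
  have hfu : ∀ x : F, f x = ⟪x, u⟫ := by
    intro x
    rw [real_inner_comm, hu, InnerProductSpace.toDual_symm_apply]
  have h1 : supportFn Z u ≤ s := supportFn_le hne (fun x hx => by
    rw [← hfu]; exact (hf1 x hx).le)
  have h4 := h u
  rw [hfu] at hf2
  linarith

theorem refl_apply {n : E} (v : E) :
    Submodule.reflection (ℝ ∙ n)ᗮ v = v - (2 * (⟪n, v⟫ / ‖n‖ ^ 2)) • n := by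
  rw [Submodule.reflection_orthogonal_apply, Submodule.reflection_singleton_apply]
  simp only [RCLike.ofReal_real_eq_id, id_eq, neg_sub]
  rw [two_smul, ← add_smul, two_mul]

/-- the geometry of the plane rotation -/
theorem rot_geom {w w' e y : E} {c s : ℝ} (hw : ‖w‖ = 1) (hw' : ‖w'‖ = 1) (he : ‖e‖ = 1)
    (hwe : ⟪w, e⟫ = 0) (hne : w ≠ w') (hdec : w' = c • w + s • e) (hyw : ⟪w, y⟫ = 0) :
    ‖(Submodule.reflection (ℝ ∙ (w' - w))ᗮ (Submodule.reflection (ℝ ∙ e)ᗮ y)) - y‖ =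
      |⟪y, e⟫| * ‖w - w'‖ := by
  set t := ⟪y, e⟫ with ht
  have hee : ⟪e, e⟫ = 1 := by rw [real_inner_self_eq_norm_sq, he]; norm_num
  have hww : ⟪w, w⟫ = 1 := by rw [real_inner_self_eq_norm_sq, hw]; norm_num
  have hew : ⟪e, w⟫ = 0 := by rw [real_inner_comm]; exact hwe
  have hey : ⟪e, y⟫ = t := by rw [real_inner_comm]
  have hcs : c ^ 2 + s ^ 2 = 1 := by
    have h1 : ⟪w', w'⟫ = 1 := by rw [real_inner_self_eq_norm_sq, hw']; norm_num
    rw [hdec] at h1
    simp only [inner_add_left, inner_add_right, real_inner_smul_left, real_inner_smul_right,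
      hee, hww, hew, hwe] at h1
    linarith
  set n := w' - w with hn
  have hne' : ⟪n, e⟫ = s := by
    rw [hn, hdec]
    simp only [inner_add_left, inner_sub_left, real_inner_smul_left, hee, hwe]
    ring
  have hny : ⟪n, y⟫ = s * t := by
    rw [hn, hdec]
    simp only [inner_add_left, inner_sub_left, real_inner_smul_left, hyw, hey]
    ring
  have hnn : ‖n‖ ^ 2 = 2 - 2 * c := by
    rw [← real_inner_self_eq_norm_sq, hn, hdec]
    simp only [inner_add_left, inner_add_right, inner_sub_left, inner_sub_right,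
      real_inner_smul_left, real_inner_smul_right, hee, hww, hew, hwe]
    linarith
  have hn0 : 0 < ‖n‖ := by
    rw [norm_pos_iff, hn, sub_ne_zero]
    exact Ne.symm hne
  have hN : 0 < ‖n‖ ^ 2 := by positivity
  have h1 : Submodule.reflection (ℝ ∙ e)ᗮ y = y - (2 * t) • e := by
    rw [refl_apply, hey, he]
    norm_num
  have h2 : Submodule.reflection (ℝ ∙ n)ᗮ (y - (2 * t) • e) - y =
      -((2 * t) • e) + (2 * (s * t / ‖n‖ ^ 2)) • n := by
    rw [refl_apply, inner_sub_right, real_inner_smul_right, hny, hne']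
    have h3 : 2 * ((s * t - 2 * t * s) / ‖n‖ ^ 2) = -(2 * (s * t / ‖n‖ ^ 2)) := by ring
    rw [h3, neg_smul]
    abel
  rw [h1, h2]
  have hen : ⟪e, n⟫ = s := by rw [real_inner_comm]; exact hne'
  have h3 : ‖-((2 * t) • e) + (2 * (s * t / ‖n‖ ^ 2)) • n‖ ^ 2 = (|t| * ‖w - w'‖) ^ 2 := by
    rw [mul_pow, sq_abs, norm_sub_rev w w', ← hn, ← real_inner_self_eq_norm_sq]
    simp only [inner_add_left, inner_add_right, inner_neg_left, inner_neg_right,
      real_inner_smul_left, real_inner_smul_right, hee, hen, hne', real_inner_self_eq_norm_sq n]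
    have hs2 : s ^ 2 = ‖n‖ ^ 2 / 2 * (2 - ‖n‖ ^ 2 / 2) := by
      rw [hnn]; linarith
    set N := ‖n‖ ^ 2 with hNdef
    field_simp
    linear_combination (-(4 * t ^ 2)) * hs2
  have h4 := (sq_eq_sq₀ (norm_nonneg _) (by positivity)).mp h3
  exact h4

theorem rot : RotStmt := by
  intro E _ _ _ K hK L hL w w' hw hw' hne hne'
  set c := ⟪w, w'⟫ with hc
  set p := w' - c • w with hp
  have hww : ⟪w, w⟫ = 1 := by rw [real_inner_self_eq_norm_sq, hw]; norm_num
  have hwp : ⟪w, p⟫ = 0 := by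
    rw [hp, inner_sub_right, real_inner_smul_right, hww, ← hc]
    ring
  have hp0 : p ≠ 0 := by
    intro h0
    rw [hp, sub_eq_zero] at h0
    have h1 : |c| = 1 := by
      have h2 := congrArg norm h0
      rw [norm_smul, hw, hw', mul_one, Real.norm_eq_abs] at h2
      exact h2.symm
    rcases (abs_eq (by norm_num : (0 : ℝ) ≤ 1)).mp h1 with h | h
    · rw [h, one_smul] at h0
      exact hne h0.symm
    · rw [h, neg_smul, one_smul] at h0
      exact hne' (by rw [h0, neg_neg])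
  obtain ⟨e, he, hpe⟩ := exists_unit p hp0
  set s := ‖p‖ with hs
  have hs0 : 0 < s := norm_pos_iff.mpr hp0
  have hwe : ⟪w, e⟫ = 0 := by
    rw [hpe, real_inner_smul_right] at hwp
    exact (mul_eq_zero.mp hwp).resolve_left hs0.ne'
  have hdec : w' = c • w + s • e := by
    rw [← hpe, hp]
    abel
  set τ : E ≃ₗᵢ[ℝ] E := Submodule.reflection (ℝ ∙ (w' - w))ᗮ with hτ
  set σ : E ≃ₗᵢ[ℝ] E := Submodule.reflection (ℝ ∙ e)ᗮ with hσ
  have hτw : τ w' = w := Submodule.reflection_sub (by rw [hw, hw'])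
  have hσw : σ w = w := by
    rw [hσ, refl_apply, real_inner_comm, hwe]
    simp
  refine ⟨τ.trans σ, e, by simp [hτw, hσw], he, hwe, ?_⟩
  set a := L * ‖w - w'‖ with ha
  have hA : CC (K + segment ℝ (-(a • e)) (a • e)) :=
    ⟨hK.cpt.add (isCompact_segment _ _), hK.cvx.add (convex_segment _ _),
      hK.ne.add ⟨_, left_mem_segment _ _ _⟩⟩
  rintro _ ⟨_, ⟨z, hz, rfl⟩, rfl⟩
  refine mem_of_support_le (hA.cpt.image (ContinuousLinearMap.continuous _))
    (hA.cvx.linear_image ((ℝ ∙ w)ᗮ.orthogonalProjectionOnto : E →ₗ[ℝ] ((ℝ ∙ w)ᗮ : Submodule ℝ E)))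
    (hA.ne.image _) ?_
  intro y
  have hyw : ⟪w, (y : E)⟫ = 0 := Submodule.mem_orthogonal_singleton_iff_inner_right.mp y.2
  have h1 : ∀ x : E, ⟪(ℝ ∙ w)ᗮ.orthogonalProjectionOnto x, y⟫ = ⟪x, (y : E)⟫ := by
    intro x
    rw [Submodule.coe_inner]
    exact inner_proj_of_mem _ x y.2
  have h2 : ⟪(τ.trans σ) z, (y : E)⟫ = ⟪z, τ (σ (y : E))⟫ := by
    rw [← (τ.trans σ).symm.inner_map_map, LinearIsometryEquiv.symm_apply_apply]
    rfl
  rw [h1, h2]
  have h3 := inner_le_supportFn hK.cpt hz (τ (σ (y : E)))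
  have h4 := rot_geom hw hw' he hwe hne hdec hyw
  rw [← hτ, ← hσ] at h4
  have h5 : supportFn K (τ (σ (y : E))) ≤ supportFn K (y : E) + a * |⟪(y : E), e⟫| := by
    by_cases hy : (y : E) = 0
    · rw [hy]; simp
    · obtain ⟨u, hu, hyu⟩ := exists_unit (y : E) hy
      have hy0 : 0 ≤ ‖(y : E)‖ := norm_nonneg _
      have h6 : supportFn K (y : E) = ‖(y : E)‖ * supportFn K u := by
        conv_lhs => rw [hyu]
        exact supportFn_smul hK.cpt hK.ne hy0 u
      have h7 : supportFn K (τ (σ (y : E))) = ‖(y : E)‖ * supportFn K (τ (σ u)) := by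
        conv_lhs => rw [hyu, map_smul, map_smul]
        exact supportFn_smul hK.cpt hK.ne hy0 _
      have h8 := hL (τ (σ u)) u (by rw [τ.norm_map, σ.norm_map, hu]) hu
      have h9 : ‖(y : E)‖ * ‖τ (σ u) - u‖ = |⟪(y : E), e⟫| * ‖w - w'‖ := by
        rw [← h4]
        conv_rhs => rw [hyu, map_smul, map_smul, ← smul_sub, norm_smul, norm_norm]
      have h10 : ‖(y : E)‖ * (supportFn K (τ (σ u)) - supportFn K u) ≤
          ‖(y : E)‖ * (L * ‖τ (σ u) - u‖) :=
        mul_le_mul_of_nonneg_left ((le_abs_self _).trans h8) hy0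
      rw [h6, h7, ha]
      have h11 : L * ‖w - w'‖ * |⟪(y : E), e⟫| = ‖(y : E)‖ * (L * ‖τ (σ u) - u‖) := by
        calc L * ‖w - w'‖ * |⟪(y : E), e⟫| = L * (|⟪(y : E), e⟫| * ‖w - w'‖) := by ring
          _ = L * (‖(y : E)‖ * ‖τ (σ u) - u‖) := by rw [h9]
          _ = _ := by ring
      linarith
  obtain ⟨x, hx, hxy⟩ := exists_supportFn hK.cpt hK.ne (y : E)
  have h6 : ∀ b ∈ segment ℝ (-(a • e)) (a • e), ⟪x + b, (y : E)⟫ ≤
      supportFn ((ℝ ∙ w)ᗮ.orthogonalProjectionOnto '' (K + segment ℝ (-(a • e)) (a • e))) y := by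
    intro b hb
    rw [← h1]
    exact inner_le_supportFn (hA.cpt.image (ContinuousLinearMap.continuous _))
      ⟨x + b, ⟨x, hx, b, hb, rfl⟩, rfl⟩ y
  have h7 := h6 _ (left_mem_segment _ _ _)
  have h8 := h6 _ (right_mem_segment _ _ _)
  rw [inner_add_left, hxy, inner_neg_left, real_inner_smul_left, real_inner_comm] at h7
  rw [inner_add_left, hxy, real_inner_smul_left, real_inner_comm] at h8
  rcases abs_cases ⟪(y : E), e⟫ with ⟨h9, _⟩ | ⟨h9, _⟩
  · rw [h9] at h5
    linarith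
  · rw [h9] at h5
    linarith

end Pool.Agent.Helper55_PB
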