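import Pool.Agent.Helper55_PB.Intr

open MeasureTheory Module Set Filter
open scoped RealInnerProductSpace Pointwise Topology

namespace Pool.Agent.Helper55_PB

open Pool.Agent.Helper28_PB (CC)

variable {E : Type} [NormedAddCommGroup E] [InnerProductSpace ℝ E] [FiniteDimensional ℝ E]
  [MeasurableSpace E] [BorelSpace E]

theorem volume_unitBall : (volume (Metric.closedBall (0 : E) 1)).toReal =
    ballVol (finrank ℝ E) := by
  rw [ballVol]
  have φ : EuclideanSpace ℝ (Fin (finrank ℝ E)) ≃ₗᵢ[ℝ] E := (stdOrthonormalBasis ℝ E).repr.symm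
  have h := PB.H15.volume_iso φ (Metric.closedBall (0 : EuclideanSpace ℝ (Fin (finrank ℝ E))) 1)
  rw [LinearIsometryEquiv.image_closedBall, map_zero] at h
  rw [h]

theorem volume_ball_eq (x : E) {r : ℝ} (hr : 0 ≤ r) :
    (volume (Metric.closedBall x r)).toReal = ballVol (finrank ℝ E) * r ^ finrank ℝ E := by
  rw [Measure.addHaar_closedBall' _ _ hr, ENNReal.toReal_mul, ENNReal.toReal_ofReal (by positivity),
    volume_unitBall, mul_comm]

omit [FiniteDimensional ℝ E] [MeasurableSpace E] [BorelSpace E] in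
theorem norm_sq_perp {e : E} (he : ‖e‖ = 1) (y : ((ℝ ∙ e)ᗮ : Submodule ℝ E)) (t : ℝ) :
    ‖(y : E) + t • e‖ ^ 2 = ‖y‖ ^ 2 + t ^ 2 := by
  have h1 : ⟪(y : E), t • e⟫ = 0 := by
    rw [real_inner_smul_right, real_inner_comm,
      Submodule.mem_orthogonal_singleton_iff_inner_right.mp y.2, mul_zero]
  rw [norm_add_sq_real, h1, norm_smul, he, mul_one, Real.norm_eq_abs, sq_abs]
  simp

omit [FiniteDimensional ℝ E] [MeasurableSpace E] [BorelSpace E] in
theorem slice_in {e : E} (he : ‖e‖ = 1) (M' : Set ((ℝ ∙ e)ᗮ : Submodule ℝ E)) {r t : ℝ}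
    (hr : 0 ≤ r) (ht : t ^ 2 ≤ r ^ 2) :
    {y : ((ℝ ∙ e)ᗮ : Submodule ℝ E) | (y : E) + t • e ∈
      (fun y : ((ℝ ∙ e)ᗮ : Submodule ℝ E) => (y : E)) '' M' + Metric.closedBall (0 : E) r} =
    M' + Metric.closedBall (0 : ((ℝ ∙ e)ᗮ : Submodule ℝ E)) (√(r ^ 2 - t ^ 2)) := by
  ext y
  constructor
  · rintro ⟨_, ⟨y', hy', rfl⟩, b, hb, hyb⟩
    refine ⟨y', hy', y - y', ?_, by simp⟩
    rw [Metric.mem_closedBall, dist_zero_right] at hb ⊢
    have h1 : b = ((y - y' : ((ℝ ∙ e)ᗮ : Submodule ℝ E)) : E) + t • e := by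
      have h2 : (y' : E) + b = (y : E) + t • e := hyb
      rw [Submodule.coe_sub]
      rw [← sub_eq_zero] at h2 ⊢
      rw [← h2]
      abel
    have h2 := norm_sq_perp he (y - y') t
    rw [← h1] at h2
    refine Real.le_sqrt_of_sq_le ?_
    have h3 : ‖b‖ ^ 2 ≤ r ^ 2 := pow_le_pow_left₀ (norm_nonneg _) hb 2
    linarith
  · rintro ⟨y', hy', z, hz, rfl⟩
    refine ⟨(y' : E), ⟨y', hy', rfl⟩, (z : E) + t • e, ?_, ?_⟩
    · rw [Metric.mem_closedBall, dist_zero_right] at hz ⊢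
      have h1 := norm_sq_perp he z t
      have h2 : ‖z‖ ^ 2 ≤ r ^ 2 - t ^ 2 := by
        have h3 := pow_le_pow_left₀ (norm_nonneg _) hz 2
        rwa [Real.sq_sqrt (by linarith)] at h3
      refine le_of_sq_le_sq ?_ hr
      linarith
    · simp only [Submodule.coe_add]
      abel

omit [FiniteDimensional ℝ E] [MeasurableSpace E] [BorelSpace E] in
theorem slice_out {e : E} (he : ‖e‖ = 1) (M' : Set ((ℝ ∙ e)ᗮ : Submodule ℝ E)) {r t : ℝ}
    (ht : r ^ 2 < t ^ 2) :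
    {y : ((ℝ ∙ e)ᗮ : Submodule ℝ E) | (y : E) + t • e ∈
      (fun y : ((ℝ ∙ e)ᗮ : Submodule ℝ E) => (y : E)) '' M' + Metric.closedBall (0 : E) r} = ∅ := by
  rw [eq_empty_iff_forall_notMem]
  rintro y ⟨_, ⟨y', hy', rfl⟩, b, hb, hyb⟩
  rw [Metric.mem_closedBall, dist_zero_right] at hb
  have h1 : b = ((y - y' : ((ℝ ∙ e)ᗮ : Submodule ℝ E)) : E) + t • e := by
    have h2 : (y' : E) + b = (y : E) + t • e := hyb
    rw [Submodule.coe_sub]
    rw [← sub_eq_zero] at h2 ⊢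
    rw [← h2]
    abel
  have h2 := norm_sq_perp he (y - y') t
  rw [← h1] at h2
  have h3 : ‖b‖ ^ 2 ≤ r ^ 2 := pow_le_pow_left₀ (norm_nonneg _) hb 2
  have h4 : 0 ≤ ‖y - y'‖ ^ 2 := sq_nonneg _
  linarith

/-- The volume of a set near a hyperplane by slices parallel to the hyperplane. -/
theorem volume_slices {e : E} (he : ‖e‖ = 1) {M' : Set ((ℝ ∙ e)ᗮ : Submodule ℝ E)}
    (hM : CC M') {r : ℝ} (hr : 0 ≤ r) :
    (volume ((fun y : ((ℝ ∙ e)ᗮ : Submodule ℝ E) => (y : E)) '' M' +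
        Metric.closedBall (0 : E) r)).toReal =
      ∫ t in Icc (-r) r,
        (volume (M' + Metric.closedBall (0 : ((ℝ ∙ e)ᗮ : Submodule ℝ E))
          (√(r ^ 2 - t ^ 2)))).toReal := by
  set A := (fun y : ((ℝ ∙ e)ᗮ : Submodule ℝ E) => (y : E)) '' M' + Metric.closedBall (0 : E) r
    with hA
  have hAc : IsCompact A := (hM.cpt.image continuous_subtype_val).add (isCompact_closedBall 0 r)
  have hmp := measurePreserving_lineMap he
  have hS : MeasurableSet (lineMap e ⁻¹' A) := hmp.measurable hAc.measurableSet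
  set f : ℝ → ENNReal := fun t => volume ((fun y : ((ℝ ∙ e)ᗮ : Submodule ℝ E) => (y, t)) ⁻¹'
    (lineMap e ⁻¹' A)) with hf
  have h1 : volume A = ∫⁻ t : ℝ, f t := by
    rw [← hmp.measure_preimage hAc.measurableSet.nullMeasurableSet, Measure.volume_eq_prod,
      Measure.prod_apply_symm hS]
  have hfm : Measurable f := measurable_measure_prodMk_right hS
  have hset : ∀ t, (fun y : ((ℝ ∙ e)ᗮ : Submodule ℝ E) => (y, t)) ⁻¹' (lineMap e ⁻¹' A) =
      {y : ((ℝ ∙ e)ᗮ : Submodule ℝ E) | (y : E) + t • e ∈ A} := fun t => rfl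
  have hin : ∀ t ∈ Icc (-r) r, (f t).toReal =
      (volume (M' + Metric.closedBall (0 : ((ℝ ∙ e)ᗮ : Submodule ℝ E))
          (√(r ^ 2 - t ^ 2)))).toReal := by
    intro t ht
    have ht2 : t ^ 2 ≤ r ^ 2 := sq_le_sq' ht.1 ht.2
    simp only [hf]
    rw [hset, hA, slice_in he M' hr ht2]
  have hout : ∀ t, t ∉ Icc (-r) r → f t = 0 := by
    intro t ht
    have ht2 : r ^ 2 < t ^ 2 := by
      rw [sq_lt_sq, abs_of_nonneg hr, lt_abs]
      by_contra hcon
      push Not at hcon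
      exact ht ⟨by linarith, hcon.1⟩
    simp only [hf]
    rw [hset, hA, slice_out he M' ht2, measure_empty]
  have hfin : ∀ᵐ t : ℝ, f t < ⊤ := by
    refine ae_lt_top hfm ?_
    rw [← h1]
    exact hAc.measure_lt_top.ne
  rw [h1, ← integral_toReal hfm.aemeasurable hfin, ← setIntegral_congr_fun measurableSet_Icc hin]
  exact (setIntegral_eq_integral_of_forall_compl_eq_zero (fun t ht => by
    rw [hout t ht, ENNReal.toReal_zero])).symm

theorem integral_sqrt_pow_aux {j : ℕ} (hfr : finrank ℝ E = j + 1) {e : E} (he : ‖e‖ = 1) {r : ℝ}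
    (hr : 0 ≤ r) :
    ∫ t in Icc (-r) r, (√(r ^ 2 - t ^ 2)) ^ j = ballVol (j + 1) / ballVol j * r ^ (j + 1) := by
  have hrank := Helper28_PB.finrank_perp he
  have hfr' : finrank ℝ ((ℝ ∙ e)ᗮ : Submodule ℝ E) = j := by omega
  have hM : CC ({0} : Set ((ℝ ∙ e)ᗮ : Submodule ℝ E)) :=
    ⟨isCompact_singleton, convex_singleton _, singleton_nonempty _⟩
  have h := volume_slices he hM hr
  have h1 : (fun y : ((ℝ ∙ e)ᗮ : Submodule ℝ E) => (y : E)) '' {0} +
      Metric.closedBall (0 : E) r = Metric.closedBall (0 : E) r := by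
    rw [image_singleton, Submodule.coe_zero, singleton_zero, zero_add]
  have h2 : ∀ t ∈ Icc (-r) r, (volume (({0} : Set ((ℝ ∙ e)ᗮ : Submodule ℝ E)) +
      Metric.closedBall (0 : ((ℝ ∙ e)ᗮ : Submodule ℝ E)) (√(r ^ 2 - t ^ 2)))).toReal =
      ballVol j * (√(r ^ 2 - t ^ 2)) ^ j := by
    intro t _
    rw [singleton_zero, zero_add, volume_ball_eq _ (Real.sqrt_nonneg _), hfr']
  rw [h1, volume_ball_eq _ hr, hfr, setIntegral_congr_fun measurableSet_Icc h2,
    integral_const_mul] at h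
  have h3 := ballVol_pos j
  rw [div_mul_eq_mul_div, eq_div_iff h3.ne', mul_comm]
  exact h.symm

theorem integral_sqrt_pow (j : ℕ) {r : ℝ} (hr : 0 ≤ r) :
    ∫ t in Icc (-r) r, (√(r ^ 2 - t ^ 2)) ^ j = ballVol (j + 1) / ballVol j * r ^ (j + 1) := by
  obtain ⟨e, he⟩ := exists_norm_eq (EuclideanSpace ℝ (Fin (j + 1))) zero_le_one
  exact integral_sqrt_pow_aux finrank_euclideanSpace_fin he hr

theorem di : DIStmt := by
  intro E _ _ _ _ _ e he M' hM c hc r hr
  rw [volume_slices he hM hr]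
  have h1 : ∀ t ∈ Icc (-r) r, (volume (M' + Metric.closedBall (0 : ((ℝ ∙ e)ᗮ : Submodule ℝ E))
      (√(r ^ 2 - t ^ 2)))).toReal =
      ∑ j ∈ Finset.range (finrank ℝ ((ℝ ∙ e)ᗮ : Submodule ℝ E) + 1),
        c j * (√(r ^ 2 - t ^ 2)) ^ j := fun t _ => hc _ (Real.sqrt_nonneg _)
  rw [setIntegral_congr_fun measurableSet_Icc h1, integral_finsetSum]
  · refine Finset.sum_congr rfl ?_
    intro j _
    rw [integral_const_mul, integral_sqrt_pow j hr]
    ring
  · intro j _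
    refine Continuous.integrableOn_Icc ?_
    fun_prop

end Pool.Agent.Helper55_PB
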