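import Pool.Agent.Helper55_PB.Intr

open MeasureTheory Module Set Filter
open scoped RealInnerProductSpace Pointwise Topology

namespace Pool.Agent.Helper55_PB

theorem ballVol_eq {k : ℕ} (hk : 0 < k) :
    ballVol k = √Real.pi ^ k / Real.Gamma (k / 2 + 1) := by
  have : Nonempty (Fin k) := ⟨⟨0, hk⟩⟩
  rw [ballVol, EuclideanSpace.volume_closedBall, Fintype.card_fin, ENNReal.ofReal_one, one_pow,
    one_mul, ENNReal.toReal_ofReal]
  have h1 : 0 < Real.Gamma ((k : ℝ) / 2 + 1) := Real.Gamma_pos_of_pos (by positivity)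
  positivity

theorem gamma_half {x : ℝ} (hx : 0 < x) :
    Real.Gamma (x + 1 / 2) ^ 2 ≤ x * Real.Gamma x ^ 2 := by
  have h := Real.Gamma_mul_add_mul_le_rpow_Gamma_mul_rpow_Gamma (s := x) (t := x + 1)
    (a := 1 / 2) (b := 1 / 2) hx (by linarith) (by norm_num) (by norm_num) (by norm_num)
  have h1 : 1 / 2 * x + 1 / 2 * (x + 1) = x + 1 / 2 := by ring
  rw [h1, Real.Gamma_add_one hx.ne'] at h
  have hG : 0 < Real.Gamma x := Real.Gamma_pos_of_pos hx
  have hG' : 0 < Real.Gamma (x + 1 / 2) := Real.Gamma_pos_of_pos (by linarith)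
  have h2 : Real.Gamma (x + 1 / 2) ^ 2 ≤
      (Real.Gamma x ^ (1 / 2 : ℝ) * (x * Real.Gamma x) ^ (1 / 2 : ℝ)) ^ 2 :=
    pow_le_pow_left₀ hG'.le h 2
  refine h2.trans (le_of_eq ?_)
  rw [mul_pow, ← Real.rpow_natCast, ← Real.rpow_natCast, ← Real.rpow_mul hG.le,
    ← Real.rpow_mul (by positivity)]
  norm_num
  ring

theorem kap : KapStmt := by
  intro m
  rcases Nat.eq_zero_or_pos m with h0 | h0
  · subst h0
    simp only [Nat.cast_zero, mul_zero]
    positivity
  · rw [ballVol_eq h0, ballVol_eq (Nat.succ_pos m)]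
    set x : ℝ := (m : ℝ) / 2 + 1 with hx
    have hx0 : 0 < x := by positivity
    have h1 : (((m + 1 : ℕ) : ℝ) / 2 + 1) = x + 1 / 2 := by
      rw [hx]; push_cast; ring
    rw [h1]
    have hG : 0 < Real.Gamma x := Real.Gamma_pos_of_pos hx0
    have hG' : 0 < Real.Gamma (x + 1 / 2) := Real.Gamma_pos_of_pos (by linarith)
    have hg := gamma_half hx0
    have hpi : 0 < √Real.pi := Real.sqrt_pos.mpr Real.pi_pos
    have h2 : ((m : ℝ) + 1) * (√Real.pi ^ (m + 1) / Real.Gamma (x + 1 / 2) /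
        (√Real.pi ^ m / Real.Gamma x)) =
        (m + 1) * √Real.pi * (Real.Gamma x / Real.Gamma (x + 1 / 2)) := by
      rw [pow_succ]
      field_simp
    rw [h2, mul_pow, mul_pow, Real.sq_sqrt Real.pi_pos.le, div_pow]
    have h3 : 1 / x ≤ Real.Gamma x ^ 2 / Real.Gamma (x + 1 / 2) ^ 2 := by
      rw [div_le_div_iff₀ hx0 (by positivity)]
      linarith
    have h4 : 2 * Real.pi * m ≤ (m + 1) ^ 2 * Real.pi * (1 / x) := by
      rw [mul_one_div, le_div_iff₀ hx0, hx]
      have hm : (0 : ℝ) ≤ m := Nat.cast_nonneg m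
      nlinarith [Real.pi_pos]
    exact h4.trans (mul_le_mul_of_nonneg_left h3 (by positivity))

end Pool.Agent.Helper55_PB
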