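import Pool.Agent.Helper55_PB.VDb
import Pool.Agent.Helper55_PB.Rot

open MeasureTheory Module Set Filter
open scoped RealInnerProductSpace Pointwise Topology

namespace Pool.Agent.Helper55_PB

open Pool.Agent.Helper28_PB (CC)

section

variable {E : Type} [NormedAddCommGroup E] [InnerProductSpace ℝ E] [FiniteDimensional ℝ E]
  [MeasurableSpace E] [BorelSpace E]

theorem volume_hyper {e : E} (he : ‖e‖ = 1) {N : Set E} (hN : ∀ x ∈ N, ⟪e, x⟫ = 0) :
    volume N = 0 := by
  have h1 : N ⊆ ((ℝ ∙ e)ᗮ : Submodule ℝ E) := fun x hx =>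
    Submodule.mem_orthogonal_singleton_iff_inner_right.mpr (hN x hx)
  refine measure_mono_null h1 (Measure.addHaar_submodule _ _ ?_)
  intro h
  have h2 : e ∈ ((ℝ ∙ e)ᗮ : Submodule ℝ E) := by rw [h]; trivial
  have h3 := Submodule.mem_orthogonal_singleton_iff_inner_right.mp h2
  rw [real_inner_self_eq_norm_sq, he] at h3
  norm_num at h3

omit [FiniteDimensional ℝ E] [MeasurableSpace E] [BorelSpace E] in
theorem hyper_add {e a : E} {N : Set E} (hN : ∀ x ∈ N, ⟪e, x⟫ = 0) (ha : ⟪e, a⟫ = 0) :
    ∀ x ∈ N + segment ℝ (0 : E) a, ⟪e, x⟫ = 0 := by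
  rintro _ ⟨x, hx, z, hz, rfl⟩
  rw [segment_eq_image] at hz
  obtain ⟨θ, _, rfl⟩ := hz
  rw [inner_add_right, hN x hx]
  simp [real_inner_smul_right, ha]

theorem vd_hyper {e : E} (he : ‖e‖ = 1) (l : List E) : ∀ (N : Set E),
    (∀ x ∈ N, ⟪e, x⟫ = 0) → (∀ a ∈ l, ⟪e, a⟫ = 0) → VD l N = 0 := by
  induction l with
  | nil =>
    intro N hN _
    simp [VD, volume_hyper he hN]
  | cons a l ih =>
    intro N hN hl
    rw [vd_cons, ih _ hN (fun b hb => hl b (List.mem_cons_of_mem _ hb)),
      ih _ (hyper_add hN (hl a List.mem_cons_self)) (fun b hb => hl b (List.mem_cons_of_mem _ hb)),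
      sub_zero]

omit [FiniteDimensional ℝ E] [MeasurableSpace E] [BorelSpace E] in
theorem flat_hyper {e : E} (he : ‖e‖ = 1) (M : Set E) : ∀ x ∈ flat e M, ⟪e, x⟫ = 0 := by
  rintro _ ⟨x, _, rfl⟩
  simp only
  rw [inner_sub_right, real_inner_smul_right, real_inner_self_eq_norm_sq, he,
    real_inner_comm]
  ring

theorem CC_flat' {M : Set E} (hM : CC M) (e : E) : CC (flat e M) := by
  have h1 : flat e M = (ContinuousLinearMap.id ℝ E - (innerSL ℝ e).smulRight e) '' M := by
    rw [flat]
    refine Set.image_congr fun x _ => ?_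
    simp [real_inner_comm]
  rw [h1]
  exact hM.image _

omit [FiniteDimensional ℝ E] [MeasurableSpace E] [BorelSpace E] in
theorem proj_flat (e : E) (M : Set E) :
    (ℝ ∙ e)ᗮ.orthogonalProjectionOnto '' (flat e M) =
      (ℝ ∙ e)ᗮ.orthogonalProjectionOnto '' M := by
  rw [flat, image_image]
  refine Set.image_congr fun x _ => ?_
  rw [map_sub, map_smul, Submodule.orthogonalProjectionOnto_orthogonal_apply_eq_zero
    (Submodule.mem_span_singleton_self e), smul_zero, sub_zero]

theorem segVol_line {M : Set E} (hM : CC M) {e : E} (he : ‖e‖ = 1) (t : ℝ) :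
    segVol M (t • e) = |t| * (volume ((ℝ ∙ e)ᗮ.orthogonalProjectionOnto '' M)).toReal := by
  rcases le_total 0 t with h | h
  · rw [abs_of_nonneg h]
    exact segVol_eq hM.cpt hM.cvx he h
  · rw [abs_of_nonpos h, ← segVol_neg, ← neg_smul]
    exact segVol_eq hM.cpt hM.cvx he (by linarith)

theorem flat_one {M : Set E} (hM : CC M) {e : E} (he : ‖e‖ = 1) (c : E) :
    2 * segVol (flat e M) c ≤ segVol M c + segVol (Submodule.reflection (ℝ ∙ e)ᗮ '' M) c := by
  set t := ⟪e, c⟫ with ht
  set σ : E ≃ₗᵢ[ℝ] E := Submodule.reflection (ℝ ∙ e)ᗮ with hσ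
  have hF : CC (flat e M) := CC_flat' hM e
  have hFh := flat_hyper he M
  have hc' : ⟪e, c - t • e⟫ = 0 := by
    rw [inner_sub_right, real_inner_smul_right, real_inner_self_eq_norm_sq, he, ← ht]
    ring
  have h1 : segVol (flat e M) (c - t • e) = 0 := by
    rw [segVol, volume_hyper he hFh, volume_hyper he (hyper_add hFh hc')]
    simp
  have h2 := Helper28_PB.defect_nonneg hF (t • e) (c - t • e)
  rw [defect, h1, add_sub_cancel] at h2
  have h3 : segVol (flat e M) (t • e) = segVol M (t • e) := by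
    rw [segVol_line hF he, segVol_line hM he, proj_flat]
  have h4 : σ c = c - (2 * t) • e := by
    rw [hσ, refl_apply, he, ← ht]
    norm_num
  have h5 : c + -(σ c) = (2 : ℝ) • (t • e) := by
    rw [h4, smul_smul]
    abel
  have h6 := Helper28_PB.defect_nonneg hM c (-(σ c))
  rw [defect, h5, segVol_neg, segVol_smul hM.cpt hM.cvx (by norm_num : (0 : ℝ) ≤ 2)] at h6
  have h7 : segVol (σ '' M) c = segVol M (σ c) := by
    have h8 : σ (σ c) = c := Submodule.reflection_reflection _ c
    conv_lhs => rw [← h8]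
    exact PB.H15.segVol_iso σ M (σ c)
  rw [h7]
  linarith

end

theorem flat_list (n : ℕ) : ∀ (E : Type) [NormedAddCommGroup E] [InnerProductSpace ℝ E]
    [FiniteDimensional ℝ E] [MeasurableSpace E] [BorelSpace E] (l : List E), l.length = n →
    ∀ M : Set E, CC M → ∀ (e c : E), ‖e‖ = 1 → (∀ a ∈ l, ⟪e, a⟫ = 0) →
    2 * VD (c :: l) (flat e M) ≤ VD (c :: l) M +
      VD (c :: l) (Submodule.reflection (ℝ ∙ e)ᗮ '' M) := by
  induction n with
  | zero =>
    intro E _ _ _ _ _ l hl M hM e c he _
    rw [List.length_eq_zero_iff] at hl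
    subst hl
    exact flat_one hM he c
  | succ n ih =>
    intro E _ _ _ _ _ l hl M hM e c he hle
    cases l with
    | nil => simp at hl
    | cons b l =>
      have hperm : ∀ N : Set E, VD (c :: b :: l) N = VD (b :: c :: l) N := fun N =>
        vd_perm _ _ (List.Perm.swap b c l) N
      rw [hperm, hperm, hperm]
      by_cases hb : b = 0
      · subst hb
        rw [vd_zero_cons, vd_zero_cons, vd_zero_cons]
        norm_num
      · obtain ⟨f, hf, hbf⟩ := exists_unit b hb
        have hb0 : 0 < ‖b‖ := norm_pos_iff.mpr hb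
        have key : ∀ N : Set E, CC N → VD (b :: c :: l) N = ‖b‖ *
            VD ((c :: l).map ((ℝ ∙ f)ᗮ.orthogonalProjectionOnto))
              ((ℝ ∙ f)ᗮ.orthogonalProjectionOnto '' N) := by
          intro N hN
          rw [← vd_proj (c :: l) N hN f hf, ← vd_hom (c :: l) N hN ‖b‖ f (norm_nonneg _), ← hbf]
        set σ : E ≃ₗᵢ[ℝ] E := Submodule.reflection (ℝ ∙ e)ᗮ with hσ
        have hσM : CC (σ '' M) := hM.image σ.toContinuousLinearEquiv.toContinuousLinearMap
        rw [key _ (CC_flat' hM e), key M hM, key _ hσM, ← mul_add, ← mul_assoc, mul_comm 2 ‖b‖,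
          mul_assoc]
        refine mul_le_mul_of_nonneg_left ?_ hb0.le
        set P := (ℝ ∙ f)ᗮ.orthogonalProjectionOnto with hP
        have hef : ⟪f, e⟫ = 0 := by
          have h1 := hle b List.mem_cons_self
          rw [hbf, real_inner_smul_right] at h1
          rw [real_inner_comm]
          exact (mul_eq_zero.mp h1).resolve_left hb0.ne'
        have hemem : e ∈ ((ℝ ∙ f)ᗮ : Submodule ℝ E) :=
          Submodule.mem_orthogonal_singleton_iff_inner_right.mpr hef
        have hPe : ((P e : ((ℝ ∙ f)ᗮ : Submodule ℝ E)) : E) = e := by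
          have := Submodule.orthogonalProjectionOnto_mem_subspace_eq_self
            (⟨e, hemem⟩ : ((ℝ ∙ f)ᗮ : Submodule ℝ E))
          exact congrArg Subtype.val this
        have hPen : ‖P e‖ = 1 := by
          have h0 : ‖P e‖ = ‖((P e : ((ℝ ∙ f)ᗮ : Submodule ℝ E)) : E)‖ := rfl
          rw [h0, hPe, he]
        have hin : ∀ x : E, ⟪P e, P x⟫ = ⟪e, x⟫ := by
          intro x
          rw [real_inner_comm, Submodule.coe_inner, hPe, real_inner_comm x e]
          exact inner_proj_of_mem _ x hemem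
        have hPflat : P '' (flat e M) = flat (P e) (P '' M) := by
          rw [flat, flat, image_image, image_image]
          refine Set.image_congr fun x _ => ?_
          rw [map_sub, map_smul, real_inner_comm, ← hin, real_inner_comm]
        have hPσ : P '' (σ '' M) = Submodule.reflection (ℝ ∙ (P e))ᗮ '' (P '' M) := by
          rw [image_image, image_image]
          refine Set.image_congr fun x _ => ?_
          rw [hσ, refl_apply, refl_apply, map_sub, map_smul, hin, he, hPen]
        rw [hPflat, hPσ, List.map_cons]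
        refine ih _ _ ?_ _ (hM.image _) _ _ hPen ?_
        · simpa using hl
        · intro a ha
          obtain ⟨a', ha', rfl⟩ := List.mem_map.mp ha
          rw [hin]
          exact hle a' (List.mem_cons_of_mem _ ha')

theorem vd_shear {E : Type} [NormedAddCommGroup E] [InnerProductSpace ℝ E]
    [FiniteDimensional ℝ E] [MeasurableSpace E] [BorelSpace E] {M : Set E} (hM : CC M) {c : E}
    (hc : c ≠ 0) (l : List E) (g : E → ℝ) :
    VD (c :: l.map (fun b => b - g b • c)) M = VD (c :: l) M := by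
  obtain ⟨e, he, hce⟩ := exists_unit c hc
  have key : ∀ l : List E, VD (c :: l) M = ‖c‖ *
      VD (l.map ((ℝ ∙ e)ᗮ.orthogonalProjectionOnto))
        ((ℝ ∙ e)ᗮ.orthogonalProjectionOnto '' M) := by
    intro l
    rw [← vd_proj l M hM e he, ← vd_hom l M hM ‖c‖ e (norm_nonneg _), ← hce]
  rw [key, key, List.map_map]
  congr 2
  refine List.map_congr_left ?_
  intro b _
  have h1 : (ℝ ∙ e)ᗮ.orthogonalProjectionOnto c = 0 := by
    rw [hce, map_smul, Submodule.orthogonalProjectionOnto_orthogonal_apply_eq_zero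
      (Submodule.mem_span_singleton_self e), smul_zero]
  simp only [Function.comp_apply]
  rw [map_sub, map_smul, h1, smul_zero, sub_zero]

theorem vd_flat : VDFlatStmt := by
  intro E _ _ _ _ _ l M hM e he
  set σ : E ≃ₗᵢ[ℝ] E := Submodule.reflection (ℝ ∙ e)ᗮ with hσ
  have hσM : CC (σ '' M) := hM.image σ.toContinuousLinearEquiv.toContinuousLinearMap
  by_cases h : ∀ a ∈ l, ⟪e, a⟫ = 0
  · rw [vd_hyper he l _ (flat_hyper he M) h, mul_zero]
    exact add_nonneg (vd_nonneg l M hM) (vd_nonneg l _ hσM)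
  · push Not at h
    obtain ⟨c, hcl, hc⟩ := h
    obtain ⟨l₀, hl₀⟩ : ∃ l₀ : List E, l.Perm (c :: l₀) := by
      obtain ⟨s, t, rfl⟩ := List.append_of_mem hcl
      exact ⟨s ++ t, List.perm_middle⟩
    have hc0 : c ≠ 0 := by
      rintro rfl
      exact hc (inner_zero_right _)
    set g : E → ℝ := fun b => ⟪e, b⟫ / ⟪e, c⟫ with hg
    have key : ∀ N : Set E, CC N → VD l N = VD (c :: l₀.map (fun b => b - g b • c)) N := by
      intro N hN
      rw [vd_shear hN hc0, vd_perm _ _ hl₀ N]
    rw [key _ (CC_flat' hM e), key M hM, key _ hσM]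
    refine flat_list _ E _ rfl M hM e c he ?_
    intro a ha
    obtain ⟨b, _, rfl⟩ := List.mem_map.mp ha
    rw [inner_sub_right, real_inner_smul_right, hg]
    simp only
    field_simp
    ring

end Pool.Agent.Helper55_PB
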