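import Pool.Agent.Helper55_PB.Balls
import Pool.Agent.Helper55_PB.DI
import Pool.Agent.Helper55_PB.Kap
import Pool.Agent.Helper55_PB.VFlat

open MeasureTheory Module Set Filter
open scoped RealInnerProductSpace Pointwise Topology

namespace Pool.Agent.Helper55_PB

open Pool.Agent.Helper28_PB (CC)

section

variable {E : Type} [NormedAddCommGroup E] [InnerProductSpace ℝ E]

theorem exists_lip {K : Set E} (hK : IsCompact K) (hne : K.Nonempty) :
    ∃ L : ℝ, 0 ≤ L ∧ ∀ u v : E, |supportFn K u - supportFn K v| ≤ L * ‖u - v‖ := by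
  obtain ⟨R, hR⟩ := hK.isBounded.exists_norm_le
  have hR0 : 0 ≤ R := by
    obtain ⟨x, hx⟩ := hne
    exact (norm_nonneg x).trans (hR x hx)
  have key : ∀ u v : E, supportFn K u ≤ supportFn K v + R * ‖u - v‖ := by
    intro u v
    refine supportFn_le hne ?_
    intro x hx
    have h1 : ⟪x, u⟫ = ⟪x, v⟫ + ⟪x, u - v⟫ := by rw [inner_sub_right]; ring
    have h2 : ⟪x, u - v⟫ ≤ ‖x‖ * ‖u - v‖ := real_inner_le_norm _ _
    have h3 : ‖x‖ * ‖u - v‖ ≤ R * ‖u - v‖ := mul_le_mul_of_nonneg_right (hR x hx) (norm_nonneg _)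
    have h4 := inner_le_supportFn hK hx v
    linarith
  refine ⟨R, hR0, ?_⟩
  intro u v
  rw [abs_le]
  constructor
  · have := key v u
    rw [norm_sub_rev] at this
    linarith
  · have := key u v
    linarith

omit [InnerProductSpace ℝ E] in
theorem const_of_contraction {f : E → ℝ} {q L₀ : ℝ} (hq0 : 0 ≤ q) (hq1 : q < 1) (hL₀ : 0 ≤ L₀)
    (h0 : ∀ u v : E, ‖u‖ = 1 → ‖v‖ = 1 → |f u - f v| ≤ L₀ * ‖u - v‖)
    (h : ∀ L : ℝ, 0 ≤ L → (∀ u v : E, ‖u‖ = 1 → ‖v‖ = 1 → |f u - f v| ≤ L * ‖u - v‖) →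
      ∀ u v : E, ‖u‖ = 1 → ‖v‖ = 1 → |f u - f v| ≤ (q * L) * ‖u - v‖) :
    ∀ u v : E, ‖u‖ = 1 → ‖v‖ = 1 → f u = f v := by
  have hk : ∀ k : ℕ, ∀ u v : E, ‖u‖ = 1 → ‖v‖ = 1 → |f u - f v| ≤ (q ^ k * L₀) * ‖u - v‖ := by
    intro k
    induction k with
    | zero => simpa using h0
    | succ k ih =>
      have := h (q ^ k * L₀) (by positivity) ih
      intro u v hu hv
      refine (this u v hu hv).trans (le_of_eq ?_)
      ring
  intro u v hu hv
  have h1 : Tendsto (fun k : ℕ => (q ^ k * L₀) * ‖u - v‖) atTop (𝓝 ((0 * L₀) * ‖u - v‖)) :=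
    ((tendsto_pow_atTop_nhds_zero_of_lt_one hq0 hq1).mul_const _).mul_const _
  have h2 : |f u - f v| ≤ (0 * L₀) * ‖u - v‖ := ge_of_tendsto' h1 (fun k => hk k u v hu hv)
  rw [zero_mul, zero_mul] at h2
  have h3 := abs_nonpos_iff.mp h2
  linarith

end

theorem chi_bound (kap : KapStmt) {n i m : ℕ} (hi : 1 ≤ i) (hn : 2 * i ^ 2 + 2 ≤ n)
    (him : m + i + 1 = n) {χ : ℝ} (hχ : χ = (m + 1) * (ballVol (m + 1) / ballVol m)) :
    2 * (i / χ) * (1 + 2 * (i / χ)) < 1 := by
  have hχpos : 0 < χ := by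
    rw [hχ]
    have h1 := ballVol_pos m
    have h2 := ballVol_pos (m + 1)
    positivity
  have h1 := kap m
  rw [← hχ] at h1
  have hm : (2 * i ^ 2 + 1 - i : ℝ) ≤ m := by
    have h2 : 2 * i ^ 2 + 2 ≤ m + i + 1 := by rw [him]; exact hn
    have h3 : (2 * (i : ℝ) ^ 2 + 2) ≤ m + i + 1 := by exact_mod_cast h2
    linarith
  have hi1 : (1 : ℝ) ≤ i := by exact_mod_cast hi
  have hpi : 3.14 < Real.pi := Real.pi_gt_d2
  have hm0 : (0 : ℝ) ≤ 2 * i ^ 2 + 1 - i := by nlinarith
  have h2 : 6.28 * (2 * (i : ℝ) ^ 2 + 1 - i) ≤ χ ^ 2 := by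
    refine le_trans ?_ h1
    have h3 : 6.28 * (2 * (i : ℝ) ^ 2 + 1 - i) ≤ 6.28 * m := mul_le_mul_of_nonneg_left hm (by norm_num)
    have h4 : (0 : ℝ) ≤ m := Nat.cast_nonneg m
    have h5 : 6.28 * (m : ℝ) ≤ 2 * Real.pi * m := by
      refine mul_le_mul_of_nonneg_right ?_ h4
      linarith
    exact h3.trans h5
  have h3 : (3.2361 * (i : ℝ)) ^ 2 < χ ^ 2 := by
    refine lt_of_lt_of_le ?_ h2
    nlinarith [sq_nonneg ((i : ℝ) - 1.504)]
  have h4 : 3.2361 * (i : ℝ) < χ := lt_of_pow_lt_pow_left₀ 2 hχpos.le h3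
  have h5 : 2 * (i / χ) * (1 + 2 * (i / χ)) = (2 * i * χ + 4 * i ^ 2) / χ ^ 2 := by
    field_simp
    ring
  rw [h5, div_lt_one (by positivity)]
  have hi0 : (0 : ℝ) < i := by linarith
  nlinarith [mul_pos hi0 hi0, mul_pos (sub_pos.mpr h4) (sub_pos.mpr h4)]

section

variable {E : Type} [NormedAddCommGroup E] [InnerProductSpace ℝ E] [FiniteDimensional ℝ E]
  [MeasurableSpace E] [BorelSpace E]

/-- The facts used, all proved elsewhere. -/
structure Facts : Prop where
  sum : VDSumStmt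
  nonneg : VDNonnegStmt
  mono : VDMonoStmt
  flat : VDFlatStmt
  di : DIStmt
  kap : KapStmt
  rot : RotStmt

theorem ball_of_centred (F : Facts) {i m : ℕ} (hi : 1 ≤ i)
    (hn : 2 * i ^ 2 + 2 ≤ finrank ℝ E) (him : m + i + 1 = finrank ℝ E) {K : Set E} {c : ℝ}
    (hG : Centred m K c) : ∃ r : ℝ, 0 < r ∧ K = Metric.closedBall (0 : E) r := by
  have hlim : LimStmt := lim_of F.sum
  have hK := hG.cc
  have hi2 : i ≤ i ^ 2 := Nat.le_self_pow (by norm_num) i
  have hn4 : 4 ≤ finrank ℝ E := by nlinarith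
  have hnt : Nontrivial E := Module.nontrivial_of_finrank_pos (R := ℝ) (by omega)
  obtain ⟨e₀, he₀⟩ := exists_norm_eq E zero_le_one
  have hsph : IsCompact (Metric.sphere (0 : E) 1) := isCompact_sphere 0 1
  have hne : (Metric.sphere (0 : E) 1).Nonempty := ⟨e₀, by simpa using he₀⟩
  have hcont := continuous_supportFn hK.cpt hK.ne
  obtain ⟨w₀, hw₀, hmin⟩ := hsph.exists_isMinOn hne hcont.continuousOn
  obtain ⟨u, hu, hmax⟩ := hsph.exists_isMaxOn hne hcont.continuousOn
  have hw₀' : ‖w₀‖ = 1 := by simpa using hw₀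
  have hu' : ‖u‖ = 1 := by simpa using hu
  have hmin' : ∀ w : E, ‖w‖ = 1 → supportFn K w₀ ≤ supportFn K w := fun w hw =>
    hmin (by simpa using hw)
  have hmax' : ∀ w : E, ‖w‖ = 1 → supportFn K w ≤ supportFn K u := fun w hw =>
    hmax (by simpa using hw)
  set r := supportFn K w₀ with hrdef
  set R := supportFn K u with hRdef
  obtain ⟨ρ, hρ, hρb⟩ := exists_ball_zero hG.zero_mem
  have hr : 0 < r := by
    have := le_supportFn_of_ball hK.cpt hρ.le hρb w₀
    rw [hw₀', mul_one] at this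
    linarith
  have hrR : r ≤ R := hmax' w₀ hw₀'
  set χ : ℝ := (m + 1) * (ballVol (m + 1) / ballVol m) with hχ
  have hχpos : 0 < χ := by
    have h1 := ballVol_pos m
    have h2 := ballVol_pos (m + 1)
    positivity
  have hB := Centred.stepB hlim F.nonneg F.mono F.flat F.di hG (by omega) hi him hu' hw₀' hmin' hχ
  have hchi := chi_bound F.kap hi hn him hχ
  set q := 2 * ((i : ℝ) / χ) * (R / r) with hq
  have hτ : 0 ≤ (i : ℝ) / χ := by positivity
  have hR : 0 < R := lt_of_lt_of_le hr hrR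
  have hq0 : 0 ≤ q := by positivity
  have hq1 : q < 1 := by
    have h1 : R / r ≤ 1 + 2 * (i / χ) := by
      rw [div_le_iff₀ hr]
      exact hB
    have h2 : q ≤ 2 * (i / χ) * (1 + 2 * (i / χ)) := mul_le_mul_of_nonneg_left h1 (by positivity)
    linarith
  obtain ⟨L₀, hL₀, hlip⟩ := exists_lip hK.cpt hK.ne
  have hconst := const_of_contraction (f := supportFn K) hq0 hq1 hL₀
    (fun u v _ _ => hlip u v) (fun L hL hLip =>
      Centred.stepCD hlim F.nonneg F.mono F.flat F.di F.rot hG (by omega) hi him hr hmin' hmax'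
        hχ hL hLip)
  refine ⟨r, hr, Subset.antisymm ?_ (closedBall_subset_of_min hK hmin')⟩
  exact subset_closedBall_of_max hK hr.le (fun w hw => (hconst w w₀ hw hw₀').le)

theorem ball_of_sol (F : Facts) {i : ℕ} (hi : 1 ≤ i)
    (hn : 2 * i ^ 2 + 2 ≤ finrank ℝ E) {K L : Set E} (hK : IsConvexBody K)
    (hL : IsProjectionBodyOfOrder i K L) (hKL : Homothetic K L) :
    ∃ (x : E) (r : ℝ), 0 < r ∧ K = Metric.closedBall x r := by
  have hi2 : i ≤ i ^ 2 := Nat.le_self_pow (by norm_num) i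
  have hlim : LimStmt := lim_of F.sum
  obtain ⟨a, K', c, hK', hG⟩ := exists_midGood (by omega) hK hL hKL
  have hC := MidGood.centred hlim F.mono hi (by omega) hG
  obtain ⟨r, hr, hr'⟩ := ball_of_centred F hi hn (by omega) hC
  refine ⟨-a, r, hr, ?_⟩
  have h1 : K = (fun y => -a + y) '' K' := by
    rw [hK', image_image]
    simp
  rw [h1, hr']
  ext z
  constructor
  · rintro ⟨y, hy, rfl⟩
    rw [Metric.mem_closedBall, dist_zero_right] at hy
    rw [Metric.mem_closedBall, dist_eq_norm]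
    simpa using hy
  · intro hz
    rw [Metric.mem_closedBall, dist_eq_norm] at hz
    refine ⟨a + z, ?_, by simp⟩
    rw [Metric.mem_closedBall, dist_zero_right]
    rwa [sub_neg_eq_add, add_comm] at hz

/-! ### Balls are solutions -/

theorem intrinsic_ball (x : E) {ρ : ℝ} (hρ : 0 ≤ ρ) (i : ℕ) :
    IsIntrinsicVolume (Metric.closedBall x ρ) i
      (ballVol (finrank ℝ E) * ((finrank ℝ E).choose i : ℝ) * ρ ^ i /
        ballVol (finrank ℝ E - i)) := by
  set d := finrank ℝ E with hd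
  refine ⟨fun j => ballVol d * (d.choose j : ℝ) * ρ ^ j / ballVol (d - j), rfl, ?_⟩
  intro r hr
  rw [closedBall_add_closedBall hρ hr, add_zero, Measure.addHaar_closedBall' _ _ (by positivity),
    ENNReal.toReal_mul, ENNReal.toReal_ofReal (by positivity), volume_unitBall, ← hd, add_pow,
    Finset.sum_mul]
  refine Finset.sum_congr rfl ?_
  intro j _
  have h1 := ballVol_pos (d - j)
  field_simp

omit [MeasurableSpace E] [BorelSpace E] in
theorem supportFn_ball {ρ : ℝ} (hρ : 0 ≤ ρ) {u : E} (hu : ‖u‖ = 1) :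
    supportFn (Metric.closedBall (0 : E) ρ) u = ρ := by
  have h1 : ρ • u ∈ Metric.closedBall (0 : E) ρ := by
    rw [Metric.mem_closedBall, dist_zero_right, norm_smul, hu, Real.norm_of_nonneg hρ, mul_one]
  rw [supportFn_eq (isCompact_closedBall _ _) h1, real_inner_smul_left, real_inner_self_eq_norm_sq,
    hu]
  · ring
  · intro z hz
    rw [Metric.mem_closedBall, dist_zero_right] at hz
    rw [real_inner_smul_left, real_inner_self_eq_norm_sq, hu]
    have h2 := real_inner_le_norm z u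
    rw [hu] at h2
    linarith

theorem sol_of_ball {i : ℕ} (hin : i + 1 ≤ finrank ℝ E) (x : E) {r : ℝ} (hr : 0 < r) :
    IsConvexBody (Metric.closedBall x r) ∧
      ∃ L : Set E, IsProjectionBodyOfOrder i (Metric.closedBall x r) L ∧
        Homothetic (Metric.closedBall x r) L := by
  set d := finrank ℝ E - 1 with hd
  set v : ℝ := ballVol d * (d.choose i : ℝ) * r ^ i / ballVol (d - i) with hv
  have hvpos : 0 < v := by
    have h1 := ballVol_pos d
    have h2 := ballVol_pos (d - i)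
    have h3 : 0 < d.choose i := Nat.choose_pos (by omega)
    have h4 : (0 : ℝ) < (d.choose i : ℝ) := by exact_mod_cast h3
    positivity
  refine ⟨⟨isCompact_closedBall _ _, convex_closedBall _ _, ?_⟩, Metric.closedBall 0 v, ?_, ?_⟩
  · exact ⟨x, Metric.ball_subset_interior_closedBall (Metric.mem_ball_self hr)⟩
  · refine ⟨isCompact_closedBall _ _, convex_closedBall _ _,
      ⟨0, Metric.mem_closedBall_self hvpos.le⟩, ?_⟩
    intro u hu
    have hrank := Helper28_PB.finrank_perp hu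
    have hrank' : finrank ℝ ((ℝ ∙ u)ᗮ : Submodule ℝ E) = d := by omega
    have h1 : (ℝ ∙ u)ᗮ.orthogonalProjectionOnto '' Metric.closedBall x r =
        Metric.closedBall ((ℝ ∙ u)ᗮ.orthogonalProjectionOnto x) r := by
      have h2 : Metric.closedBall x r = {x} + Metric.closedBall (0 : E) r := by simp
      rw [h2, proj_add_ball, image_singleton]
      simp
    rw [supportFn_ball hvpos.le hu, h1]
    have h2 := intrinsic_ball ((ℝ ∙ u)ᗮ.orthogonalProjectionOnto x) hr.le i
    rw [hrank'] at h2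
    exact h2
  · refine ⟨-((v / r) • x), v / r, by positivity, ?_⟩
    ext z
    constructor
    · intro hz
      rw [Metric.mem_closedBall, dist_zero_right] at hz
      refine ⟨x + (r / v) • z, ?_, ?_⟩
      · rw [Metric.mem_closedBall, dist_eq_norm, add_sub_cancel_left, norm_smul,
          Real.norm_of_nonneg (by positivity), div_mul_eq_mul_div, div_le_iff₀ hvpos]
        exact mul_le_mul_of_nonneg_left hz hr.le
      · simp only [smul_add, smul_smul]
        have h3 : v / r * (r / v) = 1 := by field_simp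
        rw [h3, one_smul]
        abel
    · rintro ⟨y, hy, rfl⟩
      rw [Metric.mem_closedBall, dist_eq_norm] at hy
      rw [Metric.mem_closedBall, dist_zero_right]
      have h3 : -((v / r) • x) + (v / r) • y = (v / r) • (y - x) := by
        rw [smul_sub]; abel
      simp only [h3]
      rw [norm_smul, Real.norm_of_nonneg (by positivity), div_mul_eq_mul_div, div_le_iff₀ hr]
      exact mul_le_mul_of_nonneg_left hy hvpos.le

end

theorem facts : Facts := ⟨vd_sum, vd_nonneg, vd_mono, vd_flat, di, kap, rot⟩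

end Pool.Agent.Helper55_PB
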