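import Pool.Agent.Helper55_PB.Intr

open MeasureTheory Module Set Filter
open scoped RealInnerProductSpace Pointwise Topology

namespace Pool.Agent.Helper55_PB

open Pool.Agent.Helper28_PB (CC)

section

variable {E : Type} [NormedAddCommGroup E] [InnerProductSpace ℝ E] [FiniteDimensional ℝ E]
  [MeasurableSpace E] [BorelSpace E]

theorem vd_cons (a : E) (l : List E) (M : Set E) :
    VD (a :: l) M = VD l (M + segment ℝ (0 : E) a) - VD l M := rfl

theorem vd_diff_hom (l : List E) : ∀ (M : Set E), CC M → ∀ (t : ℝ) (a : E), 0 ≤ t →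
    VD l (M + segment ℝ (0 : E) (t • a)) - VD l M =
      t * (VD l (M + segment ℝ (0 : E) a) - VD l M) := by
  induction l with
  | nil =>
    intro M hM t a ht
    exact segVol_smul hM.cpt hM.cvx ht a
  | cons b l ih =>
    intro M hM t a ht
    simp only [VD]
    have h1 := ih (M + segment ℝ (0 : E) b) (hM.add b) t a ht
    have h2 := ih M hM t a ht
    rw [add_right_comm M (segment ℝ 0 (t • a)) (segment ℝ 0 b),
      add_right_comm M (segment ℝ 0 a) (segment ℝ 0 b)]
    linarith

theorem vd_hom : VDHomStmt := fun l M hM t a ht => vd_diff_hom l M hM t a ht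

theorem vd_perm_aux {l l' : List E} (h : l.Perm l') : ∀ (M : Set E), VD l M = VD l' M := by
  induction h with
  | nil => intro M; rfl
  | cons a _ ih =>
    intro M
    simp only [VD]
    rw [ih, ih]
  | swap a b l =>
    intro M
    simp only [VD]
    rw [add_right_comm M (segment ℝ 0 a) (segment ℝ 0 b)]
    ring
  | trans _ _ ih1 ih2 =>
    intro M
    rw [ih1, ih2]

theorem vd_perm : VDPermStmt := fun _ _ h => vd_perm_aux h

theorem vd_proj_aux (l : List E) : ∀ (M : Set E), CC M → ∀ a : E, ‖a‖ = 1 →
    VD l (M + segment ℝ (0 : E) a) - VD l M =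
      VD (l.map ((ℝ ∙ a)ᗮ.orthogonalProjectionOnto)) ((ℝ ∙ a)ᗮ.orthogonalProjectionOnto '' M) := by
  induction l with
  | nil =>
    intro M hM a ha
    have h := segVol_eq hM.cpt hM.cvx ha (zero_le_one)
    rw [one_smul, one_mul] at h
    exact h
  | cons b l ih =>
    intro M hM a ha
    simp only [VD, List.map_cons]
    have h1 := ih (M + segment ℝ (0 : E) b) (hM.add b) a ha
    have h2 := ih M hM a ha
    rw [Helper28_PB.image_add_segment] at h1
    rw [add_right_comm M (segment ℝ 0 a) (segment ℝ 0 b)]
    linarith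

theorem vd_proj : VDProjStmt := fun l M hM a ha => vd_proj_aux l M hM a ha

theorem vd_zero_cons (l : List E) (M : Set E) : VD (0 :: l) M = 0 := by
  simp only [VD]
  rw [Helper28_PB.add_segment_zero, sub_self]

/-- reduction of a nonempty list -/
theorem vd_cons_unit {l : List E} {M : Set E} (hM : CC M) {a : E} (ha : a ≠ 0) :
    ∃ e : E, ‖e‖ = 1 ∧ a = ‖a‖ • e ∧ VD (a :: l) M =
      ‖a‖ * VD (l.map ((ℝ ∙ e)ᗮ.orthogonalProjectionOnto))
        ((ℝ ∙ e)ᗮ.orthogonalProjectionOnto '' M) := by
  obtain ⟨e, he, hae⟩ := exists_unit a ha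
  refine ⟨e, he, hae, ?_⟩
  rw [← vd_proj l M hM e he, ← vd_hom l M hM ‖a‖ e (norm_nonneg _), ← hae]

end

theorem vd_nonneg_aux (n : ℕ) : ∀ (E : Type) [NormedAddCommGroup E] [InnerProductSpace ℝ E]
    [FiniteDimensional ℝ E] [MeasurableSpace E] [BorelSpace E] (l : List E), l.length = n →
    ∀ M : Set E, CC M → 0 ≤ VD l M := by
  induction n with
  | zero =>
    intro E _ _ _ _ _ l hl M hM
    rw [List.length_eq_zero_iff] at hl
    subst hl
    exact ENNReal.toReal_nonneg
  | succ n ih =>
    intro E _ _ _ _ _ l hl M hM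
    cases l with
    | nil => simp at hl
    | cons a l =>
      by_cases ha : a = 0
      · subst ha
        rw [vd_zero_cons]
      · obtain ⟨e, _, _, h⟩ := vd_cons_unit (l := l) hM ha
        rw [h]
        refine mul_nonneg (norm_nonneg _) (ih _ _ ?_ _ (hM.image _))
        simpa using hl

theorem vd_nonneg : VDNonnegStmt := fun l M hM => vd_nonneg_aux l.length _ l rfl M hM

theorem vd_mono_aux (n : ℕ) : ∀ (E : Type) [NormedAddCommGroup E] [InnerProductSpace ℝ E]
    [FiniteDimensional ℝ E] [MeasurableSpace E] [BorelSpace E] (l : List E), l.length = n →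
    ∀ M M' : Set E, CC M → CC M' → M ⊆ M' → VD l M ≤ VD l M' := by
  induction n with
  | zero =>
    intro E _ _ _ _ _ l hl M M' hM hM' h
    rw [List.length_eq_zero_iff] at hl
    subst hl
    exact ENNReal.toReal_mono hM'.cpt.measure_lt_top.ne (measure_mono h)
  | succ n ih =>
    intro E _ _ _ _ _ l hl M M' hM hM' h
    cases l with
    | nil => simp at hl
    | cons a l =>
      by_cases ha : a = 0
      · subst ha
        rw [vd_zero_cons, vd_zero_cons]
      · obtain ⟨e, he, hae⟩ := exists_unit a ha
        have key : ∀ N : Set E, CC N → VD (a :: l) N = ‖a‖ *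
            VD (l.map ((ℝ ∙ e)ᗮ.orthogonalProjectionOnto))
              ((ℝ ∙ e)ᗮ.orthogonalProjectionOnto '' N) := by
          intro N hN
          rw [← vd_proj l N hN e he, ← vd_hom l N hN ‖a‖ e (norm_nonneg _), ← hae]
        rw [key M hM, key M' hM']
        refine mul_le_mul_of_nonneg_left (ih _ _ ?_ _ _ (hM.image _) (hM'.image _)
          (image_mono h)) (norm_nonneg _)
        simpa using hl

theorem vd_mono : VDMonoStmt := fun l M M' hM hM' h =>
  vd_mono_aux l.length _ l rfl M M' hM hM' h

theorem vd_zero_aux (n : ℕ) : ∀ (E : Type) [NormedAddCommGroup E] [InnerProductSpace ℝ E]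
    [FiniteDimensional ℝ E] [MeasurableSpace E] [BorelSpace E] (l : List E), l.length = n →
    finrank ℝ E < n → ∀ M : Set E, CC M → VD l M = 0 := by
  induction n with
  | zero =>
    intro E _ _ _ _ _ l hl hn M hM
    omega
  | succ n ih =>
    intro E _ _ _ _ _ l hl hn M hM
    cases l with
    | nil => simp at hl
    | cons a l =>
      by_cases ha : a = 0
      · subst ha
        rw [vd_zero_cons]
      · obtain ⟨e, he, _, h⟩ := vd_cons_unit (l := l) hM ha
        rw [h]
        have h1 := Helper28_PB.finrank_perp he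
        rw [ih _ _ (by simpa using hl) (by omega) _ (hM.image _), mul_zero]

section

variable {E : Type} [NormedAddCommGroup E] [InnerProductSpace ℝ E] [FiniteDimensional ℝ E]
  [MeasurableSpace E] [BorelSpace E]

theorem vd_sum_aux (m : E → ℝ) {r : ℝ} (hr : 0 ≤ r) (T : Finset E) : ∀ (M : Set E), CC M →
    (∀ p ∈ T, 0 ≤ m p) →
    (volume (M + ∑ p ∈ T, segment ℝ (0 : E) ((r * m p) • p))).toReal =
      ∑ s ∈ T.powerset, r ^ s.card * (∏ p ∈ s, m p) * VD s.toList M := by
  classical
  induction T using Finset.induction_on with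
  | empty =>
    intro M _ _
    simp [VD]
  | insert a T ha ih =>
    intro M hM hm
    have hma : 0 ≤ m a := hm a (Finset.mem_insert_self _ _)
    have hmT : ∀ p ∈ T, 0 ≤ m p := fun p hp => hm p (Finset.mem_insert_of_mem hp)
    rw [Finset.sum_insert ha, ← add_assoc,
      ih (M + segment ℝ (0 : E) ((r * m a) • a)) (hM.add _) hmT,
      Finset.sum_powerset_insert ha, ← Finset.sum_add_distrib]
    refine Finset.sum_congr rfl ?_
    intro s hs
    have has : a ∉ s := fun h => ha (Finset.mem_powerset.mp hs h)
    have h1 : VD s.toList (M + segment ℝ (0 : E) ((r * m a) • a)) =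
        (r * m a) * VD (a :: s.toList) M + VD s.toList M := by
      rw [← vd_hom s.toList M hM (r * m a) a (by positivity), vd_cons]
      ring
    have h2 : VD (insert a s).toList M = VD (a :: s.toList) M :=
      vd_perm _ _ (Finset.toList_insert has) M
    rw [h1, h2, Finset.card_insert_of_notMem has, Finset.prod_insert has, pow_succ]
    ring

end

theorem vd_sum : VDSumStmt := by
  intro E _ _ _ _ _ M hM T m hm r hr
  rw [vd_sum_aux m hr T M hM (fun p _ => hm p), Finset.sum_powerset]
  have h1 : ∀ j, ∑ s ∈ T.powersetCard j, r ^ s.card * (∏ p ∈ s, m p) * VD s.toList M =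
      (∑ s ∈ T.powersetCard j, (∏ p ∈ s, m p) * VD s.toList M) * r ^ j := by
    intro j
    rw [Finset.sum_mul]
    refine Finset.sum_congr rfl ?_
    intro s hs
    rw [(Finset.mem_powersetCard.mp hs).2]
    ring
  simp_rw [h1]
  set f : ℕ → ℝ := fun j =>
    (∑ s ∈ T.powersetCard j, (∏ p ∈ s, m p) * VD s.toList M) * r ^ j with hf
  have hz1 : ∀ j, T.card < j → f j = 0 := by
    intro j hj
    rw [hf]
    simp only
    rw [Finset.powersetCard_eq_empty.mpr hj, Finset.sum_empty, zero_mul]
  have hz2 : ∀ j, finrank ℝ E < j → f j = 0 := by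
    intro j hj
    rw [hf]
    simp only
    rw [Finset.sum_eq_zero, zero_mul]
    intro s hs
    rw [vd_zero_aux _ E s.toList rfl (by
      rw [Finset.length_toList, (Finset.mem_powersetCard.mp hs).2]; exact hj) M hM, mul_zero]
  have e1 : ∑ j ∈ Finset.range (T.card + 1), f j =
      ∑ j ∈ Finset.range (max (T.card + 1) (finrank ℝ E + 1)), f j := by
    refine Finset.sum_subset (Finset.range_mono (le_max_left _ _)) ?_
    intro j _ hj
    rw [Finset.mem_range, not_lt] at hj
    exact hz1 j (by omega)
  have e2 : ∑ j ∈ Finset.range (finrank ℝ E + 1), f j =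
      ∑ j ∈ Finset.range (max (T.card + 1) (finrank ℝ E + 1)), f j := by
    refine Finset.sum_subset (Finset.range_mono (le_max_right _ _)) ?_
    intro j _ hj
    rw [Finset.mem_range, not_lt] at hj
    exact hz2 j (by omega)
  rw [e1, e2]

end Pool.Agent.Helper55_PB
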