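import Mathlib

open Module Set
open scoped Topology

namespace Pool.Agent.Helper55_PB

variable {E : Type*} [NormedAddCommGroup E] [NormedSpace ℝ E]

theorem isCompact_convexJoin {A B : Set E} (hA : IsCompact A) (hB : IsCompact B) :
    IsCompact (convexJoin ℝ A B) := by
  have h : convexJoin ℝ A B = (fun p : (E × E) × ℝ => (1 - p.2) • p.1.1 + p.2 • p.1.2) ''
      ((A ×ˢ B) ×ˢ Icc (0 : ℝ) 1) := by
    ext x
    simp only [mem_convexJoin, mem_image, mem_prod, Prod.exists]
    constructor
    · rintro ⟨a, ha, b, hb, hx⟩
      rw [segment_eq_image] at hx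
      obtain ⟨θ, hθ, rfl⟩ := hx
      exact ⟨a, b, θ, ⟨⟨ha, hb⟩, hθ⟩, rfl⟩
    · rintro ⟨a, b, θ, ⟨⟨ha, hb⟩, hθ⟩, rfl⟩
      refine ⟨a, ha, b, hb, ?_⟩
      rw [segment_eq_image]
      exact ⟨θ, hθ, rfl⟩
  rw [h]
  exact ((hA.prod hB).prod isCompact_Icc).image (by fun_prop)

/-- Iterated joins. -/
def joinN (A : Set E) : ℕ → Set E
  | 0 => A
  | n + 1 => convexJoin ℝ A (joinN A n)

theorem isCompact_joinN {A : Set E} (hA : IsCompact A) (n : ℕ) : IsCompact (joinN A n) := by
  induction n with
  | zero => exact hA
  | succ n ih => exact isCompact_convexJoin hA ih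

theorem joinN_subset (A : Set E) (n : ℕ) : joinN A n ⊆ convexHull ℝ A := by
  induction n with
  | zero => exact subset_convexHull ℝ A
  | succ n ih =>
    intro x hx
    obtain ⟨a, ha, b, hb, hx⟩ := mem_convexJoin.mp hx
    exact (convex_convexHull ℝ A).segment_subset (subset_convexHull ℝ A ha) (ih hb) hx

theorem subset_joinN_of_card (A : Set E) : ∀ (n : ℕ) (t : Finset E), (t : Set E) ⊆ A →
    t.Nonempty → t.card ≤ n + 1 → convexHull ℝ (t : Set E) ⊆ joinN A n := by
  classical
  intro n
  induction n with
  | zero =>
    intro t ht hne hcard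
    have h1 : t.card = 1 := le_antisymm hcard (Finset.card_pos.mpr hne)
    obtain ⟨a, rfl⟩ := Finset.card_eq_one.mp h1
    simp only [Finset.coe_singleton, convexHull_singleton]
    intro x hx
    rw [mem_singleton_iff] at hx
    subst hx
    exact ht (by simp)
  | succ n ih =>
    intro t ht hne hcard
    obtain ⟨a, ha⟩ := hne
    by_cases h : (t.erase a).Nonempty
    · have h1 : (t : Set E) = insert a ((t.erase a : Finset E) : Set E) := by
        rw [← Finset.coe_insert, Finset.insert_erase ha]
      rw [h1, convexHull_insert (Finset.coe_nonempty.mpr h)]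
      intro x hx
      obtain ⟨b, hb, c, hc, hxs⟩ := mem_convexJoin.mp hx
      rw [mem_singleton_iff] at hb
      subst hb
      refine mem_convexJoin.mpr ⟨b, ht (by simpa using ha), c, ?_, hxs⟩
      refine ih (t.erase b) ?_ h ?_ hc
      · exact fun y hy => ht (Finset.mem_coe.mpr (Finset.mem_of_mem_erase (Finset.mem_coe.mp hy)))
      · rw [Finset.card_erase_of_mem ha]
        omega
    · have h1 : t = {a} := by
        rw [Finset.not_nonempty_iff_eq_empty] at h
        rw [← Finset.insert_erase ha, h]
        rfl
      subst h1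
      simp only [Finset.coe_singleton, convexHull_singleton]
      intro x hx
      rw [mem_singleton_iff] at hx
      subst hx
      have hxA : x ∈ A := ht (by simp)
      have hxn : x ∈ joinN A n := by
        have := ih {x} (by simpa using hxA) (by simp) (by simp)
        apply this
        simp
      exact mem_convexJoin.mpr ⟨x, hxA, x, hxn, left_mem_segment _ _ _⟩

theorem isCompact_convexHull_of_isCompact [FiniteDimensional ℝ E] {A : Set E}
    (hA : IsCompact A) : IsCompact (convexHull ℝ A) := by
  have h : convexHull ℝ A = joinN A (finrank ℝ E) := by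
    refine Subset.antisymm ?_ (joinN_subset A _)
    intro x hx
    rw [convexHull_eq_union] at hx
    simp only [mem_iUnion] at hx
    obtain ⟨t, ht, hai, hx⟩ := hx
    have hne : t.Nonempty := by
      rw [← Finset.coe_nonempty]
      exact convexHull_nonempty_iff.mp ⟨x, hx⟩
    refine subset_joinN_of_card A _ t ht hne ?_ hx
    have := hai.card_le_finrank_succ
    rw [Fintype.card_coe] at this
    exact this.trans (Nat.succ_le_succ (Submodule.finrank_le _))
  rw [h]
  exact isCompact_joinN hA _

end Pool.Agent.Helper55_PB
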