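import Pool.Agent.Helper55_PB.Center

open MeasureTheory Module Set
open scoped RealInnerProductSpace Pointwise Topology

namespace Pool.Agent.Helper55_PB

variable {E : Type*} [NormedAddCommGroup E] [InnerProductSpace ℝ E]

/-- The orthogonal product of `A ⊆ V` and `B ⊆ V^⊥`. -/
def orthProd [FiniteDimensional ℝ E] (V : Submodule ℝ E) (A : Set V) (B : Set Vᗮ) : Set E :=
  {x | V.orthogonalProjectionOnto x ∈ A ∧ Vᗮ.orthogonalProjectionOnto x ∈ B}

/-- The part of `K` in the subspace `V`. -/
def piece (K : Set E) (V : Submodule ℝ E) : Set V := {y | (y : E) ∈ K}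

section

variable [FiniteDimensional ℝ E]

theorem inner_proj_of_mem (V : Submodule ℝ E) (x : E) {v : E} (hv : v ∈ V) :
    ⟪(V.orthogonalProjectionOnto x : E), v⟫ = ⟪x, v⟫ := by
  have h1 : (V.orthogonalProjectionOnto x : E) = V.starProjection x := rfl
  rw [h1, Submodule.inner_starProjection_left_eq_right,
    Submodule.starProjection_eq_self_iff.mpr hv]

theorem inner_proj_of_mem_orth (V : Submodule ℝ E) (x : E) {v : E} (hv : v ∈ Vᗮ) :
    ⟪(V.orthogonalProjectionOnto x : E), v⟫ = 0 :=
  (Submodule.mem_orthogonal _ _).mp hv _ (V.orthogonalProjectionOnto x).2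

theorem proj_mem {K : Set E} (hK : IsCompact K) (hc : Convex ℝ K) (h0 : (0 : E) ∈ interior K)
    (V : Submodule ℝ E) (hsub : ∀ v ∈ innerNormals K, v ∈ V ∨ v ∈ Vᗮ) {x : E} (hx : x ∈ K) :
    (V.orthogonalProjectionOnto x : E) ∈ K := by
  refine mem_of_forall_innerNormal hK hc h0 ?_
  intro v hv
  rcases hsub v hv with h | h
  · rw [inner_proj_of_mem V x h]
    exact inner_le_supportFn hK hx v
  · rw [inner_proj_of_mem_orth V x h]
    have := inner_le_supportFn hK (interior_subset h0) v
    rwa [inner_zero_left] at this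

theorem proj_orth_mem {K : Set E} (hK : IsCompact K) (hc : Convex ℝ K)
    (h0 : (0 : E) ∈ interior K) (V : Submodule ℝ E)
    (hsub : ∀ v ∈ innerNormals K, v ∈ V ∨ v ∈ Vᗮ) {x : E} (hx : x ∈ K) :
    (Vᗮ.orthogonalProjectionOnto x : E) ∈ K := by
  refine proj_mem hK hc h0 Vᗮ ?_ hx
  intro v hv
  rw [Submodule.orthogonal_orthogonal]
  exact (hsub v hv).symm

theorem eq_orthProd {K : Set E} (hK : IsCompact K) (hc : Convex ℝ K)
    (h0 : (0 : E) ∈ interior K) (V : Submodule ℝ E)
    (hsub : ∀ v ∈ innerNormals K, v ∈ V ∨ v ∈ Vᗮ) :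
    K = orthProd V (piece K V) (piece K Vᗮ) := by
  ext x
  constructor
  · intro hx
    exact ⟨proj_mem hK hc h0 V hsub hx, proj_orth_mem hK hc h0 V hsub hx⟩
  · rintro ⟨h1, h2⟩
    have h1' : (V.orthogonalProjectionOnto x : E) ∈ K := h1
    have h2' : (Vᗮ.orthogonalProjectionOnto x : E) ∈ K := h2
    refine mem_of_forall_innerNormal hK hc h0 ?_
    intro v hv
    rcases hsub v hv with h | h
    · rw [← inner_proj_of_mem V x h]
      exact inner_le_supportFn hK h1' v
    · rw [← inner_proj_of_mem Vᗮ x h]
      exact inner_le_supportFn hK h2' v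

theorem isCompact_piece {K : Set E} (hK : IsCompact K) (V : Submodule ℝ E) :
    IsCompact (piece K V) := by
  have h1 : Topology.IsClosedEmbedding (Subtype.val : V → E) :=
    (Submodule.closed_of_finiteDimensional V).isClosedEmbedding_subtypeVal
  exact h1.isCompact_preimage hK

omit [FiniteDimensional ℝ E] in
theorem convex_piece {K : Set E} (hc : Convex ℝ K) (V : Submodule ℝ E) :
    Convex ℝ (piece K V) :=
  hc.linear_preimage V.subtype

omit [FiniteDimensional ℝ E] in
theorem zero_mem_interior_piece {K : Set E} (h0 : (0 : E) ∈ interior K) (V : Submodule ℝ E) :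
    (0 : V) ∈ interior (piece K V) := by
  rw [mem_interior_iff_mem_nhds] at *
  exact continuous_subtype_val.continuousAt.preimage_mem_nhds h0

theorem supportFn_piece {K : Set E} (hK : IsCompact K) (V : Submodule ℝ E)
    (hne : K.Nonempty) (hproj : ∀ x ∈ K, (V.orthogonalProjectionOnto x : E) ∈ K) (u : V) :
    supportFn (piece K V) u = supportFn K (u : E) := by
  obtain ⟨x, hx, h⟩ := exists_supportFn hK hne (u : E)
  have h1 : V.orthogonalProjectionOnto x ∈ piece K V := hproj x hx
  have h2 : ⟪V.orthogonalProjectionOnto x, u⟫ = ⟪x, (u : E)⟫ := by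
    rw [Submodule.coe_inner]
    exact inner_proj_of_mem V x u.2
  rw [supportFn_eq (isCompact_piece hK V) h1 (u := u), h2, h]
  intro z hz
  rw [h2, h, Submodule.coe_inner]
  exact inner_le_supportFn hK hz _

end

/-- Interface: product formulas. -/
def ProdStmt : Prop :=
  ∀ {E : Type} [NormedAddCommGroup E] [InnerProductSpace ℝ E] [FiniteDimensional ℝ E]
    [MeasurableSpace E] [BorelSpace E] (V : Submodule ℝ E) (A : Set V) (B : Set Vᗮ),
    IsCompact A → Convex ℝ A → A.Nonempty → IsCompact B → Convex ℝ B → B.Nonempty →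
    volume (orthProd V A B) = volume A * volume B ∧
    ∀ (a : V) (b : Vᗮ), segVol (orthProd V A B) ((a : E) + b) =
      segVol A a * (volume B).toReal + (volume A).toReal * segVol B b

section

variable {E : Type} [NormedAddCommGroup E] [InnerProductSpace ℝ E]
variable [FiniteDimensional ℝ E] [MeasurableSpace E] [BorelSpace E]

theorem volume_pos_of_zero_mem {K : Set E} (hK : IsCompact K) (h0 : (0 : E) ∈ interior K) :
    0 < (volume K).toReal :=
  ENNReal.toReal_pos (Measure.measure_pos_of_nonempty_interior _ ⟨0, h0⟩).ne'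
    hK.measure_lt_top.ne

/-- The pieces of a centred solution are centred solutions. -/
theorem Good.piece (hprod : ProdStmt) {K : Set E} {c : ℝ} (hG : Good K c) (V : Submodule ℝ E)
    (hsub : ∀ v ∈ innerNormals K, v ∈ V ∨ v ∈ Vᗮ) :
    Good (piece K V) ((volume (piece K V)).toReal / ((volume K).toReal / c)) := by
  have hA := isCompact_piece hG.compact V
  have hAc := convex_piece hG.convex V
  have hA0 := zero_mem_interior_piece hG.zero_mem V
  have hB := isCompact_piece hG.compact Vᗮ
  have hBc := convex_piece hG.convex Vᗮ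
  have hB0 := zero_mem_interior_piece hG.zero_mem Vᗮ
  have hKeq := eq_orthProd hG.compact hG.convex hG.zero_mem V hsub
  obtain ⟨hvol, hseg⟩ := hprod V (Helper55_PB.piece K V) (Helper55_PB.piece K Vᗮ) hA hAc
    ⟨0, interior_subset hA0⟩ hB hBc ⟨0, interior_subset hB0⟩
  rw [← hKeq] at hvol hseg
  have hvA := volume_pos_of_zero_mem hA hA0
  have hvB := volume_pos_of_zero_mem hB hB0
  have hvK := volume_pos_of_zero_mem hG.compact hG.zero_mem
  have hvol' : (volume K).toReal = (volume (Helper55_PB.piece K V)).toReal *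
      (volume (Helper55_PB.piece K Vᗮ)).toReal := by
    rw [hvol, ENNReal.toReal_mul]
  refine ⟨hA, hAc, hA0, ?_, ?_, ?_⟩
  · intro x hx
    exact hG.symm _ hx
  · have := hG.pos
    positivity
  · intro w
    have h1 := hseg w 0
    rw [Submodule.coe_zero, add_zero, segVol_zero, mul_zero, add_zero, hG.eq,
      ← supportFn_piece hG.compact V ⟨0, interior_subset hG.zero_mem⟩
        (fun x hx => proj_mem hG.compact hG.convex hG.zero_mem V hsub hx) w] at h1
    have h2 : segVol (Helper55_PB.piece K V) w =
        c * supportFn (Helper55_PB.piece K V) w / (volume (Helper55_PB.piece K Vᗮ)).toReal := by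
      rw [h1]
      field_simp
    rw [h2, hvol']
    have := hG.pos
    field_simp

/-- If `V` consists of normals then the piece of `K` in `V` is smooth. -/
theorem Good.smooth_piece {K : Set E} {c : ℝ} (hG : Good K c) (V : Submodule ℝ E)
    (hsub : ∀ v ∈ innerNormals K, v ∈ V ∨ v ∈ Vᗮ) (hfull : (V : Set E) ⊆ coneOf K) :
    IsSmoothBody (Helper55_PB.piece K V) := by
  intro x hx u v hu hv hxu hxv
  by_contra hne
  have hA := isCompact_piece hG.compact V
  have hxK : x ∈ Helper55_PB.piece K V := hA.isClosed.frontier_subset hx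
  have hsupp : ∀ w : V, supportFn (Helper55_PB.piece K V) w = supportFn K (w : E) :=
    supportFn_piece hG.compact V ⟨0, interior_subset hG.zero_mem⟩
        (fun x hx => proj_mem hG.compact hG.convex hG.zero_mem V hsub hx)
  have hadd : supportFn K (u : E) + supportFn K (v : E) = supportFn K ((u : E) + v) := by
    rw [← Submodule.coe_add, ← hsupp, ← hsupp, ← hsupp,
      supportFn_eq hA hxK hxu, supportFn_eq hA hxK hxv,
      supportFn_eq hA hxK (u := u + v), inner_add_right]
    intro z hz
    rw [inner_add_right, inner_add_right]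
    exact add_le_add (hxu z hz) (hxv z hz)
  have h2 := hG.inner_mul_nonneg hadd (hfull (u - v).2)
  have h3 : 0 ≤ ⟪u, u - v⟫ * ⟪v, u - v⟫ := h2
  rw [inner_sub_right, inner_sub_right, real_inner_self_eq_norm_sq, real_inner_self_eq_norm_sq,
    hu, hv, real_inner_comm] at h3
  have h4 : ⟪v, u⟫ = 1 := by nlinarith
  have h5 : ‖u - v‖ ^ 2 = 0 := by
    rw [norm_sub_sq_real, hu, hv, real_inner_comm, h4]
    norm_num
  have h6 : u - v = 0 := by
    rw [← norm_eq_zero]
    exact pow_eq_zero_iff (two_ne_zero) |>.mp h5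
  exact hne (sub_eq_zero.mp h6)

end

end Pool.Agent.Helper55_PB
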