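import Pool.Agent.Helper55_PB.MidMain
import Pool.Agent.Helper55_PB.Split
import Pool.Agent.Helper15_PB.Lins
import Pool.Agent.Helper15_PB.Cont
import Pool.Agent.Helper15_PB.Subsp

open MeasureTheory Module Set
open scoped RealInnerProductSpace Pointwise Topology

namespace Pool.Agent.Helper55_PB

variable {E : Type} [NormedAddCommGroup E] [InnerProductSpace ℝ E] [FiniteDimensional ℝ E]

/-! ### Link between Steiner polynomials and segment volumes -/

theorem proj_closedBall (V : Submodule ℝ E) (r : ℝ) :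
    V.orthogonalProjectionOnto '' Metric.closedBall (0 : E) r =
      Metric.closedBall (0 : V) r := by
  ext y
  constructor
  · rintro ⟨x, hx, rfl⟩
    rw [Metric.mem_closedBall, dist_zero_right] at *
    exact (Submodule.norm_orthogonalProjectionOnto_apply_le V x).trans hx
  · intro hy
    refine ⟨(y : E), ?_, Submodule.orthogonalProjectionOnto_mem_subspace_eq_self y⟩
    rw [Metric.mem_closedBall, dist_zero_right] at *
    exact hy

theorem proj_add_ball (V : Submodule ℝ E) (K : Set E) (r : ℝ) :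
    V.orthogonalProjectionOnto '' (K + Metric.closedBall (0 : E) r) =
      V.orthogonalProjectionOnto '' K + Metric.closedBall (0 : V) r := by
  rw [← proj_closedBall V r, Set.image_add]

omit [FiniteDimensional ℝ E] in
theorem convex_add_ball {K : Set E} (hc : Convex ℝ K) (r : ℝ) :
    Convex ℝ (K + Metric.closedBall (0 : E) r) :=
  hc.add (convex_closedBall 0 r)

theorem isCompact_add_ball {K : Set E} (hK : IsCompact K) (r : ℝ) :
    IsCompact (K + Metric.closedBall (0 : E) r) :=
  hK.add (isCompact_closedBall 0 r)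

variable [MeasurableSpace E] [BorelSpace E]

/-- Along every vector, `segVol (K + r B)` is a polynomial in `r ≥ 0`, one of whose coefficients
is given by the `i`-th projection body. -/
theorem exists_coeff {i : ℕ} {K L : Set E} (hK : IsCompact K) (hc : Convex ℝ K)
    (hi : i < finrank ℝ E) (hL : IsProjectionBodyOfOrder i K L) (w : E) :
    ∃ q : ℕ → ℝ, (∀ r : ℝ, 0 ≤ r → segVol (K + Metric.closedBall (0 : E) r) w =
      ∑ j ∈ Finset.range (finrank ℝ E), q j * r ^ j) ∧
      q (finrank ℝ E - 1 - i) = ballVol (finrank ℝ E - 1 - i) * supportFn L w := by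
  by_cases hw : w = 0
  · subst hw
    refine ⟨fun _ => 0, ?_, ?_⟩
    · intro r _
      rw [segVol_zero]
      simp
    · rw [supportFn_zero hL.1 hL.2.2.1, mul_zero]
  obtain ⟨e, he, hwe⟩ := exists_unit w hw
  obtain ⟨b, hb1, hb2⟩ := hL.2.2.2 e he
  have hrank : finrank ℝ ((ℝ ∙ e)ᗮ : Submodule ℝ E) = finrank ℝ E - 1 := by
    have := Helper28_PB.finrank_perp he
    omega
  rw [hrank] at hb2
  obtain ⟨m, hm⟩ : ∃ m, finrank ℝ E = m + 1 := ⟨finrank ℝ E - 1, by omega⟩
  rw [hm] at hb2 hi ⊢
  simp only [Nat.add_sub_cancel] at hb2 ⊢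
  refine ⟨fun j => ‖w‖ * (ballVol j * b (m - j)), ?_, ?_⟩
  · intro r hr
    have h1 : segVol (K + Metric.closedBall (0 : E) r) w =
        ‖w‖ * shadowVol (K + Metric.closedBall (0 : E) r) e := by
      conv_lhs => rw [hwe]
      exact segVol_eq (isCompact_add_ball hK r) (convex_add_ball hc r) he (norm_nonneg _)
    rw [h1, shadowVol, proj_add_ball, hb2 r hr, ← Finset.sum_range_reflect, Finset.mul_sum]
    refine Finset.sum_congr rfl ?_
    intro j hj
    have hj' := Finset.mem_range.mp hj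
    have h2 : m + 1 - 1 - j = m - j := by omega
    have h3 : m - (m - j) = j := by omega
    rw [h2, h3]
    ring
  · have h3 : m - (m - i) = i := by omega
    show ‖w‖ * (ballVol (m - i) * b (m - (m - i))) = _
    rw [h3, hb1]
    conv_rhs => rw [hwe, supportFn_smul hL.1 hL.2.2.1 (norm_nonneg _)]
    ring

/-- Polynomials that agree for nonnegative arguments have the same coefficients. -/
theorem coeff_unique {n : ℕ} {q q' : ℕ → ℝ}
    (h : ∀ r : ℝ, 0 ≤ r → ∑ j ∈ Finset.range n, q j * r ^ j =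
      ∑ j ∈ Finset.range n, q' j * r ^ j) {k : ℕ} (hk : k < n) : q k = q' k := by
  classical
  set p : Polynomial ℝ := ∑ j ∈ Finset.range n, Polynomial.C (q j - q' j) * Polynomial.X ^ j
    with hp
  have hev : ∀ r : ℝ, p.eval r = ∑ j ∈ Finset.range n, (q j - q' j) * r ^ j := by
    intro r
    rw [hp, Polynomial.eval_finsetSum]
    refine Finset.sum_congr rfl ?_
    intro j _
    simp
  have hp0 : p = 0 := by
    refine Polynomial.eq_zero_of_infinite_isRoot p ?_
    refine (Set.Ici_infinite (0 : ℝ)).mono ?_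
    intro r hr
    show p.eval r = 0
    rw [hev]
    have := h r hr
    simp only [sub_mul, Finset.sum_sub_distrib]
    rw [this, sub_self]
  have h1 : p.coeff k = q k - q' k := by
    rw [hp, Polynomial.finsetSum_coeff]
    simp only [Polynomial.coeff_C_mul, Polynomial.coeff_X_pow]
    rw [Finset.sum_eq_single k]
    · simp
    · intro j _ hjk
      rw [if_neg (Ne.symm hjk), mul_zero]
    · intro hk'
      exact absurd (Finset.mem_range.mpr hk) hk'
  rw [hp0, Polynomial.coeff_zero] at h1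
  linarith

theorem ballVol_pos (k : ℕ) : 0 < ballVol k := by
  have h1 : 0 < volume (Metric.closedBall (0 : EuclideanSpace ℝ (Fin k)) 1) :=
    Metric.measure_closedBall_pos _ _ one_pos
  exact ENNReal.toReal_pos h1.ne' (isCompact_closedBall _ _).measure_lt_top.ne

/-- A centred solution for the `i`-th projection body operator, in terms of segment volumes. -/
structure MidGood (i : ℕ) (K : Set E) (c : ℝ) : Prop where
  compact : IsCompact K
  convex : Convex ℝ K
  zero_mem : (0 : E) ∈ interior K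
  coeff : ∀ w : E, ∃ q : ℕ → ℝ,
    (∀ r : ℝ, 0 ≤ r → segVol (K + Metric.closedBall (0 : E) r) w =
      ∑ j ∈ Finset.range (finrank ℝ E), q j * r ^ j) ∧
    q (finrank ℝ E - 1 - i) = c * supportFn K w

/-- Every solution is a translate of a centred solution. -/
theorem exists_midGood {i : ℕ} (hi : i < finrank ℝ E) {K L : Set E} (hK : IsConvexBody K)
    (hL : IsProjectionBodyOfOrder i K L) (hKL : Homothetic K L) :
    ∃ (a : E) (K' : Set E) (c : ℝ), K' = (fun y => a + y) '' K ∧ MidGood i K' c := by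
  obtain ⟨hcomp, hconv, hint⟩ := hK
  obtain ⟨x, r, hr, hLx⟩ := hKL
  have hne : K.Nonempty := hint.mono interior_subset
  set K' : Set E := (fun y => r⁻¹ • x + y) '' K with hK'
  have hK'c : IsCompact K' := hcomp.image (by fun_prop)
  have hK'v : Convex ℝ K' := hconv.translate _
  have hK'i : (interior K').Nonempty := by
    have h1 : K' = (Homeomorph.addLeft (r⁻¹ • x)) '' K := rfl
    rw [h1, ← Homeomorph.image_interior]
    exact hint.image _
  have hK'n : K'.Nonempty := hne.image _
  have hsupp : ∀ w : E, supportFn L w = r * supportFn K' w := by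
    intro w
    rw [hK', hLx, supportFn_translate hcomp hne, real_inner_smul_left]
    have h2 : (fun y => x + r • y) '' K = (fun y => x + y) '' ((fun y => r • y) '' K) := by
      rw [image_image]
    rw [h2, supportFn_translate (hcomp.image (by fun_prop)) (hne.image _),
      supportFn_smul_set hcomp hne hr.le]
    field_simp
  have hseg : ∀ (s : ℝ) (w : E), segVol (K' + Metric.closedBall (0 : E) s) w =
      segVol (K + Metric.closedBall (0 : E) s) w := by
    intro s w
    rw [hK', translate_add, segVol_translate]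
  set k := finrank ℝ E - 1 - i with hk
  have hkn : k < finrank ℝ E := by omega
  have hcoeff : ∀ w : E, ∃ q : ℕ → ℝ,
      (∀ r : ℝ, 0 ≤ r → segVol (K' + Metric.closedBall (0 : E) r) w =
        ∑ j ∈ Finset.range (finrank ℝ E), q j * r ^ j) ∧
      q k = (ballVol k * r) * supportFn K' w := by
    intro w
    obtain ⟨q, hq1, hq2⟩ := exists_coeff hcomp hconv hi hL w
    refine ⟨q, ?_, ?_⟩
    · intro s hs
      rw [hseg]
      exact hq1 s hs
    · rw [hq2, hsupp]
      ring
  have hpos : 0 < ballVol k * r := mul_pos (ballVol_pos k) hr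
  have hsymm : ∀ w : E, supportFn K' (-w) = supportFn K' w := by
    intro w
    obtain ⟨q, hq1, hq2⟩ := hcoeff w
    obtain ⟨q', hq1', hq2'⟩ := hcoeff (-w)
    have h1 : q k = q' k := by
      refine coeff_unique ?_ hkn
      intro s hs
      rw [← hq1 s hs, ← hq1' s hs, segVol_neg]
    rw [hq2, hq2'] at h1
    exact (mul_left_cancel₀ hpos.ne' h1).symm
  have h0 : (0 : E) ∈ interior K' := by
    refine zero_mem_interior hK'c hK'v hK'i ?_
    intro w hw
    obtain ⟨x₀, hx₀⟩ := hK'i
    obtain ⟨ε, hε, hb⟩ := Metric.mem_nhds_iff.mp (mem_interior_iff_mem_nhds.mp hx₀)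
    have hwn : 0 < ‖w‖ := norm_pos_iff.mpr hw
    have hmem : ∀ t : ℝ, |t| < ε / ‖w‖ → x₀ + t • w ∈ K' := by
      intro t ht
      apply hb
      rw [Metric.mem_ball, dist_eq_norm, add_sub_cancel_left, norm_smul, Real.norm_eq_abs]
      rwa [lt_div_iff₀ hwn] at ht
    set t := ε / ‖w‖ / 2 with ht
    have htpos : 0 < t := by positivity
    have htlt : t < ε / ‖w‖ := by
      rw [ht]
      have : 0 < ε / ‖w‖ := by positivity
      linarith
    have h1 := inner_le_supportFn hK'c (hmem t (by rwa [abs_of_pos htpos])) w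
    have h2 := inner_le_supportFn hK'c (hmem (-t) (by rwa [abs_neg, abs_of_pos htpos])) (-w)
    rw [hsymm] at h2
    rw [inner_add_left, real_inner_smul_left, real_inner_self_eq_norm_sq] at h1
    rw [inner_add_left, real_inner_smul_left, inner_neg_right, inner_neg_right,
      real_inner_self_eq_norm_sq] at h2
    have h3 : 0 < t * ‖w‖ ^ 2 := by positivity
    linarith
  exact ⟨r⁻¹ • x, K', ballVol k * r, rfl, hK'c, hK'v, h0, hcoeff⟩

/-- Additivity of the support function makes all iterated differences of order `n - 1 - i`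
vanish. -/
theorem MidGood.del_eq_zero {i : ℕ} (hi : i < finrank ℝ E) {K : Set E} {c : ℝ}
    (hG : MidGood i K c) {w₁ w₂ : E}
    (hadd : supportFn K w₁ + supportFn K w₂ = supportFn K (w₁ + w₂))
    (g : Fin (finrank ℝ E - 1 - i) → E) : Del (List.ofFn g) K w₁ w₂ = 0 := by
  obtain ⟨q1, hq1, hq1'⟩ := hG.coeff w₁
  obtain ⟨q2, hq2, hq2'⟩ := hG.coeff w₂
  obtain ⟨q3, hq3, hq3'⟩ := hG.coeff (w₁ + w₂)
  refine del_main PB.H15.delCont hG.compact hG.convex ⟨0, hG.zero_mem⟩ w₁ w₂ ?_
    (fun j => q1 j + q2 j - q3 j) ?_ (by omega) ?_ g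
  · intro w
    obtain ⟨q, hq, _⟩ := hG.coeff w
    have h1 : ContinuousOn (fun r : ℝ => ∑ j ∈ Finset.range (finrank ℝ E), q j * r ^ j)
        (Ici 0) := by
      refine Continuous.continuousOn ?_
      fun_prop
    exact h1.congr (fun r hr => hq r hr)
  · intro r hr
    rw [defect, hq1 r hr, hq2 r hr, hq3 r hr, ← Finset.sum_add_distrib,
      ← Finset.sum_sub_distrib]
    refine Finset.sum_congr rfl ?_
    intro j _
    ring
  · show q1 _ + q2 _ - q3 _ = 0
    rw [hq1', hq2', hq3', ← hadd]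
    ring

omit [MeasurableSpace E] [BorelSpace E] in
theorem zero_mem_interior_proj {K : Set E} (h0 : (0 : E) ∈ interior K) (V : Submodule ℝ E) :
    (0 : V) ∈ interior (V.orthogonalProjectionOnto '' K) := by
  obtain ⟨ρ, hρ, hb⟩ := exists_ball_zero h0
  rw [mem_interior_iff_mem_nhds]
  refine Filter.mem_of_superset (Metric.closedBall_mem_nhds (0 : V) hρ) ?_
  rw [← proj_closedBall V ρ]
  exact image_mono hb

omit [MeasurableSpace E] [BorelSpace E] in
theorem supportFn_proj {K : Set E} (hK : IsCompact K) (hne : K.Nonempty) (V : Submodule ℝ E)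
    (u : V) : supportFn (V.orthogonalProjectionOnto '' K) u = supportFn K (u : E) := by
  obtain ⟨x, hx, h⟩ := exists_supportFn hK hne (u : E)
  have hc : IsCompact (V.orthogonalProjectionOnto '' K) :=
    hK.image (ContinuousLinearMap.continuous _)
  have h2 : ∀ z : E, ⟪V.orthogonalProjectionOnto z, u⟫ = ⟪z, (u : E)⟫ := by
    intro z
    rw [Submodule.coe_inner]
    exact inner_proj_of_mem V z u.2
  rw [supportFn_eq hc ⟨x, hx, rfl⟩ (u := u), h2, h]
  rintro _ ⟨z, hz, rfl⟩
  rw [h2, h2, h]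
  exact inner_le_supportFn hK hz _

/-- The union of the cones of normals of the projections to `(i+1)`-dimensional subspaces. -/
def midCone (i : ℕ) (K : Set E) : Set E :=
  {v | v ≠ 0 ∧ ∃ V : Submodule ℝ E, finrank ℝ V = i + 1 ∧ ∃ hv : v ∈ V,
    (⟨v, hv⟩ : V) ∈ coneOf (V.orthogonalProjectionOnto '' K)}

theorem MidGood.inner_mul_nonneg {i : ℕ} (hi : i < finrank ℝ E) {K : Set E} {c : ℝ}
    (hG : MidGood i K c) {w₁ w₂ : E}
    (hadd : supportFn K w₁ + supportFn K w₂ = supportFn K (w₁ + w₂)) {v : E}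
    (hv : v ∈ midCone i K) : 0 ≤ ⟪w₁, v⟫ * ⟪w₂, v⟫ := by
  obtain ⟨_, V, hV, hvV, hv⟩ := hv
  have hne : K.Nonempty := ⟨0, interior_subset hG.zero_mem⟩
  set M := V.orthogonalProjectionOnto '' K with hM
  have hMc : IsCompact M := hG.compact.image (ContinuousLinearMap.continuous _)
  have hMv : Convex ℝ M := hG.convex.linear_image (V.orthogonalProjectionOnto : E →ₗ[ℝ] V)
  obtain ⟨g, hg⟩ := PB.H15.delSubsp Helper28_PB.proj K hG.compact hG.convex hne w₁ w₂
    (finrank ℝ E - 1 - i) V (by omega)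
  rw [hG.del_eq_zero hi hadd g] at hg
  set u₁ := V.orthogonalProjectionOnto w₁ with hu₁
  set u₂ := V.orthogonalProjectionOnto w₂ with hu₂
  have hseg : segVol M (u₁ + u₂) = segVol M u₁ + segVol M u₂ := by
    have h1 : defect M u₁ u₂ = 0 := hg.symm
    rw [defect] at h1
    linarith
  have h1 : ∀ v ∈ innerNormals M, 0 ≤ ⟪u₁, v⟫ * ⟪u₂, v⟫ := by
    rintro v ⟨hv1, x, hx, r, hr, hb, hsup⟩
    by_contra hcon
    push Not at hcon
    rcases mul_neg_iff.mp hcon with ⟨h1, h2⟩ | ⟨h1, h2⟩
    · have := segVol_add_lt hMc hMv hr hv1 hx hb hsup h1 h2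
      linarith
    · have := segVol_add_lt hMc hMv hr hv1 hx hb hsup h2 h1
      rw [add_comm u₂ u₁] at this
      linarith
  have h2 : ∀ v ∈ closure (innerNormals M), 0 ≤ ⟪u₁, v⟫ * ⟪u₂, v⟫ := by
    have hcl : IsClosed {v : V | 0 ≤ ⟪u₁, v⟫ * ⟪u₂, v⟫} :=
      isClosed_le continuous_const (by fun_prop)
    exact fun v hv => closure_minimal h1 hcl hv
  have h3 : 0 ≤ ⟪u₁, (⟨v, hvV⟩ : V)⟫ * ⟪u₂, (⟨v, hvV⟩ : V)⟫ := by
    rcases hv with hv | hv
    · rw [hv]
      simp
    · have h3 := h2 _ hv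
      rw [inner_smul_right, inner_smul_right] at h3
      by_cases hv0 : (⟨v, hvV⟩ : V) = 0
      · rw [hv0]; simp
      · have hpos : 0 < ‖(⟨v, hvV⟩ : V)‖⁻¹ := by
          have := norm_pos_iff.mpr hv0
          positivity
        have h4 : ‖(⟨v, hvV⟩ : V)‖⁻¹ * ⟪u₁, (⟨v, hvV⟩ : V)⟫ *
            (‖(⟨v, hvV⟩ : V)‖⁻¹ * ⟪u₂, (⟨v, hvV⟩ : V)⟫) =
            (‖(⟨v, hvV⟩ : V)‖⁻¹ * ‖(⟨v, hvV⟩ : V)‖⁻¹) *
              (⟪u₁, (⟨v, hvV⟩ : V)⟫ * ⟪u₂, (⟨v, hvV⟩ : V)⟫) := by
          ring
        rw [h4] at h3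
        exact (mul_nonneg_iff_of_pos_left (by positivity)).mp h3
  have h5 : ∀ w : E, ⟪V.orthogonalProjectionOnto w, (⟨v, hvV⟩ : V)⟫ = ⟪w, v⟫ := by
    intro w
    rw [Submodule.coe_inner]
    exact inner_proj_of_mem V w hvV
  rw [hu₁, hu₂, h5, h5] at h3
  exact h3

omit [MeasurableSpace E] [BorelSpace E] in
/-- There is a subspace of every dimension between `1` and `n` containing a given vector. -/
theorem exists_subspace {i : ℕ} (hi : i < finrank ℝ E) (x : E) :
    ∃ V : Submodule ℝ E, finrank ℝ V = i + 1 ∧ x ∈ V := by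
  induction i with
  | zero =>
    by_cases hx : x = 0
    · have : Nontrivial E := Module.nontrivial_of_finrank_pos (R := ℝ) (by omega)
      obtain ⟨e, he⟩ := exists_ne (0 : E)
      refine ⟨ℝ ∙ e, finrank_span_singleton he, ?_⟩
      rw [hx]
      exact zero_mem _
    · exact ⟨ℝ ∙ x, finrank_span_singleton hx, Submodule.mem_span_singleton_self x⟩
  | succ i ih =>
    obtain ⟨V, hV, hx⟩ := ih (by omega)
    have h1 : Vᗮ ≠ ⊥ := by
      intro h
      have h2 := Submodule.finrank_add_finrank_orthogonal V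
      rw [h, finrank_bot, hV] at h2
      omega
    obtain ⟨z, hz, hz0⟩ := Submodule.exists_mem_ne_zero_of_ne_bot h1
    refine ⟨V ⊔ (ℝ ∙ z), ?_, Submodule.mem_sup_left hx⟩
    have h2 := Submodule.finrank_sup_add_finrank_inf_eq V (ℝ ∙ z)
    have h3 : V ⊓ (ℝ ∙ z) = ⊥ := by
      rw [eq_bot_iff]
      intro y hy
      obtain ⟨hy1, hy2⟩ := Submodule.mem_inf.mp hy
      have hy3 : y ∈ Vᗮ := by
        have : (ℝ ∙ z) ≤ Vᗮ := by
          rw [Submodule.span_singleton_le_iff_mem]
          exact hz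
        exact this hy2
      have := (Submodule.mem_orthogonal _ _).mp hy3 y hy1
      rw [inner_self_eq_zero] at this
      exact (Submodule.mem_bot ℝ).mpr this
    rw [h3, finrank_bot, hV, finrank_span_singleton hz0] at h2
    omega

omit [MeasurableSpace E] [BorelSpace E] in
theorem span_midCone {i : ℕ} (hi : i < finrank ℝ E) {K : Set E} (hK : IsCompact K)
    (hc : Convex ℝ K) (h0 : (0 : E) ∈ interior K) :
    Submodule.span ℝ (midCone i K) = ⊤ := by
  rw [eq_top_iff]
  intro x _
  obtain ⟨V, hV, hx⟩ := exists_subspace hi x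
  have h1 := span_coneOf (hK.image (ContinuousLinearMap.continuous (V.orthogonalProjectionOnto)))
    (hc.linear_image (V.orthogonalProjectionOnto : E →ₗ[ℝ] V)) (zero_mem_interior_proj h0 V)
  have h2 : (⟨x, hx⟩ : V) ∈ Submodule.span ℝ (coneOf (V.orthogonalProjectionOnto '' K)) := by
    have h3 : (⟨x, hx⟩ : V) ∈ (⊤ : Submodule ℝ V) := trivial
    rw [← h1] at h3
    exact h3
  have h3 : (Submodule.span ℝ (coneOf (V.orthogonalProjectionOnto '' K))).map V.subtype ≤
      Submodule.span ℝ (midCone i K) := by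
    rw [Submodule.map_span, Submodule.span_le]
    rintro _ ⟨v, hv, rfl⟩
    by_cases hv0 : v = 0
    · rw [hv0]
      exact zero_mem _
    · refine Submodule.subset_span ⟨?_, V, hV, v.2, hv⟩
      intro h
      exact hv0 (Subtype.ext h)
  exact h3 ⟨_, h2, rfl⟩

/-- The closure property of the cone of normals. -/
theorem MidGood.pole {i : ℕ} (hi : i < finrank ℝ E) {K : Set E} {c : ℝ}
    (hG : MidGood i K c) (v : Fin i → E) (hv : LinearIndependent ℝ v)
    (hvS : ∀ j, v j ∈ midCone i K) (w : E) (hw : w ≠ 0) (hvw : ∀ j, ⟪v j, w⟫ = 0) :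
    w ∈ midCone i K := by
  have hne : K.Nonempty := ⟨0, interior_subset hG.zero_mem⟩
  have hwn : 0 < ‖w‖ := norm_pos_iff.mpr hw
  set V₀ := Submodule.span ℝ (range v) with hV₀
  have hr₀ : finrank ℝ V₀ = i := by
    rw [hV₀, finrank_span_eq_card hv, Fintype.card_fin]
  have hwV₀ : w ∈ V₀ᗮ := by
    rw [Submodule.mem_orthogonal]
    intro y hy
    have h1 : V₀ ≤ (ℝ ∙ w)ᗮ := by
      rw [hV₀, Submodule.span_le]
      rintro _ ⟨j, rfl⟩
      refine Submodule.mem_orthogonal_singleton_iff_inner_right.mpr ?_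
      rw [real_inner_comm]
      exact hvw j
    have h2 := Submodule.mem_orthogonal_singleton_iff_inner_right.mp (h1 hy)
    rw [real_inner_comm]
    exact h2
  set V := V₀ ⊔ (ℝ ∙ w) with hVdef
  have hVr : finrank ℝ V = i + 1 := by
    have h2 := Submodule.finrank_sup_add_finrank_inf_eq V₀ (ℝ ∙ w)
    have h3 : V₀ ⊓ (ℝ ∙ w) = ⊥ := by
      rw [eq_bot_iff]
      intro y hy
      obtain ⟨hy1, hy2⟩ := Submodule.mem_inf.mp hy
      have hy3 : y ∈ V₀ᗮ := by
        have : (ℝ ∙ w) ≤ V₀ᗮ := by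
          rw [Submodule.span_singleton_le_iff_mem]
          exact hwV₀
        exact this hy2
      have := (Submodule.mem_orthogonal _ _).mp hy3 y hy1
      rw [inner_self_eq_zero] at this
      exact (Submodule.mem_bot ℝ).mpr this
    rw [h3, finrank_bot, hr₀, finrank_span_singleton hw] at h2
    omega
  have hwV : w ∈ V := Submodule.mem_sup_right (Submodule.mem_span_singleton_self w)
  refine ⟨hw, V, hVr, hwV, ?_⟩
  right
  set w' : V := ‖(⟨w, hwV⟩ : V)‖⁻¹ • (⟨w, hwV⟩ : V) with hw'
  have hnorm : ‖(⟨w, hwV⟩ : V)‖ = ‖w‖ := rfl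
  have hw'1 : ‖w'‖ = 1 := by
    rw [hw', norm_smul, norm_inv, norm_norm, hnorm, inv_mul_cancel₀ hwn.ne']
  refine mem_closure_of_indec (hG.compact.image (ContinuousLinearMap.continuous _))
    (hG.convex.linear_image (V.orthogonalProjectionOnto : E →ₗ[ℝ] V))
    (zero_mem_interior_proj hG.zero_mem V) hw'1 ?_
  intro w₁ w₂ hsum hadd
  rw [← hsum] at hadd
  rw [supportFn_proj hG.compact hne, supportFn_proj hG.compact hne,
    supportFn_proj hG.compact hne, Submodule.coe_add] at hadd
  have h1 : ∀ j, ⟪(w₁ : E), v j⟫ = 0 := by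
    intro j
    have h2 := hG.inner_mul_nonneg hi hadd (hvS j)
    have h3 : ⟪(w₁ : E), v j⟫ + ⟪(w₂ : E), v j⟫ = 0 := by
      rw [← inner_add_left, ← Submodule.coe_add, hsum, hw', Submodule.coe_smul,
        real_inner_smul_left, real_inner_comm, hvw, mul_zero]
    have h4 : ⟪(w₂ : E), v j⟫ = -⟪(w₁ : E), v j⟫ := by linarith
    rw [h4] at h2
    nlinarith
  have h2 : (w₁ : E) ∈ V₀ᗮ := by
    rw [Submodule.mem_orthogonal]
    intro y hy
    have h3 : V₀ ≤ (ℝ ∙ (w₁ : E))ᗮ := by
      rw [hV₀, Submodule.span_le]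
      rintro _ ⟨j, rfl⟩
      exact Submodule.mem_orthogonal_singleton_iff_inner_right.mpr (h1 j)
    have h4 := Submodule.mem_orthogonal_singleton_iff_inner_right.mp (h3 hy)
    rw [real_inner_comm]
    exact h4
  obtain ⟨y, hy, z, hz, hyz⟩ := Submodule.mem_sup.mp w₁.2
  obtain ⟨t, rfl⟩ := Submodule.mem_span_singleton.mp hz
  have hy0 : y = 0 := by
    have h3 : y ∈ V₀ᗮ := by
      have h4 : y = w₁ - t • w := by rw [← hyz]; abel
      rw [h4]
      exact Submodule.sub_mem _ h2 (Submodule.smul_mem _ _ hwV₀)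
    have := (Submodule.mem_orthogonal _ _).mp h3 y hy
    rw [inner_self_eq_zero] at this
    exact this
  refine ⟨t * ‖w‖, ?_⟩
  apply Subtype.ext
  rw [hw', Submodule.coe_smul, Submodule.coe_smul, hnorm, smul_smul, mul_assoc,
    mul_inv_cancel₀ hwn.ne', mul_one, ← hyz, hy0, zero_add]

/-- Every convex body homothetic to its `i`-th projection body, `1 ≤ i ≤ n - 2`, is smooth. -/
theorem smooth_of_mid {i : ℕ} (hi1 : 1 ≤ i) (hi2 : i + 2 ≤ finrank ℝ E) {K L : Set E}
    (hK : IsConvexBody K) (hL : IsProjectionBodyOfOrder i K L) (hKL : Homothetic K L) :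
    IsSmoothBody K := by
  have hi : i < finrank ℝ E := by omega
  obtain ⟨a, K', c, hK', hG⟩ := exists_midGood hi hK hL hKL
  have hall : ∀ z : E, z ≠ 0 → z ∈ midCone i K' :=
    PB.H15.linS (midCone i K') i hi1 hi2 (span_midCone hi hG.compact hG.convex hG.zero_mem)
      (fun v hv hvS w hw hvw => hG.pole hi v hv hvS w hw hvw)
  have hne : K.Nonempty := hK.interior_nonempty.mono interior_subset
  intro x hx u v hu hv hxu hxv
  by_contra hcon
  have hxK : x ∈ K := hK.compact.isClosed.frontier_subset hx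
  have hadd0 : supportFn K u + supportFn K v = supportFn K (u + v) := by
    rw [supportFn_eq hK.compact hxK hxu, supportFn_eq hK.compact hxK hxv,
      supportFn_eq hK.compact hxK (u := u + v), inner_add_right]
    intro z hz
    rw [inner_add_right, inner_add_right]
    exact add_le_add (hxu z hz) (hxv z hz)
  have hadd : supportFn K' u + supportFn K' v = supportFn K' (u + v) := by
    rw [hK', supportFn_translate hK.compact hne, supportFn_translate hK.compact hne,
      supportFn_translate hK.compact hne, ← hadd0, inner_add_right]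
    ring
  have h2 : 0 ≤ ⟪u, u - v⟫ * ⟪v, u - v⟫ :=
    hG.inner_mul_nonneg hi hadd (hall (u - v) (sub_ne_zero.mpr hcon))
  rw [inner_sub_right, inner_sub_right, real_inner_self_eq_norm_sq, real_inner_self_eq_norm_sq,
    hu, hv, real_inner_comm] at h2
  have h3 : ⟪v, u⟫ = 1 := by nlinarith
  have h4 : ‖u - v‖ ^ 2 = 0 := by
    rw [norm_sub_sq_real, hu, hv, real_inner_comm, h3]
    norm_num
  have h5 : u - v = 0 := by
    rw [← norm_eq_zero]
    exact pow_eq_zero_iff (two_ne_zero) |>.mp h4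
  exact hcon (sub_eq_zero.mp h5)

end Pool.Agent.Helper55_PB
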