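import Pool.Agent.Helper55_PB.Sc

open MeasureTheory Module Set Filter
open scoped RealInnerProductSpace Pointwise Topology

namespace Pool.Agent.Helper55_PB

open Pool.Agent.Helper28_PB (CC)

variable {E : Type} [NormedAddCommGroup E] [InnerProductSpace ℝ E] [FiniteDimensional ℝ E]
  [MeasurableSpace E] [BorelSpace E]

/-- `sc` of the projection to the orthogonal complement of a unit vector as a difference. -/
theorem sc_proj_eq (hlim : LimStmt) (hd : 1 < finrank ℝ E) {M : Set E} (hM : CC M) {w : E}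
    (hw : ‖w‖ = 1) {j : ℕ} (hj : j + 1 ≤ finrank ℝ E) :
    sc ((ℝ ∙ w)ᗮ.orthogonalProjectionOnto '' M) j =
      sc (M + segment ℝ (0 : E) w) j - sc M j := by
  have h := sc_add_segment hlim hd hM hw (zero_le_one) hj
  rw [one_smul, one_mul] at h
  linarith

theorem sc_proj_iso (hlim : LimStmt) (hd : 1 < finrank ℝ E) {M : Set E} (hM : CC M)
    (ρ : E ≃ₗᵢ[ℝ] E) {w' w : E} (hw' : ‖w'‖ = 1) (hρ : ρ w' = w) {j : ℕ}
    (hj : j + 1 ≤ finrank ℝ E) :
    sc ((ℝ ∙ w)ᗮ.orthogonalProjectionOnto '' (ρ '' M)) j =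
      sc ((ℝ ∙ w')ᗮ.orthogonalProjectionOnto '' M) j := by
  have hw : ‖w‖ = 1 := by rw [← hρ, ρ.norm_map, hw']
  have hM' : CC (ρ '' M) := hM.image ρ.toContinuousLinearEquiv.toContinuousLinearMap
  rw [sc_proj_eq hlim hd hM' hw hj, sc_proj_eq hlim hd hM hw' hj, sc_iso, ← hρ,
    ← PB.H15.image_add_segment, sc_iso]

omit [FiniteDimensional ℝ E] [MeasurableSpace E] [BorelSpace E] in
theorem segment_neg_eq_translate (a : E) :
    segment ℝ (-a) a = (fun y => -a + y) '' segment ℝ (0 : E) ((2 : ℝ) • a) := by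
  rw [segment_translate_image ℝ (-a) 0 ((2 : ℝ) • a)]
  congr 1
  · simp
  · rw [two_smul]; simp

omit [FiniteDimensional ℝ E] [MeasurableSpace E] [BorelSpace E] in
theorem CC_add_seg {M : Set E} (hM : CC M) (a b : E) : CC (M + segment ℝ a b) :=
  ⟨hM.cpt.add (isCompact_segment _ _), hM.cvx.add (convex_segment _ _),
    hM.ne.add ⟨a, left_mem_segment _ _ _⟩⟩

/-- (F3) for symmetric segments. -/
theorem sc_add_segment_symm (hlim : LimStmt) (hd : 1 < finrank ℝ E) {M : Set E} (hM : CC M)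
    {e : E} (he : ‖e‖ = 1) {a : ℝ} (ha : 0 ≤ a) {j : ℕ} (hj : j + 1 ≤ finrank ℝ E) :
    sc (M + segment ℝ (-(a • e)) (a • e)) j = sc M j +
      2 * a * sc ((ℝ ∙ e)ᗮ.orthogonalProjectionOnto '' M) j := by
  rw [segment_neg_eq_translate, add_translate, sc_translate, smul_smul,
    sc_add_segment hlim hd hM he (by positivity) hj]

/-- positivity of the coefficients -/
theorem sc_pos (hlim : LimStmt) (mono : VDMonoStmt) (hd : 0 < finrank ℝ E) {M : Set E}
    (hM : CC M) {r : ℝ} (hr : 0 < r) (hb : Metric.closedBall (0 : E) r ⊆ M) {j : ℕ}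
    (hj : j ≤ finrank ℝ E) : 0 < sc M j := by
  set d := finrank ℝ E with hdd
  set κ := (volume (Metric.closedBall (0 : E) 1)).toReal with hκ
  have hκpos : 0 < κ := ENNReal.toReal_pos (Metric.measure_closedBall_pos _ _ one_pos).ne'
    (isCompact_closedBall _ _).measure_lt_top.ne
  have hB : CC (Metric.closedBall (0 : E) r) :=
    ⟨isCompact_closedBall _ _, convex_closedBall _ _, ⟨0, Metric.mem_closedBall_self hr.le⟩⟩
  have h : IsSteiner (Metric.closedBall (0 : E) r)
      (fun j => κ * (r ^ (d - j) * (d.choose j : ℝ))) := by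
    intro s hs
    have h1 : (0 : ℝ) ≤ s + r := by positivity
    rw [closedBall_add_closedBall hr.le hs, add_zero, Measure.addHaar_closedBall' _ _ (by positivity),
      ENNReal.toReal_mul, ENNReal.toReal_ofReal (by positivity), add_comm r s, add_pow,
      ← hκ, mul_comm, Finset.mul_sum]
    refine Finset.sum_congr rfl ?_
    intro k _
    ring
  have h1 := sc_mono hlim mono hd hB hM hj hb
  rw [sc_eq h hj] at h1
  refine lt_of_lt_of_le ?_ h1
  have h2 : 0 < d.choose j := Nat.choose_pos hj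
  have h3 : (0 : ℝ) < (d.choose j : ℝ) := by exact_mod_cast h2
  positivity

/-- The assumptions on a centred solution. -/
structure Centred (m : ℕ) (K : Set E) (c : ℝ) : Prop where
  cc : CC K
  zero_mem : (0 : E) ∈ interior K
  pos : 0 < c
  even : ∀ w : E, supportFn K (-w) = supportFn K w
  eq : ∀ w : E, ‖w‖ = 1 → c * supportFn K w = sc ((ℝ ∙ w)ᗮ.orthogonalProjectionOnto '' K) m

theorem MidGood.centred (hlim : LimStmt) (mono : VDMonoStmt) {i : ℕ} (hi : 1 ≤ i)
    (hi2 : i + 2 ≤ finrank ℝ E) {K : Set E} {c : ℝ} (hG : MidGood i K c) :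
    Centred (finrank ℝ E - 1 - i) K c := by
  have hK : CC K := ⟨hG.compact, hG.convex, ⟨0, interior_subset hG.zero_mem⟩⟩
  set m := finrank ℝ E - 1 - i with hm
  have heq : ∀ w : E, ‖w‖ = 1 → c * supportFn K w =
      sc ((ℝ ∙ w)ᗮ.orthogonalProjectionOnto '' K) m := by
    intro w hw
    obtain ⟨q, hq, hq'⟩ := hG.coeff w
    have hM' : CC ((ℝ ∙ w)ᗮ.orthogonalProjectionOnto '' K) := hK.image _
    have hrank := Helper28_PB.finrank_perp hw
    have hs := sc_spec hlim (by omega) hM'
    rw [← hq']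
    refine coeff_unique (n := finrank ℝ E) (q := q)
      (q' := sc ((ℝ ∙ w)ᗮ.orthogonalProjectionOnto '' K)) ?_ (by omega)
    intro r hr
    rw [← hq r hr, ← hrank, ← hs r hr]
    have h1 := segVol_eq (isCompact_add_ball hK.cpt r) (convex_add_ball hK.cvx r) hw
      (zero_le_one)
    rw [one_smul, one_mul, shadowVol, proj_add_ball] at h1
    exact h1
  obtain ⟨ρ, hρ, hb⟩ := exists_ball_zero hG.zero_mem
  have hsupp : ∀ w : E, ‖w‖ = 1 → 0 < supportFn K w := by
    intro w hw
    have := le_supportFn_of_ball hK.cpt hρ.le hb w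
    rw [hw, mul_one] at this
    linarith
  have hscpos : ∀ w : E, ‖w‖ = 1 → 0 < sc ((ℝ ∙ w)ᗮ.orthogonalProjectionOnto '' K) m := by
    intro w hw
    have hM' : CC ((ℝ ∙ w)ᗮ.orthogonalProjectionOnto '' K) := hK.image _
    have hrank := Helper28_PB.finrank_perp hw
    refine sc_pos hlim mono (by omega) hM' hρ ?_ (by omega)
    rw [← proj_closedBall]
    exact image_mono hb
  have hnt : Nontrivial E := Module.nontrivial_of_finrank_pos (R := ℝ) (by omega)
  obtain ⟨w₀, hw₀⟩ := exists_norm_eq E zero_le_one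
  have hc : 0 < c := by
    have h1 := heq w₀ hw₀
    have h2 := hscpos w₀ hw₀
    have h3 := hsupp w₀ hw₀
    rw [← h1] at h2
    exact (mul_pos_iff_of_pos_right h3).mp h2
  refine ⟨hK, hG.zero_mem, hc, ?_, heq⟩
  intro w
  obtain ⟨q, hq, hq'⟩ := hG.coeff w
  obtain ⟨p, hp, hp'⟩ := hG.coeff (-w)
  have h1 : q m = p m := by
    refine coeff_unique (n := finrank ℝ E) ?_ (by omega)
    intro r hr
    rw [← hq r hr, ← hp r hr, segVol_neg]
  rw [hq', hp'] at h1
  exact (mul_left_cancel₀ hc.ne' h1).symm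

section

variable {m i : ℕ} {K : Set E} {c : ℝ}

omit [MeasurableSpace E] [BorelSpace E] in
theorem closedBall_subset_of_min (hK : CC K) {r : ℝ}
    (hmin : ∀ w : E, ‖w‖ = 1 → r ≤ supportFn K w) : Metric.closedBall (0 : E) r ⊆ K := by
  refine closedBall_subset_of_support hK.cpt hK.cvx hK.ne ?_
  intro u
  by_cases hu : u = 0
  · subst hu
    rw [norm_zero, mul_zero, supportFn_zero hK.cpt hK.ne]
  · obtain ⟨e, he, hue⟩ := exists_unit u hu
    have h1 := hmin e he
    have h2 : supportFn K u = ‖u‖ * supportFn K e := by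
      conv_lhs => rw [hue]
      exact supportFn_smul hK.cpt hK.ne (norm_nonneg u) e
    rw [h2, mul_comm]
    exact mul_le_mul_of_nonneg_left h1 (norm_nonneg u)

omit [FiniteDimensional ℝ E] [MeasurableSpace E] [BorelSpace E] in
theorem subset_closedBall_of_max (hK : CC K) {r : ℝ} (hr : 0 ≤ r)
    (hmax : ∀ w : E, ‖w‖ = 1 → supportFn K w ≤ r) : K ⊆ Metric.closedBall (0 : E) r := by
  refine subset_closedBall_of_support hK.cpt hr ?_
  intro u
  by_cases hu : u = 0
  · subst hu
    rw [norm_zero, mul_zero, supportFn_zero hK.cpt hK.ne]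
  · obtain ⟨e, he, hue⟩ := exists_unit u hu
    have h1 := hmax e he
    have h2 : supportFn K u = ‖u‖ * supportFn K e := by
      conv_lhs => rw [hue]
      exact supportFn_smul hK.cpt hK.ne (norm_nonneg u) e
    rw [h2, mul_comm r]
    exact mul_le_mul_of_nonneg_left h1 (norm_nonneg u)

/-- Step A for the projections. -/
theorem Centred.stepA (hlim : LimStmt) (nonneg : VDNonnegStmt) (mono : VDMonoStmt)
    (hK : CC K) (hn : 2 ≤ finrank ℝ E) (hi1 : 1 ≤ i) (him : m + i + 1 = finrank ℝ E) {r : ℝ}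
    (hr : 0 < r) (hb : Metric.closedBall (0 : E) r ⊆ K) {w : E} (hw : ‖w‖ = 1) :
    (m + 1) * sc ((ℝ ∙ w)ᗮ.orthogonalProjectionOnto '' K) (m + 1) ≤
      i / r * sc ((ℝ ∙ w)ᗮ.orthogonalProjectionOnto '' K) m := by
  have hM' : CC ((ℝ ∙ w)ᗮ.orthogonalProjectionOnto '' K) := hK.image _
  have hrank := Helper28_PB.finrank_perp hw
  have h := sc_succ_le hlim nonneg mono (by omega) hM' hr (by
    rw [← proj_closedBall]
    exact image_mono hb) (j := m) (by omega)
  have h1 : finrank ℝ ((ℝ ∙ w)ᗮ : Submodule ℝ E) - m = i := by omega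
  rwa [h1] at h

/-- Step B. -/
theorem Centred.stepB (hlim : LimStmt) (nonneg : VDNonnegStmt) (mono : VDMonoStmt)
    (flatS : VDFlatStmt) (di : DIStmt) (hG : Centred m K c) (hn : 2 ≤ finrank ℝ E)
    (hi1 : 1 ≤ i) (him : m + i + 1 = finrank ℝ E) {u w₀ : E} (hu : ‖u‖ = 1) (hw₀ : ‖w₀‖ = 1)
    (hmin : ∀ w : E, ‖w‖ = 1 → supportFn K w₀ ≤ supportFn K w) {χ : ℝ}
    (hχ : χ = (m + 1) * (ballVol (m + 1) / ballVol m)) :
    supportFn K u ≤ (1 + 2 * (i / χ)) * supportFn K w₀ := by
  have hK := hG.cc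
  set r := supportFn K w₀ with hrdef
  obtain ⟨ρ, hρ, hρb⟩ := exists_ball_zero hG.zero_mem
  have hr : 0 < r := by
    have := le_supportFn_of_ball hK.cpt hρ.le hρb w₀
    rw [hw₀, mul_one] at this
    linarith
  have hb : Metric.closedBall (0 : E) r ⊆ K := closedBall_subset_of_min hK hmin
  set lam := ballVol (m + 1) / ballVol m with hlam
  have hlampos : 0 < lam := div_pos (ballVol_pos _) (ballVol_pos _)
  have hm1 : (0 : ℝ) < m + 1 := by positivity
  set g : E → ℝ := fun w => sc ((ℝ ∙ w)ᗮ.orthogonalProjectionOnto '' K) m with hg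
  have hA := Centred.stepA hlim nonneg mono hK hn hi1 him hr hb hw₀
  -- the chain
  have hsub : K ⊆ flat w₀ K + segment ℝ (-(r • w₀)) (r • w₀) := by
    intro x hx
    refine ⟨x - ⟪x, w₀⟫ • w₀, ⟨x, hx, rfl⟩, ⟪x, w₀⟫ • w₀, ?_, by simp⟩
    have h1 : ⟪x, w₀⟫ ≤ r := inner_le_supportFn hK.cpt hx w₀
    have h2 : -⟪x, w₀⟫ ≤ r := by
      rw [← inner_neg_right, hrdef, ← hG.even w₀]
      exact inner_le_supportFn hK.cpt hx (-w₀)
    rw [segment_eq_image]
    refine ⟨(⟪x, w₀⟫ + r) / (2 * r), ⟨by apply div_nonneg <;> linarith, by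
      rw [div_le_one (by positivity)]; linarith⟩, ?_⟩
    simp only [smul_smul, ← neg_smul, ← add_smul]
    congr 1
    field_simp
    ring
  have hF : CC (flat w₀ K) := CC_flat hK w₀
  have hFs : CC (flat w₀ K + segment ℝ (-(r • w₀)) (r • w₀)) := CC_add_seg hF _ _
  have h1 := sc_flat hlim di (by omega) hK hu (j := m) (by omega)
  have h2 := sc_flat_le hlim flatS (by omega) hK hu (CC_flat hK u) (j := m + 1) (by omega)
  have h3 := sc_mono hlim mono (by omega) hK hFs (j := m + 1) (by omega) hsub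
  have h4 := sc_add_segment_symm hlim (by omega) hF hw₀ hr.le (j := m + 1) (by omega)
  have h5 := sc_flat hlim di (by omega) hK hw₀ (j := m) (by omega)
  have h6 : (ℝ ∙ w₀)ᗮ.orthogonalProjectionOnto '' (flat w₀ K) =
      (ℝ ∙ w₀)ᗮ.orthogonalProjectionOnto '' K := by
    rw [flat, image_image]
    refine Set.image_congr fun x _ => ?_
    rw [map_sub, map_smul, Submodule.orthogonalProjectionOnto_orthogonal_apply_eq_zero
      (Submodule.mem_span_singleton_self w₀), smul_zero, sub_zero]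
  rw [h6] at h4
  rw [← hlam] at h1 h5
  have h7 : lam * g u ≤ lam * g w₀ + 2 * r * sc ((ℝ ∙ w₀)ᗮ.orthogonalProjectionOnto '' K) (m + 1) := by
    rw [hg]
    simp only
    linarith
  have h8 : sc ((ℝ ∙ w₀)ᗮ.orthogonalProjectionOnto '' K) (m + 1) ≤ i / (r * (m + 1)) * g w₀ := by
    have h9 : (m + 1) * sc ((ℝ ∙ w₀)ᗮ.orthogonalProjectionOnto '' K) (m + 1) ≤
        (m + 1) * (i / (r * (m + 1)) * g w₀) := by
      have h10 : (m + 1) * (i / (r * (m + 1)) * g w₀) = i / r * g w₀ := by
        field_simp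
      rw [h10]
      exact hA
    exact le_of_mul_le_mul_left h9 hm1
  have hgu : c * supportFn K u = g u := hG.eq u hu
  have hgw : c * r = g w₀ := hG.eq w₀ hw₀
  have h9 : lam * g u ≤ lam * ((1 + 2 * (i / χ)) * g w₀) := by
    have h10 : lam * ((1 + 2 * (i / χ)) * g w₀) =
        lam * g w₀ + 2 * r * (i / (r * (m + 1)) * g w₀) := by
      rw [hχ]
      field_simp
    rw [h10]
    have h11 : 2 * r * sc ((ℝ ∙ w₀)ᗮ.orthogonalProjectionOnto '' K) (m + 1) ≤
        2 * r * (i / (r * (m + 1)) * g w₀) := mul_le_mul_of_nonneg_left h8 (by positivity)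
    linarith
  have h10 := le_of_mul_le_mul_left h9 hlampos
  rw [← hgu, ← hgw] at h10
  have h11 : c * supportFn K u ≤ c * ((1 + 2 * (i / χ)) * r) := by
    refine h10.trans (le_of_eq ?_)
    ring
  exact le_of_mul_le_mul_left h11 hG.pos

/-- Steps C and D: improvement of the Lipschitz constant. -/
theorem Centred.stepCD (hlim : LimStmt) (nonneg : VDNonnegStmt) (mono : VDMonoStmt)
    (flatS : VDFlatStmt) (di : DIStmt) (rot : RotStmt) (hG : Centred m K c)
    (hn : 3 ≤ finrank ℝ E)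
    (hi1 : 1 ≤ i) (him : m + i + 1 = finrank ℝ E) {r R : ℝ} (hr : 0 < r)
    (hmin : ∀ w : E, ‖w‖ = 1 → r ≤ supportFn K w)
    (hmax : ∀ w : E, ‖w‖ = 1 → supportFn K w ≤ R) {χ : ℝ}
    (hχ : χ = (m + 1) * (ballVol (m + 1) / ballVol m)) {L : ℝ} (hL0 : 0 ≤ L)
    (hL : ∀ u v : E, ‖u‖ = 1 → ‖v‖ = 1 → |supportFn K u - supportFn K v| ≤ L * ‖u - v‖) :
    ∀ u v : E, ‖u‖ = 1 → ‖v‖ = 1 →
      |supportFn K u - supportFn K v| ≤ (2 * (i / χ) * (R / r) * L) * ‖u - v‖ := by
  have hK := hG.cc
  have hb : Metric.closedBall (0 : E) r ⊆ K := closedBall_subset_of_min hK hmin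
  set lam := ballVol (m + 1) / ballVol m with hlam
  have hlampos : 0 < lam := div_pos (ballVol_pos _) (ballVol_pos _)
  have hm1 : (0 : ℝ) < m + 1 := by positivity
  have hχpos : 0 < χ := by rw [hχ]; positivity
  have hnt : Nontrivial E := Module.nontrivial_of_finrank_pos (R := ℝ) (by omega)
  have hRr : r ≤ R := by
    obtain ⟨e, he⟩ := exists_norm_eq E zero_le_one
    exact (hmin e he).trans (hmax e he)
  have hR : 0 < R := lt_of_lt_of_le hr hRr
  -- one-sided estimate
  have key : ∀ w w' : E, ‖w‖ = 1 → ‖w'‖ = 1 →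
      supportFn K w' - supportFn K w ≤ (2 * (i / χ) * (R / r) * L) * ‖w - w'‖ := by
    intro w w' hw hw'
    have hnn : 0 ≤ (2 * (i / χ) * (R / r) * L) * ‖w - w'‖ := by positivity
    by_cases h1 : w = w'
    · subst h1
      rw [sub_self]
      exact hnn
    by_cases h2 : w = -w'
    · rw [h2, hG.even, sub_self]
      rw [h2] at hnn
      exact hnn
    obtain ⟨ρ, e, hρ, he, hwe, hsub⟩ := rot K hK L hL w w' hw hw' h1 h2
    set a := L * ‖w - w'‖ with ha
    have ha0 : 0 ≤ a := by positivity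
    set P := (ℝ ∙ w)ᗮ.orthogonalProjectionOnto with hP
    set M := P '' K with hM
    have hMcc : CC M := hK.image _
    have hρK : CC (ρ '' K) := hK.image ρ.toContinuousLinearEquiv.toContinuousLinearMap
    have hPρ : CC (P '' (ρ '' K)) := hρK.image _
    have hrank := Helper28_PB.finrank_perp hw
    -- the unit vector in w^⊥
    have hPe : ((P e : ((ℝ ∙ w)ᗮ : Submodule ℝ E)) : E) = e := by
      have hmem : e ∈ ((ℝ ∙ w)ᗮ : Submodule ℝ E) :=
        Submodule.mem_orthogonal_singleton_iff_inner_right.mpr hwe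
      have := Submodule.orthogonalProjectionOnto_mem_subspace_eq_self
        (⟨e, hmem⟩ : ((ℝ ∙ w)ᗮ : Submodule ℝ E))
      rw [hP]
      exact congrArg Subtype.val this
    have hPen : ‖P e‖ = 1 := by
      have h0 : ‖P e‖ = ‖((P e : ((ℝ ∙ w)ᗮ : Submodule ℝ E)) : E)‖ := rfl
      rw [h0, hPe, he]
    have h3 : P '' (K + segment ℝ (-(a • e)) (a • e)) =
        M + segment ℝ (-(a • P e)) (a • P e) := by
      rw [Set.image_add]
      congr 1
      have := image_segment ℝ ((P : E →L[ℝ] ((ℝ ∙ w)ᗮ : Submodule ℝ E)).toLinearMap.toAffineMap)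
        (-(a • e)) (a • e)
      simpa using this
    rw [h3] at hsub
    have h4 := sc_mono hlim mono (by omega) hPρ (CC_add_seg hMcc _ _) (j := m) (by omega) hsub
    rw [sc_proj_iso hlim (by omega) hK ρ hw' hρ (by omega),
      sc_add_segment_symm hlim (by omega) hMcc hPen ha0 (by omega)] at h4
    have h5 := sc_flat hlim di (by omega) hMcc hPen (j := m) (by omega)
    have h6 := sc_flat_le hlim flatS (by omega) hMcc hPen (CC_flat hMcc _) (j := m + 1) (by omega)
    rw [← hlam] at h5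
    have hA := Centred.stepA hlim nonneg mono hK (by omega) hi1 him hr hb hw
    rw [← hP, ← hM] at hA
    set S := sc ((ℝ ∙ (P e))ᗮ.orthogonalProjectionOnto '' M) m with hS
    have hgw : c * supportFn K w = sc M m := hG.eq w hw
    have hgw' : c * supportFn K w' = sc ((ℝ ∙ w')ᗮ.orthogonalProjectionOnto '' K) m :=
      hG.eq w' hw'
    have h7 : lam * S ≤ sc M (m + 1) := by rw [← h5]; exact h6
    have h8 : χ * S ≤ i / r * sc M m := by
      have h9 : (m + 1) * (lam * S) ≤ (m + 1) * sc M (m + 1) :=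
        mul_le_mul_of_nonneg_left h7 hm1.le
      have h10 : χ * S = (m + 1) * (lam * S) := by rw [hχ]; ring
      rw [h10]
      exact h9.trans hA
    have hcw : c * supportFn K w ≤ c * R := mul_le_mul_of_nonneg_left (hmax w hw) hG.pos.le
    have h9 : S ≤ i / χ * (R / r) * c := by
      have h10 : χ * S ≤ χ * (i / χ * (R / r) * c) := by
        have h11 : χ * (i / χ * (R / r) * c) = i / r * (c * R) := by
          field_simp
        rw [h11]
        refine h8.trans ?_
        rw [← hgw]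
        exact mul_le_mul_of_nonneg_left hcw (by positivity)
      exact le_of_mul_le_mul_left h10 hχpos
    rw [← hgw', ← hgw] at h4
    have h10 : c * (supportFn K w' - supportFn K w) ≤
        c * ((2 * (i / χ) * (R / r) * L) * ‖w - w'‖) := by
      have h11 : 2 * a * S ≤ 2 * a * (i / χ * (R / r) * c) :=
        mul_le_mul_of_nonneg_left h9 (by positivity)
      have h12 : 2 * a * (i / χ * (R / r) * c) =
          c * ((2 * (i / χ) * (R / r) * L) * ‖w - w'‖) := by
        rw [ha]; ring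
      rw [← h12]
      linarith
    exact le_of_mul_le_mul_left h10 hG.pos
  intro u v hu hv
  rw [abs_le]
  constructor
  · have := key u v hu hv
    linarith
  · have := key v u hv hu
    rw [norm_sub_rev] at this
    exact this

end

end Pool.Agent.Helper55_PB
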