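import Pool.Agent.Helper55_PB.Fwd

open MeasureTheory Module Set
open scoped RealInnerProductSpace Pointwise Topology

namespace Pool.Agent.Helper55_PB

variable {E : Type} [NormedAddCommGroup E] [InnerProductSpace ℝ E] [FiniteDimensional ℝ E]

/-- The vector is the sum of its projections. -/
theorem sum_proj {m : ℕ} (V : Fin m → Submodule ℝ E)
    (horth : ∀ i j, i ≠ j → ∀ x ∈ V i, ∀ y ∈ V j, ⟪x, y⟫ = 0) (htop : ⨆ i, V i = ⊤) (x : E) :
    ∑ i, ((V i).orthogonalProjectionOnto x : E) = x := by
  have h1 : x - ∑ i, ((V i).orthogonalProjectionOnto x : E) ∈ (⨆ i, V i)ᗮ := by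
    rw [← Submodule.iInf_orthogonal, Submodule.mem_iInf]
    intro j
    rw [Submodule.mem_orthogonal']
    intro v hv
    rw [inner_sub_left, sum_inner, Finset.sum_eq_single j]
    · rw [inner_proj_of_mem (V j) x hv, sub_self]
    · intro i _ hij
      exact horth i j hij _ ((V i).orthogonalProjectionOnto x).2 v hv
    · intro h; exact absurd (Finset.mem_univ j) h
  rw [htop, Submodule.top_orthogonal_eq_bot, Submodule.mem_bot, sub_eq_zero] at h1
  exact h1.symm

theorem proj_of_mem_other {m : ℕ} {V : Fin m → Submodule ℝ E}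
    (horth : ∀ i j, i ≠ j → ∀ x ∈ V i, ∀ y ∈ V j, ⟪x, y⟫ = 0) {i j : Fin m} (hij : i ≠ j)
    {x : E} (hx : x ∈ V i) : (V j).orthogonalProjectionOnto x = 0 := by
  refine Submodule.orthogonalProjectionOnto_apply_of_mem_orthogonal ?_
  rw [Submodule.mem_orthogonal]
  intro u hu
  exact horth j i hij.symm u hu x hx

theorem proj_add_of_mem_orth (V : Submodule ℝ E) (x : E) :
    V.orthogonalProjectionOnto ((Vᗮ.orthogonalProjectionOnto x : E)) = 0 :=
  Submodule.orthogonalProjectionOnto_apply_of_mem_orthogonal (Vᗮ.orthogonalProjectionOnto x).2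

variable [MeasurableSpace E] [BorelSpace E]

section Sum

variable {m : ℕ} {V : Fin m → Submodule ℝ E} {A : ∀ i, Set (V i)}

omit [MeasurableSpace E] [BorelSpace E] in
theorem mem_orthSum_zero {x : E} :
    x ∈ orthSum V A 0 ↔ ∀ i, (V i).orthogonalProjectionOnto x ∈ A i := by
  simp [orthSum]

omit [MeasurableSpace E] [BorelSpace E] in
theorem piece_orthSum (horth : ∀ i j, i ≠ j → ∀ x ∈ V i, ∀ y ∈ V j, ⟪x, y⟫ = 0)
    (h0 : ∀ i, (0 : V i) ∈ A i) (i : Fin m) : piece (orthSum V A 0) (V i) = A i := by
  ext y
  show (y : E) ∈ orthSum V A 0 ↔ y ∈ A i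
  rw [mem_orthSum_zero]
  constructor
  · intro h
    have := h i
    rwa [Submodule.orthogonalProjectionOnto_mem_subspace_eq_self] at this
  · intro h j
    by_cases hij : i = j
    · subst hij
      rwa [Submodule.orthogonalProjectionOnto_mem_subspace_eq_self]
    · rw [proj_of_mem_other horth hij y.2]
      exact h0 j

omit [MeasurableSpace E] [BorelSpace E] in
theorem orthSum_eq_orthProd (horth : ∀ i j, i ≠ j → ∀ x ∈ V i, ∀ y ∈ V j, ⟪x, y⟫ = 0)
    (h0 : ∀ i, (0 : V i) ∈ A i) (i : Fin m) :
    orthSum V A 0 = orthProd (V i) (A i) (piece (orthSum V A 0) (V i)ᗮ) := by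
  ext x
  have hdec : x = ((V i).orthogonalProjectionOnto x : E) +
      ((V i)ᗮ.orthogonalProjectionOnto x : E) := (Helper28_PB.pr_add (V i) x).symm
  have hproj : ∀ j, i ≠ j → (V j).orthogonalProjectionOnto
      ((V i)ᗮ.orthogonalProjectionOnto x : E) = (V j).orthogonalProjectionOnto x := by
    intro j hij
    conv_rhs => rw [hdec, map_add, proj_of_mem_other horth hij
      ((V i).orthogonalProjectionOnto x).2, zero_add]
  constructor
  · intro hx
    rw [mem_orthSum_zero] at hx
    refine ⟨hx i, ?_⟩
    show (((V i)ᗮ.orthogonalProjectionOnto x : (V i)ᗮ) : E) ∈ orthSum V A 0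
    rw [mem_orthSum_zero]
    intro j
    by_cases hij : i = j
    · subst hij
      rw [proj_add_of_mem_orth]
      exact h0 i
    · rw [hproj j hij]
      exact hx j
  · rintro ⟨h1, h2⟩
    have h2' : (((V i)ᗮ.orthogonalProjectionOnto x : (V i)ᗮ) : E) ∈ orthSum V A 0 := h2
    rw [mem_orthSum_zero] at h2' ⊢
    intro j
    by_cases hij : i = j
    · subst hij
      exact h1
    · rw [← hproj j hij]
      exact h2' j

/-- The orthogonal direct sum of centred solutions with matching constants is a centred
solution. -/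
theorem good_orthSum (horth : ∀ i j, i ≠ j → ∀ x ∈ V i, ∀ y ∈ V j, ⟪x, y⟫ = 0)
    (htop : ⨆ i, V i = ⊤) {τ : ℝ} (hτ : 0 < τ)
    (hA : ∀ i, Good (A i) ((volume (A i)).toReal / τ)) :
    Good (orthSum V A 0) ((volume (orthSum V A 0)).toReal / τ) := by
  have h0 : ∀ i, (0 : V i) ∈ A i := fun i => interior_subset (hA i).zero_mem
  set K := orthSum V A 0 with hK
  have hsum := sum_proj V horth htop
  have hclosed : IsClosed K := by
    have : K = ⋂ i, (fun x : E => (V i).orthogonalProjectionOnto x) ⁻¹' (A i) := by
      ext x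
      rw [hK, mem_orthSum_zero]
      simp
    rw [this]
    refine isClosed_iInter ?_
    intro i
    exact (hA i).compact.isClosed.preimage (ContinuousLinearMap.continuous _)
  have hcomp : IsCompact K := by
    refine Metric.isCompact_of_isClosed_isBounded hclosed ?_
    choose R hR using fun i => (hA i).compact.isBounded.exists_norm_le
    refine (Metric.isBounded_closedBall (x := (0 : E)) (r := ∑ i, R i)).subset ?_
    intro x hx
    rw [Metric.mem_closedBall, dist_zero_right]
    rw [hK, mem_orthSum_zero] at hx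
    calc ‖x‖ = ‖∑ i, ((V i).orthogonalProjectionOnto x : E)‖ := by rw [hsum x]
      _ ≤ ∑ i, ‖((V i).orthogonalProjectionOnto x : E)‖ := norm_sum_le _ _
      _ ≤ ∑ i, R i := Finset.sum_le_sum (fun i _ => hR i _ (hx i))
  have hconv : Convex ℝ K := by
    intro x hx y hy a b ha hb hab
    rw [hK, mem_orthSum_zero] at *
    intro i
    rw [map_add, map_smul, map_smul]
    exact (hA i).convex (hx i) (hy i) ha hb hab
  have hint : (0 : E) ∈ interior K := by
    rw [mem_interior_iff_mem_nhds]
    have : K = ⋂ i, (fun x : E => (V i).orthogonalProjectionOnto x) ⁻¹' (A i) := by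
      ext x
      rw [hK, mem_orthSum_zero]
      simp
    rw [this, Filter.iInter_mem]
    intro i
    have hcont : ContinuousAt (fun x : E => (V i).orthogonalProjectionOnto x) 0 :=
      (ContinuousLinearMap.continuous _).continuousAt
    refine hcont.preimage_mem_nhds ?_
    rw [map_zero]
    exact mem_interior_iff_mem_nhds.mp (hA i).zero_mem
  have hsymm : ∀ x ∈ K, -x ∈ K := by
    intro x hx
    rw [hK, mem_orthSum_zero] at *
    intro i
    rw [map_neg]
    exact (hA i).symm _ (hx i)
  have hvK := volume_pos_of_zero_mem hcomp hint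
  have hne : K.Nonempty := ⟨0, interior_subset hint⟩
  -- support function
  have hsupp : ∀ w : E, supportFn K w =
      ∑ i, supportFn (A i) ((V i).orthogonalProjectionOnto w) := by
    intro w
    have hinner : ∀ x : E, ⟪x, w⟫ = ∑ i, ⟪(V i).orthogonalProjectionOnto x,
        (V i).orthogonalProjectionOnto w⟫ := by
      intro x
      conv_lhs => rw [← hsum x, sum_inner]
      refine Finset.sum_congr rfl ?_
      intro i _
      rw [Submodule.coe_inner, real_inner_comm, real_inner_comm
        ((V i).orthogonalProjectionOnto w : E)]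
      exact (inner_proj_of_mem (V i) w ((V i).orthogonalProjectionOnto x).2).symm
    choose x hxA hx using fun i => exists_supportFn (hA i).compact ⟨0, h0 i⟩
      ((V i).orthogonalProjectionOnto w)
    set z : E := ∑ i, (x i : E) with hz
    have hpz : ∀ j, (V j).orthogonalProjectionOnto z = x j := by
      intro j
      rw [hz, map_sum, Finset.sum_eq_single j]
      · exact Submodule.orthogonalProjectionOnto_mem_subspace_eq_self _
      · intro i _ hij
        exact proj_of_mem_other horth hij (x i).2
      · intro h; exact absurd (Finset.mem_univ j) h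
    have hzK : z ∈ K := by
      rw [hK, mem_orthSum_zero]
      intro i
      rw [hpz i]
      exact hxA i
    refine le_antisymm ?_ ?_
    · refine supportFn_le hne ?_
      intro y hy
      rw [hK, mem_orthSum_zero] at hy
      rw [hinner y]
      exact Finset.sum_le_sum (fun i _ => inner_le_supportFn (hA i).compact (hy i) _)
    · have h1 := inner_le_supportFn hcomp hzK w
      rw [hinner z] at h1
      calc _ = ∑ i, ⟪(V i).orthogonalProjectionOnto z, (V i).orthogonalProjectionOnto w⟫ := by
            refine Finset.sum_congr rfl ?_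
            intro i _
            rw [hpz i, hx i]
        _ ≤ _ := h1
  -- additivity of the volume function
  have hBc : ∀ i, IsCompact (piece K (V i)ᗮ) := fun i => isCompact_piece hcomp _
  have hBv : ∀ i, Convex ℝ (piece K (V i)ᗮ) := fun i => convex_piece hconv _
  have hBn : ∀ i, (piece K (V i)ᗮ).Nonempty := fun i =>
    ⟨0, interior_subset (zero_mem_interior_piece hint _)⟩
  have hprod : ∀ i, volume K = volume (A i) * volume (piece K (V i)ᗮ) ∧
      ∀ (a : V i) (b : (V i)ᗮ), segVol K ((a : E) + b) =
        segVol (A i) a * (volume (piece K (V i)ᗮ)).toReal +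
        (volume (A i)).toReal * segVol (piece K (V i)ᗮ) b := by
    intro i
    have h1 := orthSum_eq_orthProd horth h0 i
    have h2 := prodStmt (V i) (A i) (piece K (V i)ᗮ) (hA i).compact (hA i).convex ⟨0, h0 i⟩
      (hBc i) (hBv i) (hBn i)
    rw [← h1] at h2
    exact h2
  have hadd : ∀ (i : Fin m) (a b : E), a ∈ V i → b ∈ (V i)ᗮ →
      segVol K (a + b) = segVol K a + segVol K b := by
    intro i a b ha hb
    have h1 := (hprod i).2 ⟨a, ha⟩ ⟨b, hb⟩
    have h2 := (hprod i).2 ⟨a, ha⟩ 0
    have h3 := (hprod i).2 0 ⟨b, hb⟩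
    simp only [Submodule.coe_zero, add_zero, zero_add, segVol_zero, mul_zero, zero_mul] at h1 h2 h3
    rw [h1, h2, h3]
  have hsumseg : ∀ (w : E) (s : Finset (Fin m)),
      segVol K (∑ i ∈ s, ((V i).orthogonalProjectionOnto w : E)) =
      ∑ i ∈ s, segVol K ((V i).orthogonalProjectionOnto w : E) := by
    intro w s
    classical
    induction s using Finset.induction_on with
    | empty => simp [segVol_zero]
    | insert i s hi ih =>
      rw [Finset.sum_insert hi, Finset.sum_insert hi, hadd i _ _
        ((V i).orthogonalProjectionOnto w).2, ih]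
      rw [Submodule.mem_orthogonal]
      intro u hu
      rw [inner_sum]
      refine Finset.sum_eq_zero ?_
      intro j hj
      have hij : i ≠ j := by
        rintro rfl
        exact hi hj
      exact horth i j hij u hu _ ((V j).orthogonalProjectionOnto w).2
  refine ⟨hcomp, hconv, hint, hsymm, by positivity, ?_⟩
  intro w
  conv_lhs => rw [← hsum w, hsumseg w]
  rw [hsupp w, Finset.mul_sum]
  refine Finset.sum_congr rfl ?_
  intro i _
  have h2 := (hprod i).2 ((V i).orthogonalProjectionOnto w) 0
  simp only [Submodule.coe_zero, add_zero, segVol_zero, mul_zero] at h2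
  rw [h2, (hA i).eq, (hprod i).1, ENNReal.toReal_mul]
  ring

end Sum

theorem isSolution_of_good {K K' : Set E} {a : E} {c : ℝ} (h : K = (fun y => a + y) '' K')
    (hG : Good K' c) : IsSolution K := by
  have hne' : K'.Nonempty := ⟨0, interior_subset hG.zero_mem⟩
  have hKc : IsCompact K := by rw [h]; exact hG.compact.image (by fun_prop)
  have hKv : Convex ℝ K := by rw [h]; exact hG.convex.translate _
  have hKi : (interior K).Nonempty := by
    have h1 : K = (Homeomorph.addLeft a) '' K' := h
    rw [h1, ← Homeomorph.image_interior]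
    exact ⟨_, 0, hG.zero_mem, rfl⟩
  refine ⟨⟨hKc, hKv, hKi⟩, (fun y => c • y) '' K', ⟨?_, ?_, hne'.image _, ?_⟩, ?_⟩
  · exact hG.compact.image (by fun_prop)
  · exact hG.convex.smul c
  · intro u hu
    rw [supportFn_smul_set hG.compact hne' hG.pos.le, ← segVol_unit hKc hKv hu, h,
      segVol_translate, hG.eq]
  · refine ⟨-(c • a), c, hG.pos, ?_⟩
    rw [h, image_image]
    congr 1
    funext y
    module

theorem isSolution_of_decomposes (hline : LineStmt) (hplane : PlaneStmt) {K : Set E}
    (h : Decomposes K) : IsSolution K := by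
  obtain ⟨m, V, A, x₀, τ, hτ, _, horth, htop, hK, hA⟩ := h
  have hgood : ∀ i, Good (A i) ((volume (A i)).toReal / τ) := fun i =>
    good_of_isSummand hline hplane hτ (hA i).1 (hA i).2
  have hG := good_orthSum horth htop hτ hgood
  refine isSolution_of_good (a := x₀) ?_ hG
  rw [hK]
  ext x
  constructor
  · intro hx
    refine ⟨x - x₀, ?_, by simp⟩
    rw [mem_orthSum_zero]
    exact hx
  · rintro ⟨z, hz, rfl⟩ i
    rw [mem_orthSum_zero] at hz
    have : (fun y => x₀ + y) z - x₀ = z := by simp
    rw [this]
    exact hz i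

end Pool.Agent.Helper55_PB
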