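import Pool.Agent.Helper55_PB.Pole
import Pool.Agent.Helper15_PB.Lin

open MeasureTheory Module Set
open scoped RealInnerProductSpace Pointwise Topology

namespace Pool.Agent.Helper55_PB

variable {E : Type*} [NormedAddCommGroup E] [InnerProductSpace ℝ E]

/-! ### Translations -/

theorem supportFn_translate {K : Set E} (hK : IsCompact K) (hne : K.Nonempty) (a u : E) :
    supportFn ((fun y => a + y) '' K) u = ⟪a, u⟫ + supportFn K u := by
  obtain ⟨x, hx, h⟩ := exists_supportFn hK hne u
  have hc : IsCompact ((fun y => a + y) '' K) := hK.image (by fun_prop)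
  rw [supportFn_eq hc ⟨x, hx, rfl⟩, inner_add_left, h]
  rintro _ ⟨z, hz, rfl⟩
  rw [inner_add_left, inner_add_left, h]
  linarith [inner_le_supportFn hK hz u]

theorem supportFn_smul_set {K : Set E} (hK : IsCompact K) (hne : K.Nonempty) {r : ℝ} (hr : 0 ≤ r)
    (u : E) : supportFn ((fun y => r • y) '' K) u = r * supportFn K u := by
  obtain ⟨x, hx, h⟩ := exists_supportFn hK hne u
  have hc : IsCompact ((fun y : E => r • y) '' K) := hK.image (by fun_prop)
  rw [supportFn_eq hc ⟨x, hx, rfl⟩, real_inner_smul_left, h]
  rintro _ ⟨z, hz, rfl⟩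
  rw [real_inner_smul_left, real_inner_smul_left, h]
  exact mul_le_mul_of_nonneg_left (inner_le_supportFn hK hz u) hr

theorem segment_neg_eq (w : E) :
    segment ℝ (0 : E) (-w) = (fun y => -w + y) '' segment ℝ (0 : E) w := by
  rw [segment_eq_image, segment_eq_image, image_image]
  ext x
  simp only [mem_image]
  constructor
  · rintro ⟨θ, hθ, rfl⟩
    refine ⟨1 - θ, ⟨by linarith [hθ.2], by linarith [hθ.1]⟩, ?_⟩
    simp only [smul_zero, zero_add]
    module
  · rintro ⟨θ, hθ, rfl⟩
    refine ⟨1 - θ, ⟨by linarith [hθ.2], by linarith [hθ.1]⟩, ?_⟩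
    simp only [smul_zero, zero_add]
    module

theorem add_translate (K S : Set E) (a : E) :
    K + (fun y => a + y) '' S = (fun y => a + y) '' (K + S) := by
  ext x
  simp only [mem_add, mem_image]
  constructor
  · rintro ⟨k, hk, _, ⟨s, hs, rfl⟩, rfl⟩
    exact ⟨k + s, ⟨k, hk, s, hs, rfl⟩, by abel⟩
  · rintro ⟨_, ⟨k, hk, s, hs, rfl⟩, rfl⟩
    exact ⟨k, hk, a + s, ⟨s, hs, rfl⟩, by abel⟩

theorem translate_add (K S : Set E) (a : E) :
    (fun y => a + y) '' K + S = (fun y => a + y) '' (K + S) := by
  rw [add_comm, add_translate, add_comm]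

variable [FiniteDimensional ℝ E] [MeasurableSpace E] [BorelSpace E]

theorem volume_translate (K : Set E) (a : E) : volume ((fun y => a + y) '' K) = volume K := by
  have : (fun y => a + y) '' K = (fun y => (-a) + y) ⁻¹' K := by
    rw [image_eq_preimage_of_inverse]
    · intro x; simp
    · intro x; simp
  rw [this, measure_preimage_add]

theorem segVol_neg (K : Set E) (w : E) : segVol K (-w) = segVol K w := by
  rw [segVol, segVol, segment_neg_eq, add_translate, volume_translate]

theorem segVol_translate (K : Set E) (a w : E) :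
    segVol ((fun y => a + y) '' K) w = segVol K w := by
  rw [segVol, segVol, translate_add, volume_translate, volume_translate]

theorem segVol_unit {K : Set E} (hK : IsCompact K) (hc : Convex ℝ K) {u : E} (hu : ‖u‖ = 1) :
    segVol K u = shadowVol K u := by
  have := segVol_eq hK hc hu zero_le_one
  rwa [one_smul, one_mul] at this

/-- `segVol` is positive for convex bodies. -/
theorem segVol_pos {K : Set E} (hK : IsCompact K) (hc : Convex ℝ K) (hi : (interior K).Nonempty)
    {w : E} (hw : w ≠ 0) : 0 < segVol K w := by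
  obtain ⟨e, he, hwe⟩ := exists_unit w hw
  rw [hwe, segVol_eq hK hc he (norm_nonneg _)]
  have h1 : IsOpenMap ((ℝ ∙ e)ᗮ.orthogonalProjectionOnto) := by
    refine ContinuousLinearMap.isOpenMap _ ?_
    intro y
    exact ⟨(y : E), Submodule.orthogonalProjectionOnto_mem_subspace_eq_self y⟩
  have h2 : (interior ((ℝ ∙ e)ᗮ.orthogonalProjectionOnto '' K)).Nonempty := by
    refine (hi.image ((ℝ ∙ e)ᗮ.orthogonalProjectionOnto)).mono ?_
    exact interior_maximal (image_mono interior_subset) (h1 _ isOpen_interior)
  have h3 : 0 < volume ((ℝ ∙ e)ᗮ.orthogonalProjectionOnto '' K) :=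
    Measure.measure_pos_of_nonempty_interior _ h2
  have h4 : volume ((ℝ ∙ e)ᗮ.orthogonalProjectionOnto '' K) ≠ ⊤ :=
    (hK.image (ContinuousLinearMap.continuous _)).measure_lt_top.ne
  have h5 := ENNReal.toReal_pos h3.ne' h4
  have h6 := norm_pos_iff.mpr hw
  rw [shadowVol]
  positivity

omit [MeasurableSpace E] [BorelSpace E] in
/-- `0` is an interior point if the support function is positive. -/
theorem zero_mem_interior {K : Set E} (hK : IsCompact K) (hc : Convex ℝ K)
    (hi : (interior K).Nonempty) (hpos : ∀ w : E, w ≠ 0 → 0 < supportFn K w) :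
    (0 : E) ∈ interior K := by
  by_contra hcon
  obtain ⟨f, hf⟩ := geometric_hahn_banach_open_point hc.interior isOpen_interior hcon
  set w := (InnerProductSpace.toDual ℝ E).symm f with hw
  have hfw : ∀ a : E, f a = ⟪a, w⟫ := by
    intro a
    rw [real_inner_comm, hw, InnerProductSpace.toDual_symm_apply]
  have hw0 : w ≠ 0 := by
    intro h
    obtain ⟨a, ha⟩ := hi
    have := hf a ha
    rw [hfw, hfw, h, inner_zero_right, inner_zero_right] at this
    exact lt_irrefl _ this
  have h1 : ∀ a ∈ K, ⟪a, w⟫ ≤ 0 := by
    intro a ha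
    have h2 : a ∈ closure (interior K) := by
      rw [hc.closure_interior_eq_closure_of_nonempty_interior hi]
      exact subset_closure ha
    have h3 : IsClosed {a : E | ⟪a, w⟫ ≤ 0} := isClosed_le (by fun_prop) continuous_const
    refine closure_minimal ?_ h3 h2
    intro b hb
    have := hf b hb
    rw [hfw, hfw, inner_zero_left] at this
    exact this.le
  have h2 := hpos w hw0
  have h3 : supportFn K w ≤ 0 := supportFn_le (hi.mono interior_subset) h1
  linarith

/-- Every solution is a translate of a centred solution. -/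
theorem exists_good {K : Set E} (hK : IsSolution K) :
    ∃ (a : E) (K' : Set E) (c : ℝ), K = (fun y => a + y) '' K' ∧ Good K' c := by
  obtain ⟨⟨hcomp, hconv, hint⟩, L, ⟨hL1, hL2, hL3, hL4⟩, x, r, hr, hLx⟩ := hK
  have hne : K.Nonempty := hint.mono interior_subset
  set K' : Set E := (fun y => r⁻¹ • x + y) '' K with hK'
  have hK'c : IsCompact K' := hcomp.image (by fun_prop)
  have hK'v : Convex ℝ K' := hconv.translate _
  have hKK' : K = (fun y => -(r⁻¹ • x) + y) '' K' := by
    rw [hK', image_image]
    simp
  have hK'i : (interior K').Nonempty := by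
    have h1 : K' = (Homeomorph.addLeft (r⁻¹ • x)) '' K := rfl
    rw [h1, ← Homeomorph.image_interior]
    exact hint.image _
  have heq1 : ∀ u : E, ‖u‖ = 1 → segVol K' u = r * supportFn K' u := by
    intro u hu
    rw [hK', segVol_translate, segVol_unit hcomp hconv hu, ← hL4 u hu, hLx,
      supportFn_translate hcomp hne, real_inner_smul_left]
    have h2 : (fun y => x + r • y) '' K = (fun y => x + y) '' ((fun y => r • y) '' K) := by
      rw [image_image]
    rw [h2, supportFn_translate (hcomp.image (by fun_prop)) (hne.image _),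
      supportFn_smul_set hcomp hne hr.le]
    field_simp
  have heq : ∀ w : E, segVol K' w = r * supportFn K' w := by
    intro w
    by_cases hw : w = 0
    · subst hw
      rw [segVol_zero, supportFn_zero hK'c (hne.image _), mul_zero]
    · obtain ⟨e, he, hwe⟩ := exists_unit w hw
      rw [hwe, segVol_smul hK'c hK'v (norm_nonneg _), heq1 e he,
        supportFn_smul hK'c (hne.image _) (norm_nonneg _)]
      ring
  have h0 : (0 : E) ∈ interior K' := by
    refine zero_mem_interior hK'c hK'v hK'i ?_
    intro w hw
    have h1 := segVol_pos hK'c hK'v hK'i hw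
    rw [heq w] at h1
    exact (pos_iff_pos_of_mul_pos h1).mp hr
  have hsymm : ∀ w : E, supportFn K' (-w) = supportFn K' w := by
    intro w
    have h1 := segVol_neg K' w
    rw [heq, heq] at h1
    exact mul_left_cancel₀ hr.ne' h1
  refine ⟨-(r⁻¹ • x), K', r, hKK', hK'c, hK'v, h0, ?_, hr, heq⟩
  intro y hy
  refine mem_of_forall_innerNormal hK'c hK'v h0 ?_
  intro v _
  rw [← hsymm v]
  have := inner_le_supportFn hK'c hy (-v)
  rw [inner_neg_right] at this
  rw [inner_neg_left]
  exact this

/-- The cone of normals of a centred solution is pole-closed. -/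
theorem Good.poleCone {K : Set E} {c : ℝ} (hG : Good K c) : PB.H15.PoleCone (coneOf K) where
  closed := isClosed_coneOf K
  zero := Or.inl rfl
  cone := fun _ hs t => smul_mem_coneOf hG.symm hs t
  span := span_coneOf hG.compact hG.convex hG.zero_mem
  pole := by
    intro w hw hsp
    refine hG.pole hw ?_
    intro y hy
    have h1 : y ∈ (ℝ ∙ w)ᗮ := by
      rw [Submodule.mem_orthogonal_singleton_iff_inner_right, real_inner_comm]
      exact hy
    rw [← hsp] at h1
    refine Submodule.span_mono ?_ h1
    rintro v ⟨hv1, hv2⟩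
    refine ⟨hv1, ?_⟩
    rw [real_inner_comm]
    exact hv2

end Pool.Agent.Helper55_PB
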