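import Mathlib

/-!
# Projection bodies: definitions and interface statements (MP_bbfd73_gt)
-/

open MeasureTheory Module Set
open scoped RealInnerProductSpace Pointwise

namespace Pool.Agent.Helper55_PB

section Defs

variable {E : Type*} [NormedAddCommGroup E] [InnerProductSpace ℝ E]

/-- A convex body: compact, convex, with nonempty interior. -/
structure IsConvexBody (K : Set E) : Prop where
  compact : IsCompact K
  convex : Convex ℝ K
  interior_nonempty : (interior K).Nonempty

/-- The support function `h_K(u) = sup {⟪x, u⟫ : x ∈ K}`. -/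
noncomputable def supportFn (K : Set E) (u : E) : ℝ := sSup ((fun x => ⟪x, u⟫) '' K)

/-- `L` is homothetic to `K`: `L = x + r K` for some vector `x` and some `r > 0`. -/
def Homothetic (K L : Set E) : Prop :=
  ∃ x : E, ∃ r : ℝ, 0 < r ∧ L = (fun y => x + r • y) '' K

/-- `K` is smooth: at every boundary point there is exactly one outer unit normal
(at most one is required; at least one exists for every convex body). -/
def IsSmoothBody (K : Set E) : Prop :=
  ∀ x ∈ frontier K, ∀ u v : E, ‖u‖ = 1 → ‖v‖ = 1 →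
    (∀ y ∈ K, ⟪y, u⟫ ≤ ⟪x, u⟫) → (∀ y ∈ K, ⟪y, v⟫ ≤ ⟪x, v⟫) → u = v

variable [FiniteDimensional ℝ E] [MeasurableSpace E] [BorelSpace E]

/-- The `(n-1)`-dimensional volume of the orthogonal projection of `K` onto the hyperplane
orthogonal to `u`. -/
noncomputable def shadowVol (K : Set E) (u : E) : ℝ :=
  (volume ((ℝ ∙ u)ᗮ.orthogonalProjectionOnto '' K)).toReal

/-- `L` is the projection body of `K`: a compact convex nonempty set whose support function at
every unit vector `u` is the volume of the projection of `K` onto the hyperplane `u^⊥`. -/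
def IsProjectionBody (K L : Set E) : Prop :=
  IsCompact L ∧ Convex ℝ L ∧ L.Nonempty ∧ ∀ u : E, ‖u‖ = 1 → supportFn L u = shadowVol K u

/-- `K` is a convex body whose projection body is homothetic to `K`. -/
def IsSolution (K : Set E) : Prop :=
  IsConvexBody K ∧ ∃ L : Set E, IsProjectionBody K L ∧ Homothetic K L

/-- `vol (K + [0,w]) - vol K`. -/
noncomputable def segVol (K : Set E) (w : E) : ℝ :=
  (volume (K + segment ℝ (0 : E) w)).toReal - (volume K).toReal

end Defs

/-- A pole-closed cone: invariant under nonzero scalars, closed together with `0`, spanning, and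
containing every vector `w ≠ 0` whose orthogonal hyperplane is spanned by elements of the cone. -/
structure PoleClosed {E : Type*} [NormedAddCommGroup E] [InnerProductSpace ℝ E]
    (S : Set E) : Prop where
  smul_mem : ∀ t : ℝ, t ≠ 0 → ∀ v ∈ S, t • v ∈ S
  zero_notMem : (0 : E) ∉ S
  closed : IsClosed (insert (0 : E) S)
  span_top : Submodule.span ℝ S = ⊤
  pole : ∀ w : E, w ≠ 0 → (∀ y : E, ⟪y, w⟫ = 0 → y ∈ Submodule.span ℝ {v ∈ S | ⟪v, w⟫ = 0}) → w ∈ S

/-- Interface (LIN): closed pole-closed cones split off an orthogonal piece which is full or of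
dimension at most two. -/
def LinStmt : Prop :=
  ∀ {E : Type} [NormedAddCommGroup E] [InnerProductSpace ℝ E] [FiniteDimensional ℝ E]
    [Nontrivial E] (S : Set E), PoleClosed S →
    ∃ V : Submodule ℝ E, V ≠ ⊥ ∧ (∀ s ∈ S, s ∈ V ∨ s ∈ Vᗮ) ∧
      ((∀ v ∈ V, v ≠ 0 → v ∈ S) ∨ finrank ℝ V ≤ 2)

/-- Interface (VOL): volume of the Minkowski sum with a segment. -/
def VolStmt : Prop :=
  ∀ {E : Type} [NormedAddCommGroup E] [InnerProductSpace ℝ E] [FiniteDimensional ℝ E]
    [MeasurableSpace E] [BorelSpace E] (K : Set E), IsCompact K → Convex ℝ K → K.Nonempty →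
    ∀ (e : E) (c : ℝ), ‖e‖ = 1 → 0 ≤ c → segVol K (c • e) = c * shadowVol K e

/-- Interface (AL): strict subadditivity at an inner ball point. -/
def StrictStmt : Prop :=
  ∀ {E : Type} [NormedAddCommGroup E] [InnerProductSpace ℝ E] [FiniteDimensional ℝ E]
    [MeasurableSpace E] [BorelSpace E] (K : Set E), IsCompact K → Convex ℝ K →
    ∀ (x v : E) (r : ℝ), 0 < r → ‖v‖ = 1 → x ∈ K → Metric.closedBall (x - r • v) r ⊆ K →
    (∀ z ∈ K, ⟪z, v⟫ ≤ ⟪x, v⟫) → ∀ w₁ w₂ : E, 0 < ⟪w₁, v⟫ → ⟪w₂, v⟫ < 0 →
    segVol K (w₁ + w₂) < segVol K w₁ + segVol K w₂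

end Pool.Agent.Helper55_PB
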