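import Pool.Agent.Helper55_PB.Stmt
import Pool.Agent.Helper28_PB.Prod

open MeasureTheory Module Set
open scoped RealInnerProductSpace Pointwise Topology

namespace Pool.Agent.Helper55_PB

theorem prodStmt : ProdStmt := by
  intro E _ _ _ _ _ V A B hA hAc _ hB hBc _
  exact ⟨Helper28_PB.volume_prodSet V hA.measurableSet hB.measurableSet,
    fun a b => Helper28_PB.segVol_prodSet V hA hAc hB hBc a b⟩

/-- Interface (PLANE, part 3). -/
def PlaneGoodStmt : Prop :=
  ∀ {E : Type} [NormedAddCommGroup E] [InnerProductSpace ℝ E] [FiniteDimensional ℝ E]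
    [MeasurableSpace E] [BorelSpace E] (K : Set E) (c : ℝ), finrank ℝ E = 2 → Good K c →
    c = 2 ∧ QuarterTurnInvariant K

/-- The conclusion of the main theorem. -/
def Decomposes {E : Type} [NormedAddCommGroup E] [InnerProductSpace ℝ E] [FiniteDimensional ℝ E]
    [MeasurableSpace E] [BorelSpace E] (K : Set E) : Prop :=
  ∃ (m : ℕ) (V : Fin m → Submodule ℝ E) (A : ∀ i, Set (V i)) (x₀ : E) (τ : ℝ),
    0 < τ ∧ (∀ i, V i ≠ ⊥) ∧ (∀ i j, i ≠ j → ∀ x ∈ V i, ∀ y ∈ V j, ⟪x, y⟫ = 0) ∧
    (⨆ i, V i = ⊤) ∧ K = orthSum V A x₀ ∧ ∀ i, IsConvexBody (A i) ∧ IsSummand (A i) τ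

variable {E : Type} [NormedAddCommGroup E] [InnerProductSpace ℝ E] [FiniteDimensional ℝ E]
  [MeasurableSpace E] [BorelSpace E]

theorem decomposes_of_isSolution (hdec : DecStmt) (hline : LineStmt) (hpg : PlaneGoodStmt)
    {K : Set E} (hK : IsSolution K) : Decomposes K := by
  obtain ⟨a, K', c, hKK', hG⟩ := exists_good hK
  obtain ⟨m, V, hbot, horth, htop, hcov, hfull⟩ := hdec (coneOf K') hG.poleCone
  have hc := hG.pos
  have hvK := volume_pos_of_zero_mem hG.compact hG.zero_mem
  have hne0 : ∀ v ∈ innerNormals K', v ≠ 0 := by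
    intro v hv h
    have := hv.1
    rw [h, norm_zero] at this
    exact zero_ne_one this
  have hsub : ∀ i, ∀ v ∈ innerNormals K', v ∈ V i ∨ v ∈ (V i)ᗮ := by
    intro i v hv
    obtain ⟨j, hj⟩ := hcov v (subset_coneOf (subset_closure hv)) (hne0 v hv)
    by_cases h : i = j
    · subst h; exact Or.inl hj
    · right
      rw [Submodule.mem_orthogonal]
      intro u hu
      exact horth i j h u hu v hj
  have hmem : ∀ z : E, z ∈ K' ↔ ∀ i, ((V i).orthogonalProjectionOnto z : E) ∈ K' := by
    intro z
    constructor
    · intro hz i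
      exact proj_mem hG.compact hG.convex hG.zero_mem (V i) (hsub i) hz
    · intro hz
      refine mem_of_forall_innerNormal hG.compact hG.convex hG.zero_mem ?_
      intro v hv
      obtain ⟨j, hj⟩ := hcov v (subset_coneOf (subset_closure hv)) (hne0 v hv)
      rw [← inner_proj_of_mem (V j) z hj]
      exact inner_le_supportFn hG.compact (hz j) v
  refine ⟨m, V, fun i => piece K' (V i), a, (volume K').toReal / c, by positivity, hbot, horth,
    htop, ?_, ?_⟩
  · ext x
    rw [hKK']
    constructor
    · rintro ⟨z, hz, rfl⟩ i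
      have : (fun y => a + y) z - a = z := by simp
      rw [this]
      exact (hmem z).mp hz i
    · intro hx
      refine ⟨x - a, (hmem _).mpr hx, by simp⟩
  · intro i
    have hGi := Good.piece prodStmt hG (V i) (hsub i)
    refine ⟨⟨hGi.compact, hGi.convex, ⟨0, hGi.zero_mem⟩⟩, ?_⟩
    set A := piece K' (V i) with hA
    set τ := (volume K').toReal / c with hτ
    have hτpos : 0 < τ := by positivity
    have hvA := volume_pos_of_zero_mem hGi.compact hGi.zero_mem
    have hci := hGi.pos
    have hrank : 1 ≤ finrank ℝ (V i) := by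
      rw [Nat.one_le_iff_ne_zero]
      intro h
      exact hbot i (Submodule.finrank_eq_zero.mp h)
    rcases Nat.lt_or_ge 2 (finrank ℝ (V i)) with h3 | h3
    · right; right
      refine ⟨h3, ?_, ?_⟩
      · refine hG.smooth_piece (V i) (hsub i) ?_
        rcases hfull i with h | h
        · exact h
        · omega
      · intro u hu
        have h8 := hGi.eq u
        rw [segVol_unit hGi.compact hGi.convex hu] at h8
        show τ * shadowVol A u = (volume A).toReal * supportFn A u
        rw [h8]
        field_simp
    · rcases Nat.lt_or_ge 1 (finrank ℝ (V i)) with h2 | h2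
      · right; left
        have hdim : finrank ℝ (V i) = 2 := by omega
        obtain ⟨hc2, hQ⟩ := hpg A _ hdim hGi
        refine ⟨hdim, hQ, ?_⟩
        rw [div_eq_iff hτpos.ne'] at hc2
        exact hc2
      · left
        have hdim : finrank ℝ (V i) = 1 := by omega
        have hball := hGi.eq_ball hline hdim
        refine ⟨hdim, ?_⟩
        set ci := (volume A).toReal / τ with hcidef
        have h4 : (volume A).toReal = 2 * (1 / ci) := by
          conv_lhs => rw [hball]
          exact volume_closedBall_one hdim (by positivity)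
        have h5 : ci * τ = (volume A).toReal := by
          rw [hcidef]; field_simp
        rw [h4] at h5
        have h6 : (1 / ci) ^ 2 = τ / 2 := by
          field_simp at h5 ⊢
          linarith
        have h7 : 1 / ci = √(τ / 2) := by
          rw [← h6, Real.sqrt_sq (by positivity)]
        rw [← h7]
        exact hball

end Pool.Agent.Helper55_PB
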