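import Pool.Agent.Helper55_PB.Bwd
import Pool.Agent.Helper15_PB.Dec
import Pool.Agent.Helper15_PB.Plane

open MeasureTheory Module Set
open scoped RealInnerProductSpace Pointwise Topology

namespace Pool.Agent.Helper55_PB

theorem decStmt : DecStmt := by
  intro E _ _ _ S hS
  exact PB.H15.dec_aux _ E S rfl hS

theorem lineStmt : LineStmt := fun _ h hK hc hne w => PB.H15.segVol_dim1 h hK hc hne w

theorem planeStmt : PlaneStmt := fun _ h hK hc hne hs _ _ hn hxy =>
  PB.H15.segVol_dim2 h hK hc hne hs hn hxy

theorem planeGoodStmt : PlaneGoodStmt := fun _ _ h hG => PB.H15.good_dim2 h hG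

end Pool.Agent.Helper55_PB
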