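import Pool.Agent.Helper55_PB.MidFin

/-!
# Only balls: definitions and interface statements

Everything is stated for compact, convex, nonempty sets (`Helper28_PB.CC`) in finite-dimensional
Euclidean spaces. `sc M j` is the coefficient of `r^j` in the volume of `M + r B`.
-/

open MeasureTheory Module Set Filter
open scoped RealInnerProductSpace Pointwise Topology

namespace Pool.Agent.Helper55_PB

open Pool.Agent.Helper28_PB (CC)

section Defs

variable {E : Type*} [NormedAddCommGroup E] [InnerProductSpace ℝ E] [FiniteDimensional ℝ E]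
  [MeasurableSpace E] [BorelSpace E]

/-- Iterated differences of the volume in the direction of segments. -/
noncomputable def VD : List E → Set E → ℝ
  | [], M => (volume M).toReal
  | a :: l, M => VD l (M + segment ℝ (0 : E) a) - VD l M

/-- `c 0, c 1, ..., c d` are the coefficients of the Steiner polynomial of `M`. -/
def IsSteiner (M : Set E) (c : ℕ → ℝ) : Prop :=
  ∀ r : ℝ, 0 ≤ r → (volume (M + Metric.closedBall (0 : E) r)).toReal =
    ∑ j ∈ Finset.range (finrank ℝ E + 1), c j * r ^ j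

open Classical in
/-- The coefficient of `r^j` in the volume of `M + r B`. -/
noncomputable def sc (M : Set E) (j : ℕ) : ℝ :=
  if h : ∃ c : ℕ → ℝ, IsSteiner M c then h.choose j else 0

end Defs

/-- The projection of `M` to `e^⊥`, as a subset of `E`. -/
noncomputable def flat {E : Type*} [NormedAddCommGroup E] [InnerProductSpace ℝ E]
    (e : E) (M : Set E) : Set E := (fun x => x - ⟪x, e⟫ • e) '' M

/-- (VDPROJ) -/
def VDProjStmt : Prop :=
  ∀ {E : Type} [NormedAddCommGroup E] [InnerProductSpace ℝ E] [FiniteDimensional ℝ E]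
    [MeasurableSpace E] [BorelSpace E] (l : List E) (M : Set E), CC M → ∀ a : E, ‖a‖ = 1 →
    VD (a :: l) M = VD (l.map ((ℝ ∙ a)ᗮ.orthogonalProjectionOnto))
      ((ℝ ∙ a)ᗮ.orthogonalProjectionOnto '' M)

/-- (VDHOM) -/
def VDHomStmt : Prop :=
  ∀ {E : Type} [NormedAddCommGroup E] [InnerProductSpace ℝ E] [FiniteDimensional ℝ E]
    [MeasurableSpace E] [BorelSpace E] (l : List E) (M : Set E), CC M → ∀ (t : ℝ) (a : E),
    0 ≤ t → VD (t • a :: l) M = t * VD (a :: l) M

/-- (VDPERM) -/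
def VDPermStmt : Prop :=
  ∀ {E : Type} [NormedAddCommGroup E] [InnerProductSpace ℝ E] [FiniteDimensional ℝ E]
    [MeasurableSpace E] [BorelSpace E] (l l' : List E), l.Perm l' → ∀ M : Set E,
    VD l M = VD l' M

/-- (VDNONNEG) -/
def VDNonnegStmt : Prop :=
  ∀ {E : Type} [NormedAddCommGroup E] [InnerProductSpace ℝ E] [FiniteDimensional ℝ E]
    [MeasurableSpace E] [BorelSpace E] (l : List E) (M : Set E), CC M → 0 ≤ VD l M

/-- (VDMONO) -/
def VDMonoStmt : Prop :=
  ∀ {E : Type} [NormedAddCommGroup E] [InnerProductSpace ℝ E] [FiniteDimensional ℝ E]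
    [MeasurableSpace E] [BorelSpace E] (l : List E) (M M' : Set E), CC M → CC M' → M ⊆ M' →
    VD l M ≤ VD l M'

/-- (VDSUM) the volume of the sum with a weighted zonotope -/
def VDSumStmt : Prop :=
  ∀ {E : Type} [NormedAddCommGroup E] [InnerProductSpace ℝ E] [FiniteDimensional ℝ E]
    [MeasurableSpace E] [BorelSpace E] (M : Set E), CC M → ∀ (T : Finset E) (m : E → ℝ),
    (∀ p, 0 ≤ m p) → ∀ r : ℝ, 0 ≤ r →
    (volume (M + ∑ p ∈ T, segment ℝ (0 : E) ((r * m p) • p))).toReal =
      ∑ j ∈ Finset.range (finrank ℝ E + 1),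
        (∑ s ∈ T.powersetCard j, (∏ p ∈ s, m p) * VD s.toList M) * r ^ j

/-- (VDFLAT) iterated differences of the volume and the projection to a hyperplane. -/
def VDFlatStmt : Prop :=
  ∀ {E : Type} [NormedAddCommGroup E] [InnerProductSpace ℝ E] [FiniteDimensional ℝ E]
    [MeasurableSpace E] [BorelSpace E] (l : List E) (M : Set E), CC M → ∀ e : E, ‖e‖ = 1 →
    2 * VD l (flat e M) ≤ VD l M + VD l ((Submodule.reflection (ℝ ∙ e)ᗮ) '' M)

/-- (LIM) existence of the Steiner polynomial and its coefficients as limits, simultaneously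
for all sets. -/
def LimStmt : Prop :=
  ∀ {E : Type} [NormedAddCommGroup E] [InnerProductSpace ℝ E] [FiniteDimensional ℝ E]
    [MeasurableSpace E] [BorelSpace E] [Nontrivial E],
    ∃ (c : ℝ) (T : ℕ → Finset E) (m : ℕ → E → ℝ), 0 < c ∧ (∀ N p, 0 ≤ m N p) ∧
      ∀ M : Set E, CC M → IsSteiner M (sc M) ∧ ∀ j, j ≤ finrank ℝ E →
        Tendsto (fun N => ∑ s ∈ (T N).powersetCard j, (∏ p ∈ s, m N p) * VD s.toList M) atTop
          (𝓝 (sc M j * c ^ j))

/-- (DI) Steiner coefficients of a set in a hyperplane, in the hyperplane and in the space: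
if `c` are the coefficients of `M'` in `e^⊥`, then `(κ_{j+1}/κ_j) c_j` is the coefficient of
`r^{j+1}` in the space. -/
def DIStmt : Prop :=
  ∀ {E : Type} [NormedAddCommGroup E] [InnerProductSpace ℝ E] [FiniteDimensional ℝ E]
    [MeasurableSpace E] [BorelSpace E] (e : E), ‖e‖ = 1 →
    ∀ (M' : Set ((ℝ ∙ e)ᗮ : Submodule ℝ E)), CC M' → ∀ c : ℕ → ℝ, IsSteiner M' c →
    ∀ r : ℝ, 0 ≤ r →
    (volume ((fun y : ((ℝ ∙ e)ᗮ : Submodule ℝ E) => (y : E)) '' M' +
        Metric.closedBall (0 : E) r)).toReal =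
      ∑ j ∈ Finset.range (finrank ℝ ((ℝ ∙ e)ᗮ : Submodule ℝ E) + 1),
        (ballVol (j + 1) / ballVol j * c j) * r ^ (j + 1)

/-- (KAP) -/
def KapStmt : Prop :=
  ∀ m : ℕ, 2 * Real.pi * m ≤ ((m + 1) * (ballVol (m + 1) / ballVol m)) ^ 2

/-- (ROT) the comparison of two projections by a rotation: `a` bounds the change of the support
function, `e` is a unit vector orthogonal to `w`. The set `K` rotated so that `w'` comes to `w`
has projection to `w^⊥` contained in the projection of `K + [-a e, a e]`. -/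
def RotStmt : Prop :=
  ∀ {E : Type} [NormedAddCommGroup E] [InnerProductSpace ℝ E] [FiniteDimensional ℝ E]
    (K : Set E), CC K → ∀ L : ℝ, (∀ u v : E, ‖u‖ = 1 → ‖v‖ = 1 →
      |supportFn K u - supportFn K v| ≤ L * ‖u - v‖) →
    ∀ w w' : E, ‖w‖ = 1 → ‖w'‖ = 1 → w ≠ w' → w ≠ -w' →
    ∃ (ρ : E ≃ₗᵢ[ℝ] E) (e : E), ρ w' = w ∧ ‖e‖ = 1 ∧ ⟪w, e⟫ = 0 ∧
      (ℝ ∙ w)ᗮ.orthogonalProjectionOnto '' (ρ '' K) ⊆
        (ℝ ∙ w)ᗮ.orthogonalProjectionOnto ''
          (K + segment ℝ (-((L * ‖w - w'‖) • e)) ((L * ‖w - w'‖) • e))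

end Pool.Agent.Helper55_PB
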