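import Pool.Agent.Helper55_PB.Intr

open MeasureTheory Module Set Filter
open scoped RealInnerProductSpace Pointwise Topology

namespace Pool.Agent.Helper55_PB

open Pool.Agent.Helper28_PB (CC)

/-- Pointwise limits of polynomials of bounded degree. -/
theorem exists_coeff_limit {n : ℕ} {a : ℕ → ℕ → ℝ} {F : ℝ → ℝ}
    (h : ∀ r : ℝ, 0 ≤ r → Tendsto (fun N => ∑ j ∈ Finset.range n, a N j * r ^ j)
      atTop (𝓝 (F r))) :
    ∃ b : ℕ → ℝ, (∀ k, k < n → Tendsto (fun N => a N k) atTop (𝓝 (b k))) ∧
      ∀ r : ℝ, 0 ≤ r → F r = ∑ j ∈ Finset.range n, b j * r ^ j := by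
  set x : Fin n → ℝ := fun i => (i : ℕ) with hx
  set M : Matrix (Fin n) (Fin n) ℝ := Matrix.vandermonde x with hM
  have hdet : M.det ≠ 0 := by
    rw [hM, Matrix.det_vandermonde_ne_zero_iff]
    intro i j hij
    simp only [hx] at hij
    exact Fin.ext (by exact_mod_cast hij)
  have hunit : IsUnit M.det := isUnit_iff_ne_zero.mpr hdet
  have hsum : ∀ (c : ℕ → ℝ) (i : Fin n), (M.mulVec (fun j : Fin n => c j)) i =
      ∑ j ∈ Finset.range n, c j * (x i) ^ j := by
    intro c i
    rw [Matrix.mulVec, dotProduct, Finset.sum_range]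
    refine Finset.sum_congr rfl ?_
    intro j _
    rw [hM, Matrix.vandermonde_apply]
    ring
  have hinv : ∀ (c : ℕ → ℝ) (k : Fin n), c k =
      (M⁻¹.mulVec (fun i => ∑ j ∈ Finset.range n, c j * (x i) ^ j)) k := by
    intro c k
    have h1 : (fun i => ∑ j ∈ Finset.range n, c j * (x i) ^ j) =
        M.mulVec (fun j : Fin n => c j) := by
      funext i; exact (hsum c i).symm
    rw [h1, Matrix.mulVec_mulVec, Matrix.nonsing_inv_mul M hunit, Matrix.one_mulVec]
  set b : ℕ → ℝ := fun k => if hk : k < n then (M⁻¹.mulVec (fun i => F (x i))) ⟨k, hk⟩ else 0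
    with hb
  have hlim : ∀ k, k < n → Tendsto (fun N => a N k) atTop (𝓝 (b k)) := by
    intro k hk
    have h2 : (fun N => a N k) = fun N => (M⁻¹.mulVec
        (fun i => ∑ j ∈ Finset.range n, a N j * (x i) ^ j)) ⟨k, hk⟩ := by
      funext N; exact hinv (a N) ⟨k, hk⟩
    rw [h2, hb]
    simp only [dif_pos hk]
    simp only [Matrix.mulVec, dotProduct]
    refine tendsto_finsetSum _ ?_
    intro i _
    refine Tendsto.const_mul _ ?_
    exact h (x i) (by simp [hx])
  refine ⟨b, hlim, ?_⟩
  intro r hr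
  refine tendsto_nhds_unique (h r hr) ?_
  refine tendsto_finsetSum _ ?_
  intro j hj
  exact (hlim j (Finset.mem_range.mp hj)).mul_const _

variable {E : Type} [NormedAddCommGroup E] [InnerProductSpace ℝ E] [FiniteDimensional ℝ E]
  [MeasurableSpace E] [BorelSpace E]

/-- Approximation of balls by weighted zonotopes. -/
theorem exists_zono [Nontrivial E] :
    ∃ (c : ℝ) (T : ℕ → Finset E) (m : ℕ → E → ℝ) (ε : ℕ → ℝ), 0 < c ∧ (∀ N p, 0 ≤ m N p) ∧
      (∀ N, 0 ≤ ε N) ∧ (∀ N, ε N ≤ c) ∧ Tendsto ε atTop (𝓝 0) ∧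
      ∀ N (r : ℝ), 0 ≤ r →
        Metric.closedBall (0 : E) (r * (c - ε N)) ⊆
          ∑ p ∈ T N, segment ℝ (0 : E) ((r * m N p) • p) ∧
        (∑ p ∈ T N, segment ℝ (0 : E) ((r * m N p) • p)) ⊆
          Metric.closedBall (0 : E) (r * (c + ε N)) := by
  obtain ⟨c, hcpos, hcint⟩ := exists_mean_const (E := E) one_pos
  set Vol := (volume (Metric.closedBall (0 : E) 1)).toReal with hVol
  have hVol0 : 0 ≤ Vol := ENNReal.toReal_nonneg
  set δ : ℕ → ℝ := fun N => c / ((Vol + 1) * (N + 2)) with hδ
  have hδpos : ∀ N, 0 < δ N := fun N => by simp only [hδ]; positivity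
  choose φ hφ using fun N => exists_simple (E := E) 1 (hδpos N)
  set T : ℕ → Finset E := fun N => (φ N).range with hT
  set m : ℕ → E → ℝ := fun N => wt 1 (φ N) with hm
  have hm0 : ∀ N p, 0 ≤ m N p := fun N p => wt_nonneg 1 (φ N) p
  set ε : ℕ → ℝ := fun N => δ N * Vol with hε
  have hε0 : ∀ N, 0 ≤ ε N := fun N => mul_nonneg (hδpos N).le hVol0
  have hεle : ∀ N, ε N ≤ c / (N + 2) := by
    intro N
    have h3 : c / ((Vol + 1) * (N + 2)) * Vol ≤ c / (N + 2) := by
      rw [div_mul_eq_mul_div, div_le_div_iff₀ (by positivity) (by positivity)]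
      have : (0 : ℝ) < N + 2 := by positivity
      nlinarith [mul_pos hcpos this]
    exact h3
  have hεlim : Tendsto ε atTop (𝓝 0) := by
    refine squeeze_zero hε0 hεle ?_
    have h1 : Tendsto (fun N : ℕ => (N : ℝ) + 2) atTop atTop :=
      tendsto_atTop_add_const_right _ _ tendsto_natCast_atTop_atTop
    exact h1.const_div_atTop c
  have hclt : ∀ N, ε N ≤ c := by
    intro N
    refine (hεle N).trans ?_
    rw [div_le_iff₀ (by positivity)]
    have : (0 : ℝ) ≤ N := Nat.cast_nonneg N
    nlinarith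
  refine ⟨c, T, m, ε, hcpos, hm0, hε0, hclt, hεlim, ?_⟩
  intro N r hr
  obtain ⟨z1, z2, z3, z4⟩ := zono_props (T N) (fun p => r * m N p)
  have h1 : ∀ u : E, supportFn (∑ p ∈ T N, segment ℝ (0 : E) ((r * m N p) • p)) u =
      r * ∑ p ∈ T N, m N p * max ⟪p, u⟫ 0 := by
    intro u
    rw [z4 u, Finset.mul_sum]
    refine Finset.sum_congr rfl ?_
    intro p _
    have h0 : 0 ≤ r * m N p := mul_nonneg hr (hm0 N p)
    rw [real_inner_smul_left, ← mul_assoc, mul_max_of_nonneg _ _ h0, mul_zero]
  have h2 : ∀ u : E, |∑ p ∈ T N, m N p * max ⟪p, u⟫ 0 - c * ‖u‖| ≤ ε N * ‖u‖ := fun u =>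
    sum_wt_approx hcint (hφ N) u
  constructor
  · refine closedBall_subset_of_support z1 z2 z3 ?_
    intro u
    rw [h1 u, mul_assoc]
    refine mul_le_mul_of_nonneg_left ?_ hr
    have := (abs_le.mp (h2 u)).1
    rw [sub_mul]
    linarith
  · refine subset_closedBall_of_support z1 ?_ ?_
    · exact mul_nonneg hr (by have := hε0 N; linarith)
    · intro u
      rw [h1 u, mul_assoc]
      refine mul_le_mul_of_nonneg_left ?_ hr
      have := (abs_le.mp (h2 u)).2
      rw [add_mul]
      linarith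

theorem volume_add_ball_le {M : Set E} (hM : CC M) {r s : ℝ} (hr : 0 < r) (hs : r ≤ s) :
    (volume (M + Metric.closedBall (0 : E) s)).toReal ≤
      (s / r) ^ finrank ℝ E * (volume (M + Metric.closedBall (0 : E) r)).toReal := by
  rcases eq_or_lt_of_le hs with h | h
  · subst h
    rw [div_self hr.ne', one_pow, one_mul]
  obtain ⟨x, hx⟩ := hM.ne
  have h1 := PB.H15.volume_le (A := M + Metric.closedBall (0 : E) s)
    (B := M + Metric.closedBall (0 : E) r) (isCompact_add_ball hM.cpt r)
    (convex_add_ball hM.cvx r) (c := x) (ρ := r) (ε := s - r) hr (by linarith) ?_ ?_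
  · have h2 : 1 + (s - r) / r = s / r := by field_simp; ring
    rwa [h2] at h1
  · intro z hz
    refine ⟨x, hx, z - x, ?_, by simp⟩
    rw [Metric.mem_closedBall, dist_eq_norm] at hz
    rwa [Metric.mem_closedBall, dist_zero_right]
  · rw [add_assoc, closedBall_add_closedBall hr.le (by linarith)]
    simp

theorem volume_add_ball_mono {M : Set E} (hM : CC M) {r s : ℝ} (hs : r ≤ s) :
    (volume (M + Metric.closedBall (0 : E) r)).toReal ≤
      (volume (M + Metric.closedBall (0 : E) s)).toReal :=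
  ENNReal.toReal_mono (isCompact_add_ball hM.cpt s).measure_lt_top.ne
    (measure_mono (add_subset_add_left (Metric.closedBall_subset_closedBall hs)))

theorem continuousAt_volume_add_ball {M : Set E} (hM : CC M) {r : ℝ} (hr : 0 < r) :
    ContinuousAt (fun s : ℝ => (volume (M + Metric.closedBall (0 : E) s)).toReal) r := by
  set f : ℝ → ℝ := fun s : ℝ => (volume (M + Metric.closedBall (0 : E) s)).toReal with hf
  set n := finrank ℝ E
  have hf0 : ∀ s, 0 ≤ f s := fun s => ENNReal.toReal_nonneg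
  have hlo : Tendsto (fun s : ℝ => min ((s / r) ^ n) 1 * f r) (𝓝 r) (𝓝 (f r)) := by
    have h1 : Continuous (fun s : ℝ => min ((s / r) ^ n) 1 * f r) := by fun_prop
    have h2 := h1.tendsto r
    simpa [div_self hr.ne'] using h2
  have hhi : Tendsto (fun s : ℝ => max ((s / r) ^ n) 1 * f r) (𝓝 r) (𝓝 (f r)) := by
    have h1 : Continuous (fun s : ℝ => max ((s / r) ^ n) 1 * f r) := by fun_prop
    have h2 := h1.tendsto r
    simpa [div_self hr.ne'] using h2
  have hev : ∀ᶠ s in 𝓝 r, 0 < s := lt_mem_nhds hr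
  refine tendsto_of_tendsto_of_tendsto_of_le_of_le' hlo hhi ?_ ?_
  · filter_upwards [hev] with s hs
    rcases le_total r s with h | h
    · refine le_trans (mul_le_mul_of_nonneg_right (min_le_right _ _) (hf0 r)) ?_
      rw [one_mul]
      exact volume_add_ball_mono hM h
    · refine le_trans (mul_le_mul_of_nonneg_right (min_le_left _ _) (hf0 r)) ?_
      have h1 := volume_add_ball_le hM hs h
      calc (s / r) ^ n * f r ≤ (s / r) ^ n * ((r / s) ^ n * f s) :=
            mul_le_mul_of_nonneg_left h1 (by positivity)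
        _ = f s := by
            rw [← mul_assoc, ← mul_pow]
            have : s / r * (r / s) = 1 := by field_simp
            rw [this, one_pow, one_mul]
  · filter_upwards [hev] with s hs
    rcases le_total r s with h | h
    · exact (volume_add_ball_le hM hr h).trans
        (mul_le_mul_of_nonneg_right (le_max_left _ _) (hf0 r))
    · refine le_trans ?_ (mul_le_mul_of_nonneg_right (le_max_right _ _) (hf0 r))
      rw [one_mul]
      exact volume_add_ball_mono hM h

theorem isSteiner_sc {M : Set E} (h : ∃ c : ℕ → ℝ, IsSteiner M c) : IsSteiner M (sc M) := by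
  have h1 : sc M = h.choose := by
    funext j
    rw [sc, dif_pos h]
  rw [h1]
  exact h.choose_spec

/-- LIM -/
theorem lim_of (sum : VDSumStmt) : LimStmt := by
  intro E _ _ _ _ _ _
  obtain ⟨c, T, m, ε, hc, hm, hε0, hεc, hεlim, hincl⟩ := exists_zono (E := E)
  refine ⟨c, T, m, hc, hm, ?_⟩
  intro M hM
  set a : ℕ → ℕ → ℝ := fun N j => ∑ s ∈ (T N).powersetCard j, (∏ p ∈ s, m N p) *
    VD s.toList M with ha
  set f : ℝ → ℝ := fun s : ℝ => (volume (M + Metric.closedBall (0 : E) s)).toReal with hf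
  have hlim : ∀ r : ℝ, 0 ≤ r → Tendsto
      (fun N => ∑ j ∈ Finset.range (finrank ℝ E + 1), a N j * r ^ j) atTop (𝓝 (f (r * c))) := by
    intro r hr
    have h1 : ∀ N, ∑ j ∈ Finset.range (finrank ℝ E + 1), a N j * r ^ j =
        (volume (M + ∑ p ∈ T N, segment ℝ (0 : E) ((r * m N p) • p))).toReal := fun N =>
      (sum M hM (T N) (m N) (hm N) r hr).symm
    simp_rw [h1]
    have hlo : ∀ N, f (r * (c - ε N)) ≤
        (volume (M + ∑ p ∈ T N, segment ℝ (0 : E) ((r * m N p) • p))).toReal := by
      intro N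
      obtain ⟨z1, _, _, _⟩ := zono_props (T N) (fun p => r * m N p)
      exact ENNReal.toReal_mono (hM.cpt.add z1).measure_lt_top.ne
        (measure_mono (add_subset_add_left (hincl N r hr).1))
    have hhi : ∀ N, (volume (M + ∑ p ∈ T N, segment ℝ (0 : E) ((r * m N p) • p))).toReal ≤
        f (r * (c + ε N)) := by
      intro N
      exact ENNReal.toReal_mono (isCompact_add_ball hM.cpt _).measure_lt_top.ne
        (measure_mono (add_subset_add_left (hincl N r hr).2))
    rcases eq_or_lt_of_le hr with h0 | h0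
    · subst h0
      refine tendsto_of_tendsto_of_tendsto_of_le_of_le ?_ ?_ hlo hhi
      · simp
      · simp
    · have hcont : ContinuousAt f (r * c) := continuousAt_volume_add_ball hM (by positivity)
      have hl : Tendsto (fun N => f (r * (c - ε N))) atTop (𝓝 (f (r * c))) := by
        have h2 := (hεlim.const_sub c).const_mul r
        rw [sub_zero] at h2
        exact hcont.tendsto.comp h2
      have hu : Tendsto (fun N => f (r * (c + ε N))) atTop (𝓝 (f (r * c))) := by
        have h2 := (hεlim.const_add c).const_mul r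
        rw [add_zero] at h2
        exact hcont.tendsto.comp h2
      exact tendsto_of_tendsto_of_tendsto_of_le_of_le hl hu hlo hhi
  obtain ⟨b, hb1, hb2⟩ := exists_coeff_limit hlim
  have hst : IsSteiner M (fun j => b j / c ^ j) := by
    intro r hr
    have h1 := hb2 (r / c) (by positivity)
    rw [div_mul_cancel₀ _ hc.ne'] at h1
    rw [show (volume (M + Metric.closedBall (0 : E) r)).toReal = f r from rfl, h1]
    refine Finset.sum_congr rfl ?_
    intro j _
    rw [div_pow]
    ring
  have hsc : IsSteiner M (sc M) := isSteiner_sc ⟨_, hst⟩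
  refine ⟨hsc, ?_⟩
  intro j hj
  have h1 : sc M j = b j / c ^ j :=
    coeff_unique (q := sc M) (q' := fun j => b j / c ^ j)
      (fun r hr => by rw [← hsc r hr, ← hst r hr]) (Nat.lt_succ_of_le hj)
  rw [h1, div_mul_cancel₀ _ (pow_ne_zero _ hc.ne')]
  exact hb1 j (Nat.lt_succ_of_le hj)

end Pool.Agent.Helper55_PB
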