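import Pool.Agent.Helper55_PB.Ifaces

/-!
# Intermediate projection bodies: definitions and interfaces
-/

open MeasureTheory Module Set
open scoped RealInnerProductSpace Pointwise Topology

namespace Pool.Agent.Helper55_PB

section Defs

/-- The volume of the unit ball of `E^k`. -/
noncomputable def ballVol (k : ℕ) : ℝ :=
  (volume (Metric.closedBall (0 : EuclideanSpace ℝ (Fin k)) 1)).toReal

/-- `a` is the `i`-th intrinsic volume of `M`, by Steiner's formula: there are numbers `b j`
(`j ≤ d`, `d` the dimension of the space), with `b i = a`, such that for all `r ≥ 0` the volume of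
`M + r B` equals `∑_j κ_{d-j} b_j r^{d-j}`. -/
def IsIntrinsicVolume {F : Type*} [NormedAddCommGroup F] [InnerProductSpace ℝ F]
    [FiniteDimensional ℝ F] [MeasurableSpace F] [BorelSpace F] (M : Set F) (i : ℕ) (a : ℝ) :
    Prop :=
  ∃ b : ℕ → ℝ, b i = a ∧ ∀ r : ℝ, 0 ≤ r →
    (volume (M + Metric.closedBall (0 : F) r)).toReal =
      ∑ j ∈ Finset.range (finrank ℝ F + 1),
        ballVol (finrank ℝ F - j) * b j * r ^ (finrank ℝ F - j)

variable {E : Type*} [NormedAddCommGroup E] [InnerProductSpace ℝ E] [FiniteDimensional ℝ E]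
  [MeasurableSpace E] [BorelSpace E]

/-- `L` is the `i`-th projection body of `K`: compact, convex, nonempty, and its support function
at every unit vector `u` is the `i`-th intrinsic volume of the projection of `K` to `u^⊥`. -/
def IsProjectionBodyOfOrder (i : ℕ) (K L : Set E) : Prop :=
  IsCompact L ∧ Convex ℝ L ∧ L.Nonempty ∧
    ∀ u : E, ‖u‖ = 1 →
      IsIntrinsicVolume ((ℝ ∙ u)ᗮ.orthogonalProjectionOnto '' K) i (supportFn L u)

/-- `vol(K+[0,w₁]) + vol(K+[0,w₂]) - vol(K+[0,w₁+w₂]) - vol K`. -/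
noncomputable def defect (K : Set E) (w₁ w₂ : E) : ℝ :=
  segVol K w₁ + segVol K w₂ - segVol K (w₁ + w₂)

/-- Iterated differences of the defect in the direction of segments. -/
noncomputable def Del : List E → Set E → E → E → ℝ
  | [], K, w₁, w₂ => defect K w₁ w₂
  | a :: l, K, w₁, w₂ => Del l (K + segment ℝ (0 : E) a) w₁ w₂ - Del l K w₁ w₂

end Defs

/-! ### Interfaces. All bodies are compact, convex, nonempty. -/

/-- (HOM) positive homogeneity in the first vector. -/
def DelHomStmt : Prop :=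
  ∀ {E : Type} [NormedAddCommGroup E] [InnerProductSpace ℝ E] [FiniteDimensional ℝ E]
    [MeasurableSpace E] [BorelSpace E] (l : List E) (K : Set E), IsCompact K → Convex ℝ K →
    K.Nonempty → ∀ (t : ℝ) (a w₁ w₂ : E), 0 ≤ t → Del (t • a :: l) K w₁ w₂ =
      t * Del (a :: l) K w₁ w₂

/-- (PERM) symmetry. -/
def DelPermStmt : Prop :=
  ∀ {E : Type} [NormedAddCommGroup E] [InnerProductSpace ℝ E] [FiniteDimensional ℝ E]
    [MeasurableSpace E] [BorelSpace E] (l l' : List E), l.Perm l' → ∀ (K : Set E) (w₁ w₂ : E),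
    Del l K w₁ w₂ = Del l' K w₁ w₂

/-- (PROJ) projection along a unit vector. -/
def DelProjStmt : Prop :=
  ∀ {E : Type} [NormedAddCommGroup E] [InnerProductSpace ℝ E] [FiniteDimensional ℝ E]
    [MeasurableSpace E] [BorelSpace E] (l : List E) (K : Set E), IsCompact K → Convex ℝ K →
    K.Nonempty → ∀ (a w₁ w₂ : E), ‖a‖ = 1 → Del (a :: l) K w₁ w₂ =
      Del (l.map ((ℝ ∙ a)ᗮ.orthogonalProjectionOnto)) ((ℝ ∙ a)ᗮ.orthogonalProjectionOnto '' K)
        ((ℝ ∙ a)ᗮ.orthogonalProjectionOnto w₁) ((ℝ ∙ a)ᗮ.orthogonalProjectionOnto w₂)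

/-- (NONNEG). -/
def DelNonnegStmt : Prop :=
  ∀ {E : Type} [NormedAddCommGroup E] [InnerProductSpace ℝ E] [FiniteDimensional ℝ E]
    [MeasurableSpace E] [BorelSpace E] (l : List E) (K : Set E), IsCompact K → Convex ℝ K →
    K.Nonempty → ∀ (w₁ w₂ : E), 0 ≤ Del l K w₁ w₂

/-- (ZERO) vanishing for long lists. -/
def DelZeroStmt : Prop :=
  ∀ {E : Type} [NormedAddCommGroup E] [InnerProductSpace ℝ E] [FiniteDimensional ℝ E]
    [MeasurableSpace E] [BorelSpace E] (l : List E) (K : Set E), IsCompact K → Convex ℝ K →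
    K.Nonempty → ∀ (w₁ w₂ : E), finrank ℝ E ≤ l.length → Del l K w₁ w₂ = 0

/-- (SUM) expansion of the defect of a sum with a weighted zonotope; `l` is a list of pairs
(weight, vector), weights nonnegative. -/
def DelSumStmt : Prop :=
  ∀ {E : Type} [NormedAddCommGroup E] [InnerProductSpace ℝ E] [FiniteDimensional ℝ E]
    [MeasurableSpace E] [BorelSpace E] (l : List (ℝ × E)) (K : Set E), IsCompact K → Convex ℝ K →
    K.Nonempty → (∀ p ∈ l, 0 ≤ p.1) → ∀ (w₁ w₂ : E) (r : ℝ), 0 ≤ r →
    defect (K + (l.map (fun p => segment ℝ (0 : E) ((r * p.1) • p.2))).sum) w₁ w₂ =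
      (l.sublists.map (fun s => r ^ s.length * (s.map Prod.fst).prod *
        Del (s.map Prod.snd) K w₁ w₂)).sum

/-- (CONT) continuity in the vectors. -/
def DelContStmt : Prop :=
  ∀ {E : Type} [NormedAddCommGroup E] [InnerProductSpace ℝ E] [FiniteDimensional ℝ E]
    [MeasurableSpace E] [BorelSpace E] (k : ℕ) (K : Set E), IsCompact K → Convex ℝ K →
    (interior K).Nonempty → ∀ (w₁ w₂ : E),
    Continuous (fun g : Fin k → E => Del (List.ofFn g) K w₁ w₂)

/-- (MAIN) if the defect of `K + r B` is a polynomial in `r ≥ 0` of degree `< n` whose coefficient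
of `r^k` vanishes, then all iterated differences of order `k` vanish. -/
def DelMainStmt : Prop :=
  ∀ {E : Type} [NormedAddCommGroup E] [InnerProductSpace ℝ E] [FiniteDimensional ℝ E]
    [MeasurableSpace E] [BorelSpace E] (K : Set E), IsCompact K → Convex ℝ K →
    (interior K).Nonempty → ∀ (w₁ w₂ : E) (d : ℕ → ℝ),
    (∀ r : ℝ, 0 ≤ r → defect (K + Metric.closedBall (0 : E) r) w₁ w₂ =
      ∑ j ∈ Finset.range (finrank ℝ E), d j * r ^ j) →
    ∀ k : ℕ, k < finrank ℝ E → d k = 0 → ∀ g : Fin k → E, Del (List.ofFn g) K w₁ w₂ = 0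

/-- (SUBSP) iterated differences along an orthonormal system: defect of the projection to the
orthogonal complement `L`. -/
def DelSubspStmt : Prop :=
  ∀ {E : Type} [NormedAddCommGroup E] [InnerProductSpace ℝ E] [FiniteDimensional ℝ E]
    [MeasurableSpace E] [BorelSpace E] (K : Set E), IsCompact K → Convex ℝ K → K.Nonempty →
    ∀ (w₁ w₂ : E) (k : ℕ) (L : Submodule ℝ E), finrank ℝ L + k = finrank ℝ E →
    ∃ g : Fin k → E, Del (List.ofFn g) K w₁ w₂ =
      defect (L.orthogonalProjectionOnto '' K) (L.orthogonalProjectionOnto w₁)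
        (L.orthogonalProjectionOnto w₂)

/-- (LINS) linear algebra: a spanning set `S` such that every nonzero vector orthogonal to `i`
independent elements of `S` is in `S`, with `1 ≤ i ≤ n - 2`, contains all nonzero vectors. -/
def LinSStmt : Prop :=
  ∀ {E : Type} [NormedAddCommGroup E] [InnerProductSpace ℝ E] [FiniteDimensional ℝ E]
    (S : Set E) (i : ℕ), 1 ≤ i → i + 2 ≤ finrank ℝ E → Submodule.span ℝ S = ⊤ →
    (∀ v : Fin i → E, LinearIndependent ℝ v → (∀ j, v j ∈ S) → ∀ w : E, w ≠ 0 →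
      (∀ j, ⟪v j, w⟫ = 0) → w ∈ S) → ∀ w : E, w ≠ 0 → w ∈ S

end Pool.Agent.Helper55_PB
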