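import Pool.Agent.Helper55_PB.Zono2
import Pool.Agent.Helper28_PB.Del

open MeasureTheory Module Set
open scoped RealInnerProductSpace Pointwise Topology

namespace Pool.Agent.Helper55_PB

variable {E : Type} [NormedAddCommGroup E] [InnerProductSpace ℝ E] [FiniteDimensional ℝ E]
  [MeasurableSpace E] [BorelSpace E]

theorem del_of_duplicate {K : Set E} (hK : IsCompact K) (hc : Convex ℝ K) (hne : K.Nonempty)
    {l : List E} (h : ¬ l.Nodup) (w₁ w₂ : E) : Del l K w₁ w₂ = 0 := by
  obtain ⟨a, ha⟩ := (List.exists_duplicate_iff_not_nodup).mpr h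
  rw [List.duplicate_iff_sublist] at ha
  obtain ⟨l', hl'⟩ := ha.exists_perm_append
  rw [Helper28_PB.perm _ _ hl' K w₁ w₂]
  show Del (a :: a :: l') K w₁ w₂ = 0
  by_cases ha0 : a = 0
  · rw [ha0]
    exact Helper28_PB.del_zero_cons _ _ _ _
  · obtain ⟨e, he, hae⟩ := exists_unit a ha0
    have h1 : Del (a :: a :: l') K w₁ w₂ = ‖a‖ * Del (e :: a :: l') K w₁ w₂ := by
      rw [← Helper28_PB.hom (a :: l') K hK hc hne ‖a‖ e w₁ w₂ (norm_nonneg _), ← hae]
    rw [h1, Helper28_PB.proj (a :: l') K hK hc hne e w₁ w₂ he, List.map_cons]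
    have h2 : (ℝ ∙ e)ᗮ.orthogonalProjectionOnto a = 0 := by
      rw [hae, map_smul, Submodule.orthogonalProjectionOnto_orthogonal_apply_eq_zero
        (Submodule.mem_span_singleton_self e), smul_zero]
    rw [h2, Helper28_PB.del_zero_cons, mul_zero]

/-- Lower bound for the coefficient. -/
theorem coeff_lower {K : Set E} (hK : IsCompact K) (hc : Convex ℝ K) (hne : K.Nonempty)
    (w₁ w₂ : E) {k : ℕ} (g : Fin k → E) {η δ₀ : ℝ} (hδ₀ : 0 ≤ δ₀)
    (hsep : ∀ i j, i ≠ j → 2 * η ≤ ‖g i - g j‖)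
    (hdel : ∀ h : Fin k → E, (∀ j, ‖h j - g j‖ < η) → δ₀ ≤ Del (List.ofFn h) K w₁ w₂)
    (T : Finset E) (m : E → ℝ) (hm : ∀ p, 0 ≤ m p) (μ : Fin k → ℝ) (hμ : ∀ j, 0 ≤ μ j)
    [∀ j, DecidablePred (fun p : E => ‖p - g j‖ < η)]
    (hT : ∀ j, μ j ≤ ∑ p ∈ T.filter (fun p => ‖p - g j‖ < η), m p) :
    δ₀ * ∏ j, μ j ≤ ∑ s ∈ T.powersetCard k, (∏ p ∈ s, m p) * Del s.toList K w₁ w₂ := by
  classical
  set U : Fin k → Finset E := fun j => T.filter (fun p => ‖p - g j‖ < η) with hU
  set P := Fintype.piFinset U with hP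
  have hinj : ∀ f ∈ P, Function.Injective f := by
    intro f hf i j hij
    by_contra hne'
    have hi : ‖f i - g i‖ < η := (Finset.mem_filter.mp (Fintype.mem_piFinset.mp hf i)).2
    have hj : ‖f j - g j‖ < η := (Finset.mem_filter.mp (Fintype.mem_piFinset.mp hf j)).2
    have h1 := hsep i j hne'
    have h2 : g i - g j = (f j - g j) - (f i - g i) := by rw [hij]; abel
    have h3 : ‖g i - g j‖ ≤ ‖f j - g j‖ + ‖f i - g i‖ := by rw [h2]; exact norm_sub_le _ _
    linarith
  set Φ : (Fin k → E) → Finset E := fun f => Finset.univ.image f with hΦ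
  have hΦinj : Set.InjOn Φ (P : Set (Fin k → E)) := by
    intro f hf f' hf' hff'
    funext i
    have h1 : f i ∈ Φ f' := by
      rw [← hff', hΦ]
      exact Finset.mem_image_of_mem f (Finset.mem_univ i)
    obtain ⟨j, _, hj⟩ := Finset.mem_image.mp h1
    have hi : ‖f i - g i‖ < η :=
      (Finset.mem_filter.mp (Fintype.mem_piFinset.mp (Finset.mem_coe.mp hf) i)).2
    have hj' : ‖f' j - g j‖ < η :=
      (Finset.mem_filter.mp (Fintype.mem_piFinset.mp (Finset.mem_coe.mp hf') j)).2
    by_cases hij : i = j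
    · subst hij; exact hj.symm
    · exfalso
      have h2 := hsep i j hij
      have h3 : g i - g j = (f' j - g j) - (f i - g i) := by rw [hj]; abel
      have h4 : ‖g i - g j‖ ≤ ‖f' j - g j‖ + ‖f i - g i‖ := by rw [h3]; exact norm_sub_le _ _
      linarith
  have hΦmem : P.image Φ ⊆ T.powersetCard k := by
    intro s hs
    obtain ⟨f, hf, rfl⟩ := Finset.mem_image.mp hs
    rw [Finset.mem_powersetCard]
    refine ⟨?_, ?_⟩
    · intro p hp
      obtain ⟨j, _, rfl⟩ := Finset.mem_image.mp hp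
      exact (Finset.mem_filter.mp (Fintype.mem_piFinset.mp hf j)).1
    · rw [hΦ]
      simp only
      rw [Finset.card_image_of_injective _ (hinj f hf), Finset.card_univ, Fintype.card_fin]
  calc δ₀ * ∏ j, μ j ≤ δ₀ * ∏ j, ∑ p ∈ U j, m p := by
        refine mul_le_mul_of_nonneg_left ?_ hδ₀
        exact Finset.prod_le_prod (fun j _ => hμ j) (fun j _ => hT j)
    _ = δ₀ * ∑ f ∈ P, ∏ j, m (f j) := by rw [Finset.prod_univ_sum]
    _ = ∑ f ∈ P, (∏ j, m (f j)) * δ₀ := by rw [Finset.mul_sum]; simp_rw [mul_comm δ₀]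
    _ ≤ ∑ f ∈ P, (∏ p ∈ Φ f, m p) * Del (Φ f).toList K w₁ w₂ := by
        refine Finset.sum_le_sum ?_
        intro f hf
        have h1 : ∏ p ∈ Φ f, m p = ∏ j, m (f j) := by
          rw [hΦ]
          simp only
          rw [Finset.prod_image]
          intro i _ j _ hij
          exact hinj f hf hij
        have h2 : Del (Φ f).toList K w₁ w₂ = Del (List.ofFn f) K w₁ w₂ := by
          refine Helper28_PB.perm _ _ ?_ K w₁ w₂
          refine List.perm_of_nodup_nodup_toFinset_eq (Finset.nodup_toList _)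
            (List.nodup_ofFn.mpr (hinj f hf)) ?_
          ext p
          simp [hΦ, List.mem_ofFn]
        rw [h1, h2]
        refine mul_le_mul_of_nonneg_left ?_ (Finset.prod_nonneg (fun j _ => hm _))
        exact hdel f (fun j => (Finset.mem_filter.mp (Fintype.mem_piFinset.mp hf j)).2)
    _ = ∑ s ∈ P.image Φ, (∏ p ∈ s, m p) * Del s.toList K w₁ w₂ := by
        rw [Finset.sum_image hΦinj]
    _ ≤ _ := by
        refine Finset.sum_le_sum_of_subset_of_nonneg hΦmem ?_
        intro s _ _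
        exact mul_nonneg (Finset.prod_nonneg (fun p _ => hm p))
          (Helper28_PB.nonneg _ K hK hc hne w₁ w₂)

/-- The defect of `K + Z` as a polynomial. -/
theorem defect_poly {K : Set E} (hK : IsCompact K) (hc : Convex ℝ K) (hne : K.Nonempty)
    (w₁ w₂ : E) (T : Finset E) (m : E → ℝ) (hm : ∀ p, 0 ≤ m p) {r : ℝ} (hr : 0 ≤ r) :
    defect (K + ∑ p ∈ T, segment ℝ (0 : E) ((r * m p) • p)) w₁ w₂ =
      ∑ j ∈ Finset.range (finrank ℝ E),
        (∑ s ∈ T.powersetCard j, (∏ p ∈ s, m p) * Del s.toList K w₁ w₂) * r ^ j := by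
  classical
  rw [defect_sum Helper28_PB.hom Helper28_PB.perm m w₁ w₂ hr T K hK hc hne (fun p _ => hm p),
    Finset.sum_powerset]
  have h1 : ∀ j, ∑ s ∈ T.powersetCard j, r ^ s.card * (∏ p ∈ s, m p) * Del s.toList K w₁ w₂ =
      (∑ s ∈ T.powersetCard j, (∏ p ∈ s, m p) * Del s.toList K w₁ w₂) * r ^ j := by
    intro j
    rw [Finset.sum_mul]
    refine Finset.sum_congr rfl ?_
    intro s hs
    rw [(Finset.mem_powersetCard.mp hs).2]
    ring
  simp_rw [h1]
  set f : ℕ → ℝ := fun j =>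
    (∑ s ∈ T.powersetCard j, (∏ p ∈ s, m p) * Del s.toList K w₁ w₂) * r ^ j with hf
  have hz1 : ∀ j, T.card < j → f j = 0 := by
    intro j hj
    rw [hf]
    simp only
    rw [Finset.powersetCard_eq_empty.mpr hj, Finset.sum_empty, zero_mul]
  have hz2 : ∀ j, finrank ℝ E ≤ j → f j = 0 := by
    intro j hj
    rw [hf]
    simp only
    rw [Finset.sum_eq_zero, zero_mul]
    intro s hs
    rw [Helper28_PB.zero s.toList K hK hc hne w₁ w₂ (by
      rw [Finset.length_toList, (Finset.mem_powersetCard.mp hs).2]; exact hj), mul_zero]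
  have e1 : ∑ j ∈ Finset.range (T.card + 1), f j =
      ∑ j ∈ Finset.range (max (T.card + 1) (finrank ℝ E)), f j := by
    refine Finset.sum_subset (Finset.range_mono (le_max_left _ _)) ?_
    intro j _ hj
    rw [Finset.mem_range, not_lt] at hj
    exact hz1 j (by omega)
  have e2 : ∑ j ∈ Finset.range (finrank ℝ E), f j =
      ∑ j ∈ Finset.range (max (T.card + 1) (finrank ℝ E)), f j := by
    refine Finset.sum_subset (Finset.range_mono (le_max_right _ _)) ?_
    intro j _ hj
    rw [Finset.mem_range, not_lt] at hj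
    exact hz2 j hj
  rw [e1, e2]

/-- MAIN. -/
theorem del_main (cont : DelContStmt) {K : Set E} (hK : IsCompact K) (hc : Convex ℝ K)
    (hi : (interior K).Nonempty) (w₁ w₂ : E)
    (hcont : ∀ w : E, ContinuousOn (fun r : ℝ => segVol (K + Metric.closedBall (0 : E) r) w)
      (Ici 0)) (d : ℕ → ℝ)
    (hd : ∀ r : ℝ, 0 ≤ r → defect (K + Metric.closedBall (0 : E) r) w₁ w₂ =
      ∑ j ∈ Finset.range (finrank ℝ E), d j * r ^ j)
    {k : ℕ} (hk : k < finrank ℝ E) (hdk : d k = 0) (g : Fin k → E) :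
    Del (List.ofFn g) K w₁ w₂ = 0 := by
  classical
  have hne : K.Nonempty := hi.mono interior_subset
  by_contra hcon
  have hpos : 0 < Del (List.ofFn g) K w₁ w₂ :=
    lt_of_le_of_ne (Helper28_PB.nonneg _ K hK hc hne w₁ w₂) (Ne.symm hcon)
  have hginj : Function.Injective g := by
    by_contra hni
    exact hcon (del_of_duplicate hK hc hne (fun h => hni (List.nodup_ofFn.mp h)) w₁ w₂)
  have hnt : Nontrivial E := Module.nontrivial_of_finrank_pos (R := ℝ) (by omega)
  -- η from continuity and separation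
  have hC := cont k K hK hc hi w₁ w₂
  set δ₀ := Del (List.ofFn g) K w₁ w₂ / 2 with hδ₀
  have hδ₀pos : 0 < δ₀ := by positivity
  obtain ⟨η₁, hη₁, hη₁'⟩ : ∃ η₁ : ℝ, 0 < η₁ ∧ ∀ h : Fin k → E, (∀ j, ‖h j - g j‖ < η₁) →
      δ₀ ≤ Del (List.ofFn h) K w₁ w₂ := by
    have h1 : {h : Fin k → E | δ₀ < Del (List.ofFn h) K w₁ w₂} ∈ 𝓝 g := by
      refine (isOpen_lt continuous_const hC).mem_nhds ?_
      show δ₀ < Del (List.ofFn g) K w₁ w₂
      rw [hδ₀]
      linarith
    obtain ⟨η, hη, hηs⟩ := Metric.mem_nhds_iff.mp h1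
    refine ⟨η, hη, ?_⟩
    intro h hh
    have h2 : h ∈ Metric.ball g η := by
      rw [Metric.mem_ball, dist_pi_lt_iff hη]
      intro j
      rw [dist_eq_norm]
      exact hh j
    exact (hηs h2).le
  obtain ⟨η₂, hη₂, hη₂'⟩ : ∃ η₂ : ℝ, 0 < η₂ ∧ ∀ i j, i ≠ j → 2 * η₂ ≤ ‖g i - g j‖ := by
    set Sij : Finset (Fin k × Fin k) := Finset.univ.filter (fun p => p.1 ≠ p.2) with hSij
    rcases Sij.eq_empty_or_nonempty with h | h
    · refine ⟨1, one_pos, ?_⟩
      intro i j hij
      exfalso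
      have : (i, j) ∈ Sij := by rw [hSij]; simp [hij]
      rw [h] at this
      simp at this
    · obtain ⟨p, hp, hmin⟩ := Sij.exists_min_image (fun p => ‖g p.1 - g p.2‖) h
      have hpne : p.1 ≠ p.2 := (Finset.mem_filter.mp hp).2
      have hppos : 0 < ‖g p.1 - g p.2‖ := norm_pos_iff.mpr (sub_ne_zero.mpr (hginj.ne hpne))
      refine ⟨‖g p.1 - g p.2‖ / 2, by positivity, ?_⟩
      intro i j hij
      have := hmin (i, j) (by rw [hSij]; simp [hij])
      linarith
  set η := min η₁ η₂ with hη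
  have hηpos : 0 < η := lt_min hη₁ hη₂
  have hsep : ∀ i j, i ≠ j → 2 * η ≤ ‖g i - g j‖ := fun i j hij =>
    (mul_le_mul_of_nonneg_left (min_le_right _ _) (by norm_num)).trans (hη₂' i j hij)
  have hdel : ∀ h : Fin k → E, (∀ j, ‖h j - g j‖ < η) → δ₀ ≤ Del (List.ofFn h) K w₁ w₂ :=
    fun h hh => hη₁' h (fun j => lt_of_lt_of_le (hh j) (min_le_left _ _))
  -- the big ball
  set R := ∑ j, ‖g j‖ + η with hR
  have hRpos : 0 < R := by positivity
  have hball : ∀ j, Metric.ball (g j) (η / 2) ⊆ Metric.closedBall (0 : E) R := by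
    intro j x hx
    rw [Metric.mem_ball, dist_eq_norm] at hx
    rw [Metric.mem_closedBall, dist_zero_right]
    have h1 : x = (x - g j) + g j := by abel
    have h2 : ‖x‖ ≤ ‖x - g j‖ + ‖g j‖ := by
      conv_lhs => rw [h1]
      exact norm_add_le _ _
    have h3 : ‖g j‖ ≤ ∑ j, ‖g j‖ :=
      Finset.single_le_sum (f := fun j => ‖g j‖) (fun i _ => norm_nonneg _) (Finset.mem_univ j)
    linarith
  obtain ⟨c, hcpos, hcint⟩ := exists_mean_const (E := E) hRpos
  set Vol := (volume (Metric.closedBall (0 : E) R)).toReal with hVol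
  have hVol0 : 0 ≤ Vol := ENNReal.toReal_nonneg
  set δ : ℕ → ℝ := fun N => min (η / 2) (c / ((Vol + 1) * (N + 2))) with hδ
  have hδpos : ∀ N, 0 < δ N := fun N => lt_min (by positivity) (by positivity)
  choose φ hφ using fun N => exists_simple (E := E) R (hδpos N)
  set T : ℕ → Finset E := fun N => (φ N).range with hT
  set m : ℕ → E → ℝ := fun N => wt R (φ N) with hm
  have hm0 : ∀ N p, 0 ≤ m N p := fun N p => wt_nonneg R (φ N) p
  set ε : ℕ → ℝ := fun N => δ N * Vol with hε
  have hε0 : ∀ N, 0 ≤ ε N := fun N => mul_nonneg (hδpos N).le hVol0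
  have hεle : ∀ N, ε N ≤ c / (N + 2) := by
    intro N
    have h1 : δ N ≤ c / ((Vol + 1) * (N + 2)) := min_le_right _ _
    have h2 : ε N ≤ c / ((Vol + 1) * (N + 2)) * Vol := mul_le_mul_of_nonneg_right h1 hVol0
    have h3 : c / ((Vol + 1) * (N + 2)) * Vol ≤ c / (N + 2) := by
      rw [div_mul_eq_mul_div, div_le_div_iff₀ (by positivity) (by positivity)]
      have : (0 : ℝ) < N + 2 := by positivity
      nlinarith [mul_pos hcpos this]
    exact h2.trans h3
  have hεlim : Filter.Tendsto ε Filter.atTop (𝓝 0) := by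
    refine squeeze_zero hε0 hεle ?_
    have h1 : Filter.Tendsto (fun N : ℕ => (N : ℝ) + 2) Filter.atTop Filter.atTop :=
      Filter.tendsto_atTop_add_const_right _ _ tendsto_natCast_atTop_atTop
    exact h1.const_div_atTop c
  -- the zonotopes
  have hincl : ∀ N (r : ℝ), 0 ≤ r →
      Metric.closedBall (0 : E) (r * (c - ε N)) ⊆
        ∑ p ∈ T N, segment ℝ (0 : E) ((r * m N p) • p) ∧
      (∑ p ∈ T N, segment ℝ (0 : E) ((r * m N p) • p)) ⊆
        Metric.closedBall (0 : E) (r * (c + ε N)) := by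
    intro N r hr
    obtain ⟨z1, z2, z3, z4⟩ := zono_props (T N) (fun p => r * m N p)
    have h1 : ∀ u : E, supportFn (∑ p ∈ T N, segment ℝ (0 : E) ((r * m N p) • p)) u =
        r * ∑ p ∈ T N, m N p * max ⟪p, u⟫ 0 := by
      intro u
      rw [z4 u, Finset.mul_sum]
      refine Finset.sum_congr rfl ?_
      intro p _
      have h0 : 0 ≤ r * m N p := mul_nonneg hr (hm0 N p)
      rw [real_inner_smul_left, ← mul_assoc, mul_max_of_nonneg _ _ h0, mul_zero]
    have h2 : ∀ u : E, |∑ p ∈ T N, m N p * max ⟪p, u⟫ 0 - c * ‖u‖| ≤ ε N * ‖u‖ := fun u =>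
      sum_wt_approx hcint (hφ N) u
    constructor
    · refine closedBall_subset_of_support z1 z2 z3 ?_
      intro u
      rw [h1 u, mul_assoc]
      refine mul_le_mul_of_nonneg_left ?_ hr
      have := (abs_le.mp (h2 u)).1
      rw [sub_mul]
      linarith
    · refine subset_closedBall_of_support z1 ?_ ?_
      · exact mul_nonneg hr (by have := hε0 N; linarith)
      · intro u
        rw [h1 u, mul_assoc]
        refine mul_le_mul_of_nonneg_left ?_ hr
        have := (abs_le.mp (h2 u)).2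
        rw [add_mul]
        linarith
  have hclt : ∀ N, ε N ≤ c := by
    intro N
    refine (hεle N).trans ?_
    rw [div_le_iff₀ (by positivity)]
    have : (0 : ℝ) ≤ N := Nat.cast_nonneg N
    nlinarith
  -- convergence of segVol
  have hseg : ∀ (w : E) (r : ℝ), 0 ≤ r → Filter.Tendsto (fun N =>
      segVol (K + ∑ p ∈ T N, segment ℝ (0 : E) ((r * m N p) • p)) w) Filter.atTop
      (𝓝 (segVol (K + Metric.closedBall (0 : E) (r * c)) w)) := by
    intro w r hr
    have hbc : ∀ s : ℝ, IsCompact (K + Metric.closedBall (0 : E) s) := fun s =>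
      hK.add (isCompact_closedBall 0 s)
    have hbv : ∀ s : ℝ, Convex ℝ (K + Metric.closedBall (0 : E) s) := fun s =>
      hc.add (convex_closedBall 0 s)
    have hat : ContinuousWithinAt (fun r : ℝ => segVol (K + Metric.closedBall (0 : E) r) w)
        (Ici 0) (r * c) := hcont w (r * c) (mul_nonneg hr hcpos.le)
    have hl : Filter.Tendsto (fun N => segVol (K + Metric.closedBall (0 : E) (r * (c - ε N))) w)
        Filter.atTop (𝓝 (segVol (K + Metric.closedBall (0 : E) (r * c)) w)) := by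
      refine Filter.Tendsto.comp hat ?_
      refine tendsto_nhdsWithin_iff.mpr ⟨?_, Filter.Eventually.of_forall ?_⟩
      · have := (hεlim.const_sub c).const_mul r
        rwa [sub_zero] at this
      · intro N
        exact mul_nonneg hr (by have := hclt N; linarith)
    have hu : Filter.Tendsto (fun N => segVol (K + Metric.closedBall (0 : E) (r * (c + ε N))) w)
        Filter.atTop (𝓝 (segVol (K + Metric.closedBall (0 : E) (r * c)) w)) := by
      refine Filter.Tendsto.comp hat ?_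
      refine tendsto_nhdsWithin_iff.mpr ⟨?_, Filter.Eventually.of_forall ?_⟩
      · have := (hεlim.const_add c).const_mul r
        rwa [add_zero] at this
      · intro N
        exact mul_nonneg hr (by have := hε0 N; linarith)
    refine tendsto_of_tendsto_of_tendsto_of_le_of_le hl hu ?_ ?_
    · intro N
      obtain ⟨z1, z2, _, _⟩ := zono_props (T N) (fun p => r * m N p)
      exact segVol_mono (hbc _) (hbv _) (hK.add z1) (hc.add z2)
        (add_subset_add_left (hincl N r hr).1) w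
    · intro N
      obtain ⟨z1, z2, _, _⟩ := zono_props (T N) (fun p => r * m N p)
      exact segVol_mono (hK.add z1) (hc.add z2) (hbc _) (hbv _)
        (add_subset_add_left (hincl N r hr).2) w
  -- coefficients
  set a : ℕ → ℕ → ℝ := fun N j =>
    ∑ s ∈ (T N).powersetCard j, (∏ p ∈ s, m N p) * Del s.toList K w₁ w₂ with ha
  have hlim : ∀ r : ℝ, 0 ≤ r → Filter.Tendsto
      (fun N => ∑ j ∈ Finset.range (finrank ℝ E), a N j * r ^ j) Filter.atTop
      (𝓝 (∑ j ∈ Finset.range (finrank ℝ E), (d j * c ^ j) * r ^ j)) := by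
    intro r hr
    have h1 : ∀ N, ∑ j ∈ Finset.range (finrank ℝ E), a N j * r ^ j =
        defect (K + ∑ p ∈ T N, segment ℝ (0 : E) ((r * m N p) • p)) w₁ w₂ := fun N =>
      (defect_poly hK hc hne w₁ w₂ (T N) (m N) (hm0 N) hr).symm
    simp_rw [h1]
    have h2 : ∑ j ∈ Finset.range (finrank ℝ E), (d j * c ^ j) * r ^ j =
        defect (K + Metric.closedBall (0 : E) (r * c)) w₁ w₂ := by
      rw [hd (r * c) (mul_nonneg hr hcpos.le)]
      refine Finset.sum_congr rfl ?_
      intro j _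
      rw [mul_pow]
      ring
    rw [h2]
    exact ((hseg w₁ r hr).add (hseg w₂ r hr)).sub (hseg (w₁ + w₂) r hr)
  have hlimk := tendsto_coeff hlim hk
  rw [hdk, zero_mul] at hlimk
  set μ : Fin k → ℝ := fun j => (volume (Metric.ball (g j) (η / 2))).toReal with hμ
  have hμpos : ∀ j, 0 < μ j := fun j =>
    ENNReal.toReal_pos (Metric.measure_ball_pos _ _ (by positivity)).ne' measure_ball_lt_top.ne
  have hlow : ∀ N, δ₀ * ∏ j, μ j ≤ a N k := by
    intro N
    refine coeff_lower hK hc hne w₁ w₂ g hδ₀pos.le hsep hdel (T N) (m N) (hm0 N) μ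
      (fun j => (hμpos j).le) ?_
    intro j
    exact le_sum_wt (hφ N) (min_le_left _ _) (hball j)
  have hfin : δ₀ * ∏ j, μ j ≤ 0 := ge_of_tendsto' hlimk hlow
  have : 0 < δ₀ * ∏ j, μ j := mul_pos hδ₀pos (Finset.prod_pos (fun j _ => hμpos j))
  linarith

end Pool.Agent.Helper55_PB
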