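import Pool.Agent.Helper55_PB.Strict
import Pool.Agent.Helper55_PB.Hull

open MeasureTheory Module Set
open scoped RealInnerProductSpace Pointwise Topology

namespace Pool.Agent.Helper55_PB

variable {E : Type*} [NormedAddCommGroup E] [InnerProductSpace ℝ E]

/-! ### Support functions -/

theorem bddAbove_support {K : Set E} (hK : IsCompact K) (u : E) :
    BddAbove ((fun x => ⟪x, u⟫) '' K) :=
  (hK.image (by fun_prop)).bddAbove

theorem inner_le_supportFn {K : Set E} (hK : IsCompact K) {x : E} (hx : x ∈ K) (u : E) :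
    ⟪x, u⟫ ≤ supportFn K u :=
  le_csSup (bddAbove_support hK u) ⟨x, hx, rfl⟩

theorem supportFn_le {K : Set E} (hne : K.Nonempty) {u : E} {a : ℝ}
    (h : ∀ x ∈ K, ⟪x, u⟫ ≤ a) : supportFn K u ≤ a := by
  refine csSup_le (hne.image _) ?_
  rintro _ ⟨x, hx, rfl⟩
  exact h x hx

theorem exists_supportFn {K : Set E} (hK : IsCompact K) (hne : K.Nonempty) (u : E) :
    ∃ x ∈ K, ⟪x, u⟫ = supportFn K u := by
  obtain ⟨x, hx, h⟩ := (hK.image (f := fun x => ⟪x, u⟫) (by fun_prop)).sSup_mem (hne.image _)
  exact ⟨x, hx, h⟩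

theorem supportFn_eq {K : Set E} (hK : IsCompact K) {x : E} (hx : x ∈ K) {u : E}
    (h : ∀ z ∈ K, ⟪z, u⟫ ≤ ⟪x, u⟫) : supportFn K u = ⟪x, u⟫ :=
  le_antisymm (supportFn_le ⟨x, hx⟩ h) (inner_le_supportFn hK hx u)

theorem supportFn_add_le {K : Set E} (hK : IsCompact K) (hne : K.Nonempty) (u v : E) :
    supportFn K (u + v) ≤ supportFn K u + supportFn K v := by
  refine supportFn_le hne ?_
  intro x hx
  rw [inner_add_right]
  exact add_le_add (inner_le_supportFn hK hx u) (inner_le_supportFn hK hx v)

theorem supportFn_smul {K : Set E} (hK : IsCompact K) (hne : K.Nonempty) {t : ℝ} (ht : 0 ≤ t)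
    (u : E) : supportFn K (t • u) = t * supportFn K u := by
  obtain ⟨x, hx, h⟩ := exists_supportFn hK hne u
  rw [← h, supportFn_eq hK hx, inner_smul_right]
  intro z hz
  rw [inner_smul_right, inner_smul_right]
  have := inner_le_supportFn hK hz u
  rw [← h] at this
  gcongr

theorem supportFn_zero {K : Set E} (hK : IsCompact K) (hne : K.Nonempty) :
    supportFn K (0 : E) = 0 := by
  have := supportFn_smul hK hne (le_refl (0 : ℝ)) (0 : E)
  simpa using this

theorem le_supportFn_of_ball {K : Set E} (hK : IsCompact K) {ρ : ℝ} (hρ : 0 ≤ ρ)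
    (hb : Metric.closedBall (0 : E) ρ ⊆ K) (u : E) : ρ * ‖u‖ ≤ supportFn K u := by
  by_cases hu : u = 0
  · subst hu
    rw [norm_zero, mul_zero]
    rw [supportFn_zero hK ⟨0, hb (by simpa using hρ)⟩]
  · have hn : ‖u‖ ≠ 0 := norm_ne_zero_iff.mpr hu
    have hmem : (ρ / ‖u‖) • u ∈ K := by
      apply hb
      rw [Metric.mem_closedBall, dist_zero_right, norm_smul, Real.norm_of_nonneg (by positivity)]
      field_simp
      exact le_refl _
    have := inner_le_supportFn hK hmem u
    rw [real_inner_smul_left, real_inner_self_eq_norm_sq] at this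
    calc ρ * ‖u‖ = ρ / ‖u‖ * ‖u‖ ^ 2 := by field_simp
      _ ≤ _ := this

theorem continuous_supportFn {K : Set E} (hK : IsCompact K) (hne : K.Nonempty) :
    Continuous (supportFn K) := by
  obtain ⟨R, hR⟩ := hK.isBounded.exists_norm_le
  have hR0 : 0 ≤ R := by
    obtain ⟨x, hx⟩ := hne
    exact (norm_nonneg x).trans (hR x hx)
  have hlip : ∀ u v : E, supportFn K u ≤ supportFn K v + R * ‖u - v‖ := by
    intro u v
    refine supportFn_le hne ?_
    intro x hx
    have h1 : ⟪x, u⟫ = ⟪x, v⟫ + ⟪x, u - v⟫ := by rw [inner_sub_right]; ring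
    rw [h1]
    have h2 : ⟪x, u - v⟫ ≤ ‖x‖ * ‖u - v‖ := real_inner_le_norm _ _
    have h3 : ‖x‖ * ‖u - v‖ ≤ R * ‖u - v‖ := by gcongr; exact hR x hx
    linarith [inner_le_supportFn hK hx v]
  have : LipschitzWith (Real.toNNReal R) (supportFn K) := by
    refine LipschitzWith.of_dist_le_mul ?_
    intro u v
    rw [Real.dist_eq, Real.coe_toNNReal R hR0, dist_eq_norm, abs_le]
    constructor
    · have := hlip v u
      rw [norm_sub_rev] at this
      linarith
    · have := hlip u v
      linarith
  exact this.continuous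

/-! ### Inner ball normals -/

/-- Unit outer normals at boundary points which lie on a ball contained in `K`. -/
def innerNormals (K : Set E) : Set E :=
  {v | ‖v‖ = 1 ∧ ∃ x ∈ K, ∃ r : ℝ, 0 < r ∧ Metric.closedBall (x - r • v) r ⊆ K ∧
    ∀ z ∈ K, ⟪z, v⟫ ≤ ⟪x, v⟫}

omit [InnerProductSpace ℝ E] in
theorem exists_ball_zero {K : Set E} (h0 : (0 : E) ∈ interior K) :
    ∃ ρ : ℝ, 0 < ρ ∧ Metric.closedBall (0 : E) ρ ⊆ K := by
  obtain ⟨ε, hε, hb⟩ := Metric.mem_nhds_iff.mp (mem_interior_iff_mem_nhds.mp h0)
  exact ⟨ε / 2, by positivity, (Metric.closedBall_subset_ball (by linarith)).trans hb⟩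

/-- Points outside `K` are separated from `K` by an inner ball normal. -/
theorem exists_innerNormal [ProperSpace E] {K : Set E} (hK : IsCompact K) (hc : Convex ℝ K)
    (h0 : (0 : E) ∈ interior K) {y : E} (hy : y ∉ K) :
    ∃ v ∈ innerNormals K, supportFn K v < ⟪y, v⟫ := by
  obtain ⟨ρ, hρ, hρK⟩ := exists_ball_zero h0
  have hy0 : y ≠ 0 := by
    rintro rfl
    exact hy (interior_subset h0)
  have hyn : 0 < ‖y‖ := norm_pos_iff.mpr hy0
  -- the last point of the segment in K
  have hTc : IsCompact (Icc (0 : ℝ) 1 ∩ {t : ℝ | t • y ∈ K}) := by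
    refine isCompact_Icc.inter_right (hK.isClosed.preimage ?_)
    fun_prop
  have hTne : (Icc (0 : ℝ) 1 ∩ {t : ℝ | t • y ∈ K}).Nonempty :=
    ⟨0, by simp, by simpa using interior_subset h0⟩
  obtain ⟨ts, ⟨⟨hts0, hts1⟩, htsK⟩, htsmax⟩ := hTc.exists_isMaxOn hTne continuousOn_id
  have htsK' : ts • y ∈ K := htsK
  have hmax : ∀ t : ℝ, 0 ≤ t → t ≤ 1 → t • y ∈ K → t ≤ ts := by
    intro t h1 h2 h3
    exact htsmax ⟨⟨h1, h2⟩, h3⟩
  have hts_lt : ts < 1 := by
    refine lt_of_le_of_ne hts1 ?_
    rintro rfl
    rw [one_smul] at htsK'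
    exact hy htsK'
  have hts_pos : 0 < ts := by
    have h1 : min (ρ / ‖y‖) 1 ≤ ts := by
      refine hmax _ (by positivity) (min_le_right _ _) (hρK ?_)
      rw [Metric.mem_closedBall, dist_zero_right, norm_smul, Real.norm_of_nonneg (by positivity)]
      calc min (ρ / ‖y‖) 1 * ‖y‖ ≤ (ρ / ‖y‖) * ‖y‖ := by gcongr; exact min_le_left _ _
        _ = ρ := by field_simp
    exact lt_of_lt_of_le (by positivity) h1
  -- choose t₀ slightly smaller than ts
  set gap := ρ * (1 - ts) / 4 with hgap
  have hgap_pos : 0 < gap := by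
    have : 0 < 1 - ts := by linarith
    positivity
  obtain ⟨t₀, ht00, ht0s, ht0g⟩ : ∃ t₀ : ℝ, 0 < t₀ ∧ t₀ < ts ∧ (ts - t₀) * ‖y‖ ≤ gap := by
    refine ⟨max (ts / 2) (ts - gap / ‖y‖), ?_, ?_, ?_⟩
    · exact lt_of_lt_of_le (by positivity) (le_max_left _ _)
    · refine max_lt (by linarith) ?_
      have : 0 < gap / ‖y‖ := by positivity
      linarith
    · have : ts - max (ts / 2) (ts - gap / ‖y‖) ≤ gap / ‖y‖ := by
        have := le_max_right (ts / 2) (ts - gap / ‖y‖)
        linarith
      calc (ts - max (ts / 2) (ts - gap / ‖y‖)) * ‖y‖ ≤ (gap / ‖y‖) * ‖y‖ := by gcongr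
        _ = gap := by field_simp
  set p := t₀ • y with hp
  have hpint : p ∈ interior K := by
    have h1 : (1 - t₀ / ts) • (0 : E) + (t₀ / ts) • (ts • y) ∈ interior K := by
      refine hc.combo_interior_self_mem_interior h0 htsK' ?_ (by positivity) (by ring)
      have : t₀ / ts < 1 := by rw [div_lt_one hts_pos]; exact ht0s
      linarith
    have h2 : (1 - t₀ / ts) • (0 : E) + (t₀ / ts) • (ts • y) = p := by
      rw [smul_zero, zero_add, smul_smul, div_mul_cancel₀ _ hts_pos.ne']
    rw [h2] at h1
    exact h1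
  -- nearest point of the complement of the interior
  set C := (interior K)ᶜ with hC
  have hCcl : IsClosed C := isOpen_interior.isClosed_compl
  have hCne : C.Nonempty := ⟨y, fun h => hy (interior_subset h)⟩
  obtain ⟨x, hxC, hxd⟩ := hCcl.exists_infDist_eq_dist hCne p
  set r := Metric.infDist p C with hr
  have hr_pos : 0 < r := (hCcl.notMem_iff_infDist_pos hCne).mp (fun h => h hpint)
  have hball_open : Metric.ball p r ⊆ interior K := by
    intro z hz
    by_contra hcon
    have h1 : Metric.infDist p C ≤ dist p z := Metric.infDist_le_dist_of_mem hcon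
    rw [Metric.mem_ball, dist_comm] at hz
    linarith
  have hball : Metric.closedBall p r ⊆ K := by
    rw [← closure_ball p hr_pos.ne']
    exact closure_minimal (hball_open.trans interior_subset) hK.isClosed
  have hxK : x ∈ K := by
    apply hball
    rw [Metric.mem_closedBall, dist_comm, ← hxd]
  have hxp : ‖x - p‖ = r := by rw [← dist_eq_norm, dist_comm, ← hxd]
  -- bound on r
  have hr_le : r ≤ gap := by
    have hlim : ∀ t : ℝ, ts < t → t ≤ 1 → r ≤ (t - t₀) * ‖y‖ := by
      intro t h1 h2
      have h3 : t • y ∈ C := by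
        intro h
        have := hmax t (by linarith) h2 (interior_subset h)
        linarith
      have h4 : r ≤ dist p (t • y) := Metric.infDist_le_dist_of_mem h3
      rw [dist_eq_norm, hp, ← sub_smul, norm_smul, Real.norm_eq_abs, abs_sub_comm,
        abs_of_nonneg (by linarith)] at h4
      exact h4
    have h5 : Filter.Tendsto (fun t : ℝ => (t - t₀) * ‖y‖) (𝓝[>] ts) (𝓝 ((ts - t₀) * ‖y‖)) := by
      have : Continuous (fun t : ℝ => (t - t₀) * ‖y‖) := by fun_prop
      exact (this.tendsto ts).mono_left nhdsWithin_le_nhds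
    have h6 : r ≤ (ts - t₀) * ‖y‖ := by
      refine ge_of_tendsto h5 ?_
      filter_upwards [Ioc_mem_nhdsGT hts_lt] with t ht
      exact hlim t ht.1 ht.2
    exact h6.trans ht0g
  set v := r⁻¹ • (x - p) with hv
  have hv1 : ‖v‖ = 1 := by
    rw [hv, norm_smul, hxp, norm_inv, Real.norm_of_nonneg hr_pos.le, inv_mul_cancel₀ hr_pos.ne']
  have hrv : r • v = x - p := by rw [hv, smul_smul, mul_inv_cancel₀ hr_pos.ne', one_smul]
  have hpx : x - r • v = p := by rw [hrv]; abel
  have hsup : ∀ z ∈ K, ⟪z, v⟫ ≤ ⟪x, v⟫ := by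
    intro z hz
    by_contra hcon
    push Not at hcon
    have hneg : ⟪-(z - x), v⟫ < 0 := by
      rw [inner_neg_left, inner_sub_left]
      linarith
    obtain ⟨s, hs0, hs⟩ : ∃ s : ℝ, 0 < s ∧ s * ‖-(z - x)‖ ^ 2 < -(2 * r * ⟪-(z - x), v⟫) := by
      have hpos : 0 < -(r * ⟪-(z - x), v⟫) := by nlinarith
      refine ⟨-(r * ⟪-(z - x), v⟫) / (‖-(z - x)‖ ^ 2 + 1), by positivity, ?_⟩
      have : -(r * ⟪-(z - x), v⟫) / (‖-(z - x)‖ ^ 2 + 1) * ‖-(z - x)‖ ^ 2 ≤
          -(r * ⟪-(z - x), v⟫) := by
        rw [div_mul_eq_mul_div, div_le_iff₀ (by positivity)]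
        nlinarith [sq_nonneg ‖-(z - x)‖]
      linarith
    have h1 := mem_ball_of_inner_neg (x := x) hr_pos hv1 hs0 hs
    rw [hpx] at h1
    have h2 := hball_open h1
    have h3 : (1 / (1 + s)) • (x + s • -(z - x)) + (s / (1 + s)) • z ∈ interior K :=
      hc.combo_interior_self_mem_interior h2 hz (by positivity) (by positivity) (by field_simp)
    have h4 : (1 / (1 + s)) • (x + s • -(z - x)) + (s / (1 + s)) • z = x := by
      have h5 : x = ((1 / (1 + s)) * (1 + s)) • x := by
        rw [one_div, inv_mul_cancel₀ (by positivity), one_smul]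
      have h6 : s / (1 + s) = (1 / (1 + s)) * s := by ring
      nth_rewrite 3 [h5]
      rw [h6]
      module
    rw [h4] at h3
    exact hxC h3
  refine ⟨v, ⟨hv1, x, hxK, r, hr_pos, ?_, hsup⟩, ?_⟩
  · rw [hpx]; exact hball
  · rw [supportFn_eq hK hxK hsup]
    have h1 : ⟪x, v⟫ = t₀ * ⟪y, v⟫ + r := by
      have : x = p + r • v := by rw [hrv]; abel
      rw [this, inner_add_left, hp, real_inner_smul_left, real_inner_smul_left,
        real_inner_self_eq_norm_sq, hv1]
      ring
    have h2 : ρ ≤ ⟪x, v⟫ := by
      have := le_supportFn_of_ball hK hρ.le hρK v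
      rw [hv1, mul_one, supportFn_eq hK hxK hsup] at this
      exact this
    have hts' : 0 < 1 - ts := by linarith
    have h3 : gap ≤ ρ / 4 := by rw [hgap]; nlinarith
    have h4 : ρ / 2 < t₀ * ⟪y, v⟫ := by linarith
    have h5 : ρ / 2 < ⟪y, v⟫ := by
      have : 0 < ⟪y, v⟫ := by
        by_contra hcon
        push Not at hcon
        nlinarith
      nlinarith
    have h6 : ρ / 2 * (1 - ts) < ⟪y, v⟫ * (1 - t₀) := by nlinarith
    rw [h1]
    nlinarith

/-! ### Indecomposable normals -/

/-- `w` is not a nontrivial sum of two vectors on which the support function is additive. -/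
def Indec (K : Set E) (w : E) : Prop :=
  ∀ w₁ w₂ : E, w₁ + w₂ = w → supportFn K w₁ + supportFn K w₂ = supportFn K w →
    ∃ t : ℝ, w₁ = t • w

theorem mem_closure_of_indec [FiniteDimensional ℝ E] {K : Set E} (hK : IsCompact K)
    (hc : Convex ℝ K) (h0 : (0 : E) ∈ interior K) {w : E} (hw : ‖w‖ = 1) (hind : Indec K w) :
    w ∈ closure (innerNormals K) := by
  obtain ⟨ρ, hρ, hρK⟩ := exists_ball_zero h0
  have hne : K.Nonempty := ⟨0, interior_subset h0⟩
  have hpos : ∀ u : E, ‖u‖ = 1 → 0 < supportFn K u := by
    intro u hu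
    have := le_supportFn_of_ball hK hρ.le hρK u
    rw [hu, mul_one] at this
    linarith
  set C := closure (innerNormals K) with hC
  have hCsub : ∀ v ∈ C, ‖v‖ = 1 := by
    intro v hv
    have h1 : IsClosed {v : E | ‖v‖ = 1} := isClosed_eq continuous_norm continuous_const
    exact closure_minimal (fun u hu => hu.1) h1 hv
  have hCc : IsCompact C := by
    refine Metric.isCompact_of_isClosed_isBounded isClosed_closure ?_
    refine (Metric.isBounded_closedBall (x := (0 : E)) (r := 1)).subset ?_
    intro v hv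
    rw [Metric.mem_closedBall, dist_zero_right, hCsub v hv]
  set Φ : E → E := fun v => (supportFn K v)⁻¹ • v with hΦ
  have hΦc : ContinuousOn Φ C := by
    refine ContinuousOn.smul ?_ continuousOn_id
    exact (continuous_supportFn hK hne).continuousOn.inv₀ (fun v hv => (hpos v (hCsub v hv)).ne')
  set A : Set E := insert 0 (Φ '' C) with hA
  have hAc : IsCompact A := (hCc.image_of_continuousOn hΦc).insert 0
  have hconvA : IsCompact (convexHull ℝ A) := isCompact_convexHull_of_isCompact hAc
  -- all elements of the convex hull have support value at most one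
  have hle1 : ∀ a ∈ convexHull ℝ A, supportFn K a ≤ 1 := by
    have hcv : Convex ℝ {a : E | supportFn K a ≤ 1} := by
      intro a ha b hb α β hα hβ hαβ
      have h1 := supportFn_add_le hK hne (α • a) (β • b)
      rw [supportFn_smul hK hne hα, supportFn_smul hK hne hβ] at h1
      have ha' : supportFn K a ≤ 1 := ha
      have hb' : supportFn K b ≤ 1 := hb
      show supportFn K (α • a + β • b) ≤ 1
      nlinarith
    refine convexHull_min ?_ hcv
    rintro a (rfl | ⟨v, hv, rfl⟩)
    · show supportFn K 0 ≤ 1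
      rw [supportFn_zero hK hne]
      exact zero_le_one
    · show supportFn K ((supportFn K v)⁻¹ • v) ≤ 1
      have := hpos v (hCsub v hv)
      rw [supportFn_smul hK hne (by positivity), inv_mul_cancel₀ this.ne']
  set q := (supportFn K w)⁻¹ • w with hq
  have hwpos := hpos w hw
  have hqw : supportFn K w • q = w := by
    rw [hq, smul_smul, mul_inv_cancel₀ hwpos.ne', one_smul]
  have hq1 : supportFn K q = 1 := by
    rw [hq, supportFn_smul hK hne (by positivity), inv_mul_cancel₀ hwpos.ne']
  -- q belongs to the convex hull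
  have hqmem : q ∈ convexHull ℝ A := by
    by_contra hcon
    obtain ⟨f, s, hf1, hf2⟩ := geometric_hahn_banach_closed_point (convex_convexHull ℝ A)
      hconvA.isClosed hcon
    have hs0 : 0 < s := by
      have := hf1 0 (subset_convexHull ℝ A (mem_insert _ _))
      simpa using this
    set z := (InnerProductSpace.toDual ℝ E).symm f with hz
    have hfz : ∀ a : E, f a = ⟪z, a⟫ := by
      intro a
      rw [hz, InnerProductSpace.toDual_symm_apply]
    have hzK : s⁻¹ • z ∈ K := by
      by_contra hcon2
      obtain ⟨v, hv, hvz⟩ := exists_innerNormal hK hc h0 hcon2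
      have hvC : v ∈ C := subset_closure hv
      have h1 := hf1 (Φ v) (subset_convexHull ℝ A (mem_insert_of_mem _ ⟨v, hvC, rfl⟩))
      have hvpos := hpos v hv.1
      rw [hfz, hΦ] at h1
      simp only [inner_smul_right] at h1
      rw [real_inner_smul_left] at hvz
      have h2 : supportFn K v * s < ⟪z, v⟫ := by
        rw [inv_mul_eq_div, lt_div_iff₀ hs0] at hvz
        exact hvz
      rw [inv_mul_eq_div, div_lt_iff₀ hvpos] at h1
      linarith
    have h3 := inner_le_supportFn hK hzK q
    rw [hq1, real_inner_smul_left, inv_mul_eq_div, div_le_one hs0, ← hfz] at h3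
    linarith
  -- q is an extreme point of the convex hull
  have hext : q ∈ (convexHull ℝ A).extremePoints ℝ := by
    rw [mem_extremePoints]
    refine ⟨hqmem, ?_⟩
    have main : ∀ a ∈ convexHull ℝ A, ∀ b ∈ convexHull ℝ A, q ∈ openSegment ℝ a b → a = q := by
      rintro a ha b hb ⟨α, β, hα, hβ, hαβ, hab⟩
      have ha1 := hle1 a ha
      have hb1 := hle1 b hb
      have h1 := supportFn_add_le hK hne (α • a) (β • b)
      rw [hab, hq1, supportFn_smul hK hne hα.le, supportFn_smul hK hne hβ.le] at h1
      have ha2 : supportFn K a = 1 := by nlinarith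
      have hb2 : supportFn K b = 1 := by nlinarith
      have hsum : (supportFn K w * α) • a + (supportFn K w * β) • b = w := by
        have h2 : supportFn K w • (α • a + β • b) = w := by rw [hab, hqw]
        rw [smul_add, smul_smul, smul_smul] at h2
        exact h2
      obtain ⟨t, ht⟩ := hind _ _ hsum (by
        rw [supportFn_smul hK hne (by positivity), supportFn_smul hK hne (by positivity),
          ha2, hb2]
        rw [mul_one, mul_one, ← mul_add, hαβ, mul_one])
      have hat : a = (t / α) • q := by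
        have h2 : (supportFn K w * α) • a = (t * supportFn K w) • q := by
          rw [ht, mul_smul, hqw]
        have h3 : a = (supportFn K w * α)⁻¹ • ((supportFn K w * α) • a) := by
          rw [smul_smul, inv_mul_cancel₀ (by positivity), one_smul]
        rw [h3, h2, smul_smul]
        congr 1
        field_simp
      have hbt : b = ((1 - t) / β) • q := by
        have h2 : β • b = (1 - t) • q := by
          have : β • b = q - α • a := by rw [← hab]; abel
          rw [this, hat, smul_smul, mul_div_cancel₀ _ hα.ne', sub_smul, one_smul]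
        have h3 : b = β⁻¹ • (β • b) := by rw [smul_smul, inv_mul_cancel₀ hβ.ne', one_smul]
        rw [h3, h2, smul_smul]
        congr 1
        field_simp
      have ht1 : t = α := by
        rcases le_or_gt 0 t with h | h
        · have : supportFn K a = t / α := by
            rw [hat, supportFn_smul hK hne (by positivity), hq1, mul_one]
          rw [ha2] at this
          field_simp at this
          linarith
        · exfalso
          have : supportFn K b = (1 - t) / β := by
            rw [hbt, supportFn_smul hK hne (by apply div_nonneg <;> linarith), hq1, mul_one]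
          rw [hb2] at this
          field_simp at this
          linarith
      rw [hat, ht1, div_self hα.ne', one_smul]
    intro a ha b hb hab
    refine ⟨main a ha b hb hab, main b hb a ha ?_⟩
    rw [openSegment_symm]
    exact hab
  -- hence q is one of the points of A
  have hqA := extremePoints_convexHull_subset hext
  rcases hqA with h | ⟨v, hv, hvq⟩
  · rw [h, supportFn_zero hK hne] at hq1
    exact absurd hq1 zero_ne_one
  · have hvpos := hpos v (hCsub v hv)
    have h1 : v = (supportFn K v * (supportFn K w)⁻¹) • w := by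
      have h2 : v = supportFn K v • Φ v := by
        rw [hΦ]
        simp only
        rw [smul_smul, mul_inv_cancel₀ hvpos.ne', one_smul]
      rw [hvq, hq, smul_smul] at h2
      exact h2
    have h3 : supportFn K v * (supportFn K w)⁻¹ = 1 := by
      have h4 := hCsub v hv
      rw [h1, norm_smul, hw, mul_one, Real.norm_of_nonneg (by positivity)] at h4
      exact h4
    rw [h3, one_smul] at h1
    rw [← h1]
    exact hv

end Pool.Agent.Helper55_PB
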