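import Pool.Agent.Helper55_PB.Normals

open MeasureTheory Module Set
open scoped RealInnerProductSpace Pointwise Topology

namespace Pool.Agent.Helper55_PB

/-- A centred solution: compact, convex, symmetric, `0` in the interior, and
`vol (K + [0,w]) - vol K = c h_K(w)` for all `w`, with `c > 0`. -/
structure Good {E : Type*} [NormedAddCommGroup E] [InnerProductSpace ℝ E]
    [FiniteDimensional ℝ E] [MeasurableSpace E] [BorelSpace E] (K : Set E) (c : ℝ) : Prop where
  compact : IsCompact K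
  convex : Convex ℝ K
  zero_mem : (0 : E) ∈ interior K
  symm : ∀ x ∈ K, -x ∈ K
  pos : 0 < c
  eq : ∀ w : E, segVol K w = c * supportFn K w

variable {E : Type*} [NormedAddCommGroup E] [InnerProductSpace ℝ E]

/-- The cone of (limits of) inner ball normals, with `0`. -/
def coneOf (K : Set E) : Set E := {v | v = 0 ∨ ‖v‖⁻¹ • v ∈ closure (innerNormals K)}

theorem norm_eq_one_of_mem_closure {K : Set E} {v : E} (hv : v ∈ closure (innerNormals K)) :
    ‖v‖ = 1 := by
  have h1 : IsClosed {v : E | ‖v‖ = 1} := isClosed_eq continuous_norm continuous_const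
  exact closure_minimal (fun u hu => hu.1) h1 hv

theorem subset_coneOf {K : Set E} {v : E} (hv : v ∈ closure (innerNormals K)) :
    v ∈ coneOf K := by
  right
  rw [norm_eq_one_of_mem_closure hv, inv_one, one_smul]
  exact hv

theorem isClosed_coneOf (K : Set E) : IsClosed (coneOf K) := by
  refine isClosed_of_closure_subset ?_
  intro x hx
  by_cases hx0 : x = 0
  · left; exact hx0
  · right
    have hcont : ContinuousAt (fun v : E => ‖v‖⁻¹ • v) x := by
      refine ContinuousAt.smul ?_ continuousAt_id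
      exact continuous_norm.continuousAt.inv₀ (norm_ne_zero_iff.mpr hx0)
    have hx' : x ∈ closure (coneOf K \ {0}) := by
      rw [mem_closure_iff_nhds] at hx ⊢
      intro t ht
      have h1 : t ∩ {0}ᶜ ∈ 𝓝 x := Filter.inter_mem ht (isOpen_compl_singleton.mem_nhds hx0)
      obtain ⟨y, ⟨hy1, hy2⟩, hy3⟩ := hx _ h1
      exact ⟨y, hy1, hy3, hy2⟩
    have h2 := mem_closure_image hcont hx'
    have h3 : (fun v : E => ‖v‖⁻¹ • v) '' (coneOf K \ {0}) ⊆ closure (innerNormals K) := by
      rintro _ ⟨v, ⟨hv, hv0⟩, rfl⟩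
      rcases hv with hv | hv
      · exact absurd hv hv0
      · exact hv
    exact closure_minimal h3 isClosed_closure h2

theorem neg_mem_innerNormals {K : Set E} (hs : ∀ x ∈ K, -x ∈ K) {v : E}
    (hv : v ∈ innerNormals K) : -v ∈ innerNormals K := by
  obtain ⟨h1, x, hx, r, hr, hb, hsup⟩ := hv
  refine ⟨by rw [norm_neg, h1], -x, hs x hx, r, hr, ?_, ?_⟩
  · intro z hz
    have h2 : -z ∈ Metric.closedBall (x - r • v) r := by
      rw [Metric.mem_closedBall, dist_eq_norm] at hz ⊢
      have : -z - (x - r • v) = -(z - (-x - r • -v)) := by module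
      rw [this, norm_neg]
      exact hz
    have h3 := hs _ (hb h2)
    rwa [neg_neg] at h3
  · intro z hz
    have := hsup (-z) (hs z hz)
    rw [inner_neg_left] at this
    rw [inner_neg_right, inner_neg_neg]
    linarith

theorem neg_mem_closure {K : Set E} (hs : ∀ x ∈ K, -x ∈ K) {v : E}
    (hv : v ∈ closure (innerNormals K)) : -v ∈ closure (innerNormals K) := by
  have h1 := mem_closure_image (f := fun v : E => -v) (by fun_prop) hv
  refine closure_mono ?_ h1
  rintro _ ⟨u, hu, rfl⟩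
  exact neg_mem_innerNormals hs hu

theorem smul_mem_coneOf {K : Set E} (hs : ∀ x ∈ K, -x ∈ K) {v : E} (hv : v ∈ coneOf K) (t : ℝ) :
    t • v ∈ coneOf K := by
  rcases eq_or_ne t 0 with ht | ht
  · left; rw [ht, zero_smul]
  rcases hv with rfl | hv
  · left; rw [smul_zero]
  right
  have hv0 : ‖v‖ ≠ 0 := by
    intro h
    have := norm_eq_one_of_mem_closure hv
    rw [h, inv_zero, zero_smul, norm_zero] at this
    exact zero_ne_one this
  rw [norm_smul, Real.norm_eq_abs]
  rcases lt_or_gt_of_ne ht with h | h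
  · have h2 : (|t| * ‖v‖)⁻¹ • t • v = -(‖v‖⁻¹ • v) := by
      rw [abs_of_neg h, smul_smul, ← neg_smul]
      congr 1
      field_simp
    rw [h2]
    exact neg_mem_closure hs hv
  · have h2 : (|t| * ‖v‖)⁻¹ • t • v = ‖v‖⁻¹ • v := by
      rw [abs_of_pos h, smul_smul]
      congr 1
      field_simp
    rw [h2]
    exact hv

theorem mem_of_forall_innerNormal [ProperSpace E] {K : Set E} (hK : IsCompact K)
    (hc : Convex ℝ K) (h0 : (0 : E) ∈ interior K) {y : E}
    (h : ∀ v ∈ innerNormals K, ⟪y, v⟫ ≤ supportFn K v) : y ∈ K := by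
  by_contra hy
  obtain ⟨v, hv, hvy⟩ := exists_innerNormal hK hc h0 hy
  exact absurd (h v hv) (not_le.mpr hvy)

theorem span_coneOf [FiniteDimensional ℝ E] {K : Set E} (hK : IsCompact K)
    (hc : Convex ℝ K) (h0 : (0 : E) ∈ interior K) :
    Submodule.span ℝ (coneOf K) = ⊤ := by
  by_contra hcon
  have h1 : (Submodule.span ℝ (coneOf K))ᗮ ≠ ⊥ := by
    intro h
    exact hcon ((Submodule.orthogonal_eq_bot_iff).mp h)
  obtain ⟨y, hy, hy0⟩ := Submodule.exists_mem_ne_zero_of_ne_bot h1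
  obtain ⟨R, hR⟩ := hK.isBounded.exists_norm_le
  have h2 : ∀ t : ℝ, t • y ∈ K := by
    intro t
    refine mem_of_forall_innerNormal hK hc h0 ?_
    intro v hv
    have h3 : ⟪y, v⟫ = 0 := by
      have := (Submodule.mem_orthogonal' _ _).mp hy v
        (Submodule.subset_span (subset_coneOf (subset_closure hv)))
      exact this
    rw [real_inner_smul_left, h3, mul_zero]
    have := inner_le_supportFn hK (interior_subset h0) v
    rw [inner_zero_left] at this
    exact this
  have h3 := hR _ (h2 ((R + 1) / ‖y‖))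
  have hyn : 0 < ‖y‖ := norm_pos_iff.mpr hy0
  have hR0 : 0 ≤ R := (norm_nonneg _).trans h3
  rw [norm_smul, Real.norm_of_nonneg (by positivity), div_mul_cancel₀ _ hyn.ne'] at h3
  linarith

variable [FiniteDimensional ℝ E] [MeasurableSpace E] [BorelSpace E]

/-- If the support function is additive on `w₁, w₂` then no inner ball normal separates them. -/
theorem Good.inner_mul_nonneg {K : Set E} {c : ℝ} (hG : Good K c) {w₁ w₂ : E}
    (hadd : supportFn K w₁ + supportFn K w₂ = supportFn K (w₁ + w₂)) {v : E}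
    (hv : v ∈ coneOf K) : 0 ≤ ⟪w₁, v⟫ * ⟪w₂, v⟫ := by
  have hseg : segVol K (w₁ + w₂) = segVol K w₁ + segVol K w₂ := by
    rw [hG.eq, hG.eq, hG.eq, ← hadd]
    ring
  have h1 : ∀ v ∈ innerNormals K, 0 ≤ ⟪w₁, v⟫ * ⟪w₂, v⟫ := by
    rintro v ⟨hv1, x, hx, r, hr, hb, hsup⟩
    by_contra hcon
    push Not at hcon
    rcases mul_neg_iff.mp hcon with ⟨h1, h2⟩ | ⟨h1, h2⟩
    · have := segVol_add_lt hG.compact hG.convex hr hv1 hx hb hsup h1 h2
      linarith
    · have := segVol_add_lt hG.compact hG.convex hr hv1 hx hb hsup h2 h1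
      rw [add_comm w₂ w₁] at this
      linarith
  have h2 : ∀ v ∈ closure (innerNormals K), 0 ≤ ⟪w₁, v⟫ * ⟪w₂, v⟫ := by
    have hcl : IsClosed {v : E | 0 ≤ ⟪w₁, v⟫ * ⟪w₂, v⟫} :=
      isClosed_le continuous_const (by fun_prop)
    exact fun v hv => closure_minimal h1 hcl hv
  rcases hv with rfl | hv
  · simp
  · have h3 := h2 _ hv
    rw [inner_smul_right, inner_smul_right] at h3
    by_cases hv0 : v = 0
    · subst hv0; simp
    · have hpos : 0 < ‖v‖⁻¹ := by
        have := norm_pos_iff.mpr hv0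
        positivity
      have h4 : ‖v‖⁻¹ * ⟪w₁, v⟫ * (‖v‖⁻¹ * ⟪w₂, v⟫) = (‖v‖⁻¹ * ‖v‖⁻¹) * (⟪w₁, v⟫ * ⟪w₂, v⟫) := by
        ring
      rw [h4] at h3
      exact (mul_nonneg_iff_of_pos_left (by positivity)).mp h3

/-- The pole property. -/
theorem Good.pole {K : Set E} {c : ℝ} (hG : Good K c) {w : E} (hw : w ≠ 0)
    (hspan : ∀ y : E, ⟪y, w⟫ = 0 → y ∈ Submodule.span ℝ {v ∈ coneOf K | ⟪v, w⟫ = 0}) :
    w ∈ coneOf K := by
  right
  have hwn : 0 < ‖w‖ := norm_pos_iff.mpr hw
  set w' := ‖w‖⁻¹ • w with hw'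
  have hw'1 : ‖w'‖ = 1 := by
    rw [hw', norm_smul, norm_inv, norm_norm, inv_mul_cancel₀ hwn.ne']
  refine mem_closure_of_indec hG.compact hG.convex hG.zero_mem hw'1 ?_
  intro w₁ w₂ hsum hadd
  rw [← hsum] at hadd
  have h1 : ∀ v ∈ {v ∈ coneOf K | ⟪v, w⟫ = 0}, ⟪w₁, v⟫ = 0 := by
    rintro v ⟨hv, hvw⟩
    have h2 := hG.inner_mul_nonneg hadd hv
    have h3 : ⟪w₁, v⟫ + ⟪w₂, v⟫ = 0 := by
      rw [← inner_add_left, hsum, hw', real_inner_smul_left, real_inner_comm, hvw, mul_zero]
    have h4 : ⟪w₂, v⟫ = -⟪w₁, v⟫ := by linarith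
    rw [h4] at h2
    nlinarith
  have h2 : ∀ y : E, ⟪y, w⟫ = 0 → ⟪w₁, y⟫ = 0 := by
    intro y hy
    have := hspan y hy
    have h3 : Submodule.span ℝ {v ∈ coneOf K | ⟪v, w⟫ = 0} ≤ (ℝ ∙ w₁)ᗮ := by
      rw [Submodule.span_le]
      intro v hv
      exact Submodule.mem_orthogonal_singleton_iff_inner_right.mpr (h1 v hv)
    exact Submodule.mem_orthogonal_singleton_iff_inner_right.mp (h3 this)
  have h3 : w₁ ∈ ((ℝ ∙ w)ᗮ)ᗮ := by
    rw [Submodule.mem_orthogonal']
    intro y hy
    refine h2 y ?_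
    rw [real_inner_comm]
    exact Submodule.mem_orthogonal_singleton_iff_inner_right.mp hy
  rw [Submodule.orthogonal_orthogonal, Submodule.mem_span_singleton] at h3
  obtain ⟨a, ha⟩ := h3
  refine ⟨a * ‖w‖, ?_⟩
  rw [hw', smul_smul, mul_assoc, mul_inv_cancel₀ hwn.ne', mul_one]
  exact ha.symm

/-- If the cone is everything then `K` is smooth. -/
theorem Good.smooth {K : Set E} {c : ℝ} (hG : Good K c) (hfull : coneOf K = univ) :
    IsSmoothBody K := by
  intro x hx u v hu hv hxu hxv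
  by_contra hne
  have hxK : x ∈ K := hG.compact.isClosed.frontier_subset hx
  have hadd : supportFn K u + supportFn K v = supportFn K (u + v) := by
    rw [supportFn_eq hG.compact hxK hxu, supportFn_eq hG.compact hxK hxv,
      supportFn_eq hG.compact hxK (u := u + v), inner_add_right]
    intro z hz
    rw [inner_add_right, inner_add_right]
    exact add_le_add (hxu z hz) (hxv z hz)
  -- test vector
  have h1 : ∀ z : E, 0 ≤ ⟪u, z⟫ * ⟪v, z⟫ := fun z =>
    hG.inner_mul_nonneg hadd (by rw [hfull]; trivial)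
  have h2 := h1 (u - v)
  rw [inner_sub_right, inner_sub_right, real_inner_self_eq_norm_sq, real_inner_self_eq_norm_sq,
    hu, hv, real_inner_comm] at h2
  have h3 : ⟪v, u⟫ = 1 := by nlinarith
  have h4 : ‖u - v‖ ^ 2 = 0 := by
    rw [norm_sub_sq_real, hu, hv, real_inner_comm, h3]
    norm_num
  have h5 : u - v = 0 := by
    rw [← norm_eq_zero]
    exact pow_eq_zero_iff (two_ne_zero) |>.mp h4
  exact hne (sub_eq_zero.mp h5)

end Pool.Agent.Helper55_PB
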