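import Pool.Agent.Helper55_PB.Lim

open MeasureTheory Module Set Filter
open scoped RealInnerProductSpace Pointwise Topology

namespace Pool.Agent.Helper55_PB

open Pool.Agent.Helper28_PB (CC)

variable {E : Type} [NormedAddCommGroup E] [InnerProductSpace ℝ E] [FiniteDimensional ℝ E]
  [MeasurableSpace E] [BorelSpace E]

theorem sc_spec (hlim : LimStmt) (hd : 0 < finrank ℝ E) {M : Set E} (hM : CC M) :
    IsSteiner M (sc M) := by
  have : Nontrivial E := Module.nontrivial_of_finrank_pos (R := ℝ) hd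
  obtain ⟨c, T, m, _, _, h⟩ := hlim (E := E)
  exact (h M hM).1

theorem sc_eq {M : Set E} {c : ℕ → ℝ} (h : IsSteiner M c) {j : ℕ} (hj : j ≤ finrank ℝ E) :
    sc M j = c j := by
  have h1 := isSteiner_sc ⟨c, h⟩
  exact coeff_unique (fun r hr => by rw [← h1 r hr, ← h r hr]) (Nat.lt_succ_of_le hj)

theorem sc_le_of_VD (hlim : LimStmt) (hd : 0 < finrank ℝ E) {M M' : Set E} (hM : CC M)
    (hM' : CC M') {j : ℕ} (hj : j ≤ finrank ℝ E)
    (h : ∀ l : List E, VD l M ≤ VD l M') : sc M j ≤ sc M' j := by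
  have : Nontrivial E := Module.nontrivial_of_finrank_pos (R := ℝ) hd
  obtain ⟨c, T, m, hc, hm, hl⟩ := hlim (E := E)
  have h1 := (hl M hM).2 j hj
  have h2 := (hl M' hM').2 j hj
  have h3 := le_of_tendsto_of_tendsto' h1 h2 (fun N => Finset.sum_le_sum (fun s _ =>
    mul_le_mul_of_nonneg_left (h s.toList) (Finset.prod_nonneg (fun p _ => hm N p))))
  exact le_of_mul_le_mul_right h3 (pow_pos hc j)

theorem sc_nonneg (hlim : LimStmt) (nonneg : VDNonnegStmt) (hd : 0 < finrank ℝ E) {M : Set E}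
    (hM : CC M) {j : ℕ} (hj : j ≤ finrank ℝ E) : 0 ≤ sc M j := by
  have : Nontrivial E := Module.nontrivial_of_finrank_pos (R := ℝ) hd
  obtain ⟨c, T, m, hc, hm, hl⟩ := hlim (E := E)
  have h1 := (hl M hM).2 j hj
  have h3 := ge_of_tendsto' h1 (fun N => Finset.sum_nonneg (fun s _ =>
    mul_nonneg (Finset.prod_nonneg (fun p _ => hm N p)) (nonneg s.toList M hM)))
  exact le_of_mul_le_mul_right (by rw [zero_mul]; exact h3) (pow_pos hc j)

theorem sc_mono (hlim : LimStmt) (mono : VDMonoStmt) (hd : 0 < finrank ℝ E) {M M' : Set E}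
    (hM : CC M) (hM' : CC M') {j : ℕ} (hj : j ≤ finrank ℝ E) (h : M ⊆ M') :
    sc M j ≤ sc M' j :=
  sc_le_of_VD hlim hd hM hM' hj (fun l => mono l M M' hM hM' h)

omit [FiniteDimensional ℝ E] [MeasurableSpace E] [BorelSpace E] in
theorem iso_add_ball (ρ : E ≃ₗᵢ[ℝ] E) (M : Set E) (r : ℝ) :
    ρ '' (M + Metric.closedBall (0 : E) r) = ρ '' M + Metric.closedBall (0 : E) r := by
  rw [Set.image_add]
  congr 1
  rw [LinearIsometryEquiv.image_closedBall, map_zero]

theorem sc_iso (ρ : E ≃ₗᵢ[ℝ] E) (M : Set E) (j : ℕ) : sc (ρ '' M) j = sc M j := by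
  have h : ∀ c : ℕ → ℝ, IsSteiner (ρ '' M) c ↔ IsSteiner M c := by
    intro c
    unfold IsSteiner
    simp_rw [← iso_add_ball, PB.H15.volume_iso]
  have h' : IsSteiner (ρ '' M) = IsSteiner M := by
    funext c
    exact propext (h c)
  unfold sc
  rw [h']

omit [FiniteDimensional ℝ E] [MeasurableSpace E] [BorelSpace E] in
theorem CC_translate {M : Set E} (hM : CC M) (a : E) : CC ((fun y => a + y) '' M) :=
  ⟨hM.cpt.image (by fun_prop), hM.cvx.translate _, hM.ne.image _⟩

theorem sc_translate (a : E) (M : Set E) (j : ℕ) : sc ((fun y => a + y) '' M) j = sc M j := by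
  have h : ∀ c : ℕ → ℝ, IsSteiner ((fun y => a + y) '' M) c ↔ IsSteiner M c := by
    intro c
    unfold IsSteiner
    simp_rw [translate_add, volume_translate]
  have h' : IsSteiner ((fun y => a + y) '' M) = IsSteiner M := by
    funext c
    exact propext (h c)
  unfold sc
  rw [h']

theorem sc_flat_le (hlim : LimStmt) (flatS : VDFlatStmt) (hd : 0 < finrank ℝ E) {M : Set E}
    (hM : CC M) {e : E} (he : ‖e‖ = 1) (hF : CC (flat e M)) {j : ℕ} (hj : j ≤ finrank ℝ E) :
    sc (flat e M) j ≤ sc M j := by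
  have : Nontrivial E := Module.nontrivial_of_finrank_pos (R := ℝ) hd
  obtain ⟨c, T, m, hc, hm, hl⟩ := hlim (E := E)
  set σ : E ≃ₗᵢ[ℝ] E := Submodule.reflection (ℝ ∙ e)ᗮ with hσ
  have hM' : CC (σ '' M) := hM.image σ.toContinuousLinearEquiv.toContinuousLinearMap
  have h1 := ((hl (flat e M) hF).2 j hj).const_mul 2
  have h2 := ((hl M hM).2 j hj).add ((hl (σ '' M) hM').2 j hj)
  have h3 := le_of_tendsto_of_tendsto' h1 h2 (fun N => by
    rw [Finset.mul_sum, ← Finset.sum_add_distrib]
    refine Finset.sum_le_sum (fun s _ => ?_)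
    have h4 := flatS s.toList M hM e he
    have h5 : 0 ≤ ∏ p ∈ s, m N p := Finset.prod_nonneg (fun p _ => hm N p)
    have h6 := mul_le_mul_of_nonneg_left h4 h5
    rw [← hσ] at h6
    nlinarith)
  rw [sc_iso] at h3
  have h7 : sc (flat e M) j * c ^ j ≤ sc M j * c ^ j := by linarith
  exact le_of_mul_le_mul_right h7 (pow_pos hc j)

omit [FiniteDimensional ℝ E] [MeasurableSpace E] [BorelSpace E] in
theorem CC_smul {M : Set E} (hM : CC M) (t : ℝ) : CC (t • M) :=
  ⟨hM.cpt.smul t, hM.cvx.smul t, hM.ne.smul_set⟩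

theorem sc_smul (hlim : LimStmt) (hd : 0 < finrank ℝ E) {M : Set E} (hM : CC M) {t : ℝ}
    (ht : 0 < t) {j : ℕ} (hj : j ≤ finrank ℝ E) :
    sc (t • M) j = t ^ (finrank ℝ E - j) * sc M j := by
  have hs := sc_spec hlim hd hM
  have h : IsSteiner (t • M) (fun j => t ^ finrank ℝ E / t ^ j * sc M j) := by
    intro r hr
    have h1 : t • M + Metric.closedBall (0 : E) r =
        t • (M + Metric.closedBall (0 : E) (r / t)) := by
      rw [smul_add, smul_closedBall _ _ (by positivity), smul_zero, Real.norm_of_nonneg ht.le,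
        mul_div_cancel₀ _ ht.ne']
    rw [h1, Measure.addHaar_smul_of_nonneg _ ht.le, ENNReal.toReal_mul,
      ENNReal.toReal_ofReal (by positivity), hs (r / t) (by positivity), Finset.mul_sum]
    refine Finset.sum_congr rfl ?_
    intro j _
    rw [div_pow]
    ring
  rw [sc_eq h hj]
  congr 1
  rw [div_eq_iff (pow_ne_zero _ ht.ne'), ← pow_add, Nat.sub_add_cancel hj]

theorem one_add_pow_sub_one_le {x : ℝ} (hx : 0 ≤ x) (N : ℕ) :
    (1 + x) ^ N - 1 ≤ N * x * (1 + x) ^ N := by
  induction N with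
  | zero => simp
  | succ N ih =>
    have h1 : (1 : ℝ) ≤ 1 + x := by linarith
    have h2 : (0 : ℝ) ≤ (1 + x) ^ N := by positivity
    have h3 : (1 + x) ^ N ≤ (1 + x) ^ (N + 1) := pow_le_pow_right₀ h1 (Nat.le_succ N)
    push_cast
    have h4 : (1 + x) ^ (N + 1) = (1 + x) ^ N + x * (1 + x) ^ N := by ring
    have h5 : (N * x + x) * (1 + x) ^ N ≤ (N * x + x) * (1 + x) ^ (N + 1) :=
      mul_le_mul_of_nonneg_left h3 (by positivity)
    nlinarith

theorem sc_add_ball_ge (hlim : LimStmt) (nonneg : VDNonnegStmt) (hd : 0 < finrank ℝ E)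
    {M : Set E} (hM : CC M) {s : ℝ} (hs : 0 ≤ s) {j : ℕ} (hj : j + 1 ≤ finrank ℝ E) :
    sc M j + (j + 1) * s * sc M (j + 1) ≤ sc (M + Metric.closedBall (0 : E) s) j := by
  set d := finrank ℝ E with hdd
  have hM' : CC (M + Metric.closedBall (0 : E) s) :=
    ⟨isCompact_add_ball hM.cpt s, convex_add_ball hM.cvx s,
      hM.ne.add ⟨0, Metric.mem_closedBall_self hs⟩⟩
  have hst := sc_spec hlim hd hM
  have h : IsSteiner (M + Metric.closedBall (0 : E) s)
      (fun j => ∑ k ∈ Finset.range (d + 1), sc M k * (s ^ (k - j) * (k.choose j : ℝ))) := by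
    intro r hr
    rw [add_assoc, closedBall_add_closedBall hs hr, add_zero, hst (s + r) (by positivity)]
    have h1 : ∀ k ∈ Finset.range (d + 1), sc M k * (s + r) ^ k =
        ∑ j ∈ Finset.range (d + 1), sc M k * (s ^ (k - j) * (k.choose j : ℝ)) * r ^ j := by
      intro k hk
      rw [add_comm s r, add_pow, Finset.mul_sum]
      have h2 : ∑ j ∈ Finset.range (k + 1), sc M k * (r ^ j * s ^ (k - j) * (k.choose j : ℝ)) =
          ∑ j ∈ Finset.range (d + 1), sc M k * (r ^ j * s ^ (k - j) * (k.choose j : ℝ)) := by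
        refine Finset.sum_subset ?_ ?_
        · refine Finset.range_mono ?_
          have := Finset.mem_range.mp hk
          omega
        · intro i _ hi
          rw [Finset.mem_range, not_lt] at hi
          rw [Nat.choose_eq_zero_of_lt (by omega)]
          simp
      rw [h2]
      refine Finset.sum_congr rfl ?_
      intro i _
      ring
    rw [Finset.sum_congr rfl h1, Finset.sum_comm]
    refine Finset.sum_congr rfl ?_
    intro i _
    rw [Finset.sum_mul]
  rw [sc_eq h (by omega)]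
  have hnn : ∀ k ∈ Finset.range (d + 1), 0 ≤ sc M k * (s ^ (k - j) * (k.choose j : ℝ)) := by
    intro k hk
    have h1 : 0 ≤ sc M k := sc_nonneg hlim nonneg hd hM (by
      have := Finset.mem_range.mp hk; omega)
    positivity
  have hsub : ({j, j + 1} : Finset ℕ) ⊆ Finset.range (d + 1) := by
    intro k hk
    rw [Finset.mem_insert, Finset.mem_singleton] at hk
    rw [Finset.mem_range]
    omega
  refine le_trans (le_of_eq ?_) (Finset.sum_le_sum_of_subset_of_nonneg hsub
    (fun k hk _ => hnn k hk))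
  rw [Finset.sum_pair (by omega), Nat.sub_self, pow_zero, Nat.choose_self,
    Nat.add_sub_cancel_left, pow_one, Nat.choose_succ_self_right]
  push_cast
  ring

/-- Step A. -/
theorem sc_succ_le (hlim : LimStmt) (nonneg : VDNonnegStmt) (mono : VDMonoStmt)
    (hd : 0 < finrank ℝ E) {M : Set E} (hM : CC M) {r : ℝ} (hr : 0 < r)
    (hb : Metric.closedBall (0 : E) r ⊆ M) {j : ℕ} (hj : j + 1 ≤ finrank ℝ E) :
    (j + 1) * sc M (j + 1) ≤ ((finrank ℝ E - j : ℕ) : ℝ) / r * sc M j := by
  set N := finrank ℝ E - j with hN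
  have h0 : 0 ≤ sc M j := sc_nonneg hlim nonneg hd hM (by omega)
  have key : ∀ s : ℝ, 0 < s → (j + 1) * sc M (j + 1) ≤ (N : ℝ) / r * (1 + s / r) ^ N *
      sc M j := by
    intro s hs
    have h1 := sc_add_ball_ge hlim nonneg hd hM hs.le hj
    have hM' : CC (M + Metric.closedBall (0 : E) s) :=
      ⟨isCompact_add_ball hM.cpt s, convex_add_ball hM.cvx s,
        hM.ne.add ⟨0, Metric.mem_closedBall_self hs.le⟩⟩
    have hpos : (0 : ℝ) < 1 + s / r := by positivity
    have hsub : M + Metric.closedBall (0 : E) s ⊆ (1 + s / r) • M := by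
      rw [hM.cvx.add_smul (by norm_num) (by positivity), one_smul]
      refine add_subset_add_left ?_
      have h2 : Metric.closedBall (0 : E) s = (s / r) • Metric.closedBall (0 : E) r := by
        rw [smul_closedBall _ _ hr.le, smul_zero, Real.norm_of_nonneg (by positivity),
          div_mul_cancel₀ _ hr.ne']
      rw [h2]
      exact smul_set_mono hb
    have h2 := sc_mono hlim mono hd hM' (CC_smul hM (1 + s / r)) (j := j) (by omega) hsub
    rw [sc_smul hlim hd hM hpos (by omega), ← hN] at h2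
    have h3 := one_add_pow_sub_one_le (x := s / r) (by positivity) N
    have h4 : (j + 1) * s * sc M (j + 1) ≤ N * (s / r) * (1 + s / r) ^ N * sc M j := by
      have h5 : ((1 + s / r) ^ N - 1) * sc M j ≤ N * (s / r) * (1 + s / r) ^ N * sc M j :=
        mul_le_mul_of_nonneg_right h3 h0
      nlinarith
    have h6 : s * ((j + 1) * sc M (j + 1)) ≤ s * ((N : ℝ) / r * (1 + s / r) ^ N * sc M j) := by
      have h7 : s * ((N : ℝ) / r * (1 + s / r) ^ N * sc M j) =
          N * (s / r) * (1 + s / r) ^ N * sc M j := by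
        field_simp
      rw [h7]
      linarith
    exact le_of_mul_le_mul_left h6 hs
  have hl : Tendsto (fun s : ℝ => (N : ℝ) / r * (1 + s / r) ^ N * sc M j) (𝓝[>] 0)
      (𝓝 ((N : ℝ) / r * sc M j)) := by
    have h1 : Continuous (fun s : ℝ => (N : ℝ) / r * (1 + s / r) ^ N * sc M j) := by fun_prop
    have h2 := h1.tendsto 0
    simp only [zero_div, add_zero, one_pow, mul_one] at h2
    exact h2.mono_left nhdsWithin_le_nhds
  refine ge_of_tendsto hl ?_
  filter_upwards [self_mem_nhdsWithin] with s hs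
  exact key s hs

/-- (F3) -/
theorem sc_add_segment (hlim : LimStmt) (hd : 1 < finrank ℝ E) {M : Set E} (hM : CC M) {e : E}
    (he : ‖e‖ = 1) {c : ℝ} (hc : 0 ≤ c) {j : ℕ} (hj : j + 1 ≤ finrank ℝ E) :
    sc (M + segment ℝ (0 : E) (c • e)) j = sc M j +
      c * sc ((ℝ ∙ e)ᗮ.orthogonalProjectionOnto '' M) j := by
  set P := (ℝ ∙ e)ᗮ.orthogonalProjectionOnto with hP
  have hrank := Helper28_PB.finrank_perp he
  have hM' : CC (P '' M) := hM.image _
  have hs := sc_spec hlim (by omega) hM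
  have hs' := sc_spec hlim (by omega) hM'
  have h : IsSteiner (M + segment ℝ (0 : E) (c • e)) (fun j => sc M j +
      if j < finrank ℝ E then c * sc (P '' M) j else 0) := by
    intro r hr
    rw [add_right_comm, volume_add_segment (isCompact_add_ball hM.cpt r)
      (convex_add_ball hM.cvx r) he hc, ← hP, proj_add_ball]
    have hc1 : volume (M + Metric.closedBall (0 : E) r) ≠ ⊤ :=
      (isCompact_add_ball hM.cpt r).measure_lt_top.ne
    have hc2 : volume (P '' M + Metric.closedBall (0 : ((ℝ ∙ e)ᗮ : Submodule ℝ E)) r) ≠ ⊤ :=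
      (isCompact_add_ball hM'.cpt r).measure_lt_top.ne
    rw [ENNReal.toReal_add hc1 (ENNReal.mul_ne_top ENNReal.ofReal_ne_top hc2),
      ENNReal.toReal_mul, ENNReal.toReal_ofReal hc, hs r hr, hs' r hr, hrank]
    simp only [add_mul, Finset.sum_add_distrib]
    congr 1
    rw [Finset.sum_range_succ, if_neg (lt_irrefl _), zero_mul, add_zero, Finset.mul_sum]
    refine Finset.sum_congr rfl ?_
    intro k hk
    rw [if_pos (Finset.mem_range.mp hk)]
    ring
  rw [sc_eq h (by omega), if_pos (by omega)]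

omit [FiniteDimensional ℝ E] [MeasurableSpace E] [BorelSpace E] in
theorem flat_eq {e : E} (he : ‖e‖ = 1) (M : Set E) :
    flat e M = (fun y : ((ℝ ∙ e)ᗮ : Submodule ℝ E) => (y : E)) ''
      ((ℝ ∙ e)ᗮ.orthogonalProjectionOnto '' M) := by
  rw [flat, image_image]
  refine Set.image_congr fun x _ => ?_
  have h1 := Submodule.starProjection_orthogonal' (ℝ ∙ e)
  have h2 : ((((ℝ ∙ e)ᗮ.orthogonalProjectionOnto x : ((ℝ ∙ e)ᗮ : Submodule ℝ E)) : E))
      = (ℝ ∙ e)ᗮ.starProjection x := rfl
  rw [h2, h1]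
  simp [Submodule.starProjection_unit_singleton ℝ he, real_inner_comm]

theorem CC_flat {M : Set E} (hM : CC M) (e : E) : CC (flat e M) := by
  have h1 : flat e M = (ContinuousLinearMap.id ℝ E - (innerSL ℝ e).smulRight e) '' M := by
    rw [flat]
    refine Set.image_congr fun x _ => ?_
    simp [real_inner_comm]
  rw [h1]
  exact hM.image _

/-- (DI) -/
theorem sc_flat (hlim : LimStmt) (di : DIStmt) (hd : 1 < finrank ℝ E) {M : Set E} (hM : CC M)
    {e : E} (he : ‖e‖ = 1) {j : ℕ} (hj : j + 1 ≤ finrank ℝ E) :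
    sc (flat e M) (j + 1) = ballVol (j + 1) / ballVol j *
      sc ((ℝ ∙ e)ᗮ.orthogonalProjectionOnto '' M) j := by
  set P := (ℝ ∙ e)ᗮ.orthogonalProjectionOnto with hP
  have hrank := Helper28_PB.finrank_perp he
  have hM' : CC (P '' M) := hM.image _
  have hs' := sc_spec hlim (by omega) hM'
  have h : IsSteiner (flat e M) (fun k => if k = 0 then 0 else
      ballVol k / ballVol (k - 1) * sc (P '' M) (k - 1)) := by
    intro r hr
    rw [flat_eq he, ← hP, di e he (P '' M) hM' _ hs' r hr, ← hrank,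
      Finset.sum_range_succ' _ (finrank ℝ ((ℝ ∙ e)ᗮ : Submodule ℝ E) + 1)]
    simp
  rw [sc_eq h hj]
  simp

end Pool.Agent.Helper55_PB
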