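import Pool.Agent.Helper55_PB.Split

open MeasureTheory Module Set
open scoped RealInnerProductSpace Pointwise Topology

namespace Pool.Agent.Helper55_PB

section

variable {E : Type*} [NormedAddCommGroup E] [InnerProductSpace ℝ E] [FiniteDimensional ℝ E]

/-- The translate by `x₀` of the orthogonal direct sum of the sets `A i ⊆ V i`. -/
def orthSum {m : ℕ} (V : Fin m → Submodule ℝ E) (A : ∀ i, Set (V i)) (x₀ : E) : Set E :=
  {x | ∀ i, (V i).orthogonalProjectionOnto (x - x₀) ∈ A i}

/-- Invariance under the two quarter turns about the origin (used in dimension two). -/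
def QuarterTurnInvariant {F : Type*} [NormedAddCommGroup F] [InnerProductSpace ℝ F]
    (A : Set F) : Prop :=
  ∀ x ∈ A, ∀ y : F, ‖y‖ = ‖x‖ → ⟪x, y⟫ = 0 → y ∈ A

/-- The admissible summands. -/
def IsSummand {F : Type*} [NormedAddCommGroup F] [InnerProductSpace ℝ F] [FiniteDimensional ℝ F]
    [MeasurableSpace F] [BorelSpace F] (A : Set F) (τ : ℝ) : Prop :=
  (finrank ℝ F = 1 ∧ A = Metric.closedBall 0 (√(τ / 2))) ∨
  (finrank ℝ F = 2 ∧ QuarterTurnInvariant A ∧ (volume A).toReal = 2 * τ) ∨
  (3 ≤ finrank ℝ F ∧ IsSmoothBody A ∧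
    ∀ u : F, ‖u‖ = 1 → τ * shadowVol A u = (volume A).toReal * supportFn A u)

end

/-- Interface (DEC). -/
def DecStmt : Prop :=
  ∀ {E : Type} [NormedAddCommGroup E] [InnerProductSpace ℝ E] [FiniteDimensional ℝ E]
    (S : Set E), PB.H15.PoleCone S →
    ∃ (m : ℕ) (V : Fin m → Submodule ℝ E), (∀ i, V i ≠ ⊥) ∧
      (∀ i j, i ≠ j → ∀ x ∈ V i, ∀ y ∈ V j, ⟪x, y⟫ = 0) ∧ (⨆ i, V i = ⊤) ∧
      (∀ s ∈ S, s ≠ 0 → ∃ i, s ∈ V i) ∧ ∀ i, ((V i : Set E) ⊆ S ∨ finrank ℝ (V i) ≤ 2)

/-- Interface (PLANE). -/
def LineStmt : Prop :=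
  ∀ {E : Type} [NormedAddCommGroup E] [InnerProductSpace ℝ E] [FiniteDimensional ℝ E]
    [MeasurableSpace E] [BorelSpace E] (K : Set E), finrank ℝ E = 1 → IsCompact K →
    Convex ℝ K → K.Nonempty → ∀ w : E, segVol K w = ‖w‖

def PlaneStmt : Prop :=
  ∀ {E : Type} [NormedAddCommGroup E] [InnerProductSpace ℝ E] [FiniteDimensional ℝ E]
    [MeasurableSpace E] [BorelSpace E] (K : Set E), finrank ℝ E = 2 → IsCompact K →
    Convex ℝ K → K.Nonempty → (∀ x ∈ K, -x ∈ K) → ∀ x y : E, ‖y‖ = ‖x‖ → ⟪x, y⟫ = 0 →
    segVol K x = 2 * supportFn K y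

section

variable {F : Type} [NormedAddCommGroup F] [InnerProductSpace ℝ F] [FiniteDimensional ℝ F]
  [MeasurableSpace F] [BorelSpace F]

omit [FiniteDimensional ℝ F] [MeasurableSpace F] [BorelSpace F] in
theorem zero_mem_interior_of_symm {A : Set F} (hc : Convex ℝ A) (hi : (interior A).Nonempty)
    (hs : ∀ x ∈ A, -x ∈ A) : (0 : F) ∈ interior A := by
  obtain ⟨x, hx⟩ := hi
  have h1 := hc.combo_interior_self_mem_interior hx (hs x (interior_subset hx))
    (a := 1 / 2) (b := 1 / 2) (by norm_num) (by norm_num) (by norm_num)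
  have h2 : (1 / 2 : ℝ) • x + (1 / 2 : ℝ) • -x = 0 := by module
  rwa [h2] at h1

/-- The radius of a Good body in dimension one. -/
theorem Good.eq_ball (hline : LineStmt) {A : Set F} {c : ℝ} (hG : Good A c)
    (hdim : finrank ℝ F = 1) : A = Metric.closedBall 0 (1 / c) := by
  have hne : A.Nonempty := ⟨0, interior_subset hG.zero_mem⟩
  have hc := hG.pos
  have hsupp : ∀ w : F, supportFn A w = ‖w‖ / c := by
    intro w
    have h1 := hG.eq w
    rw [hline A hdim hG.compact hG.convex hne] at h1
    rw [h1]
    field_simp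
  ext y
  rw [Metric.mem_closedBall, dist_zero_right]
  constructor
  · intro hy
    by_cases hy0 : y = 0
    · subst hy0
      rw [norm_zero]
      positivity
    · have h1 := inner_le_supportFn hG.compact hy y
      rw [hsupp, real_inner_self_eq_norm_sq] at h1
      have h2 := norm_pos_iff.mpr hy0
      rw [le_div_iff₀ hc] at h1 ⊢
      nlinarith
  · intro hy
    refine mem_of_forall_innerNormal hG.compact hG.convex hG.zero_mem ?_
    intro v hv
    rw [hsupp, hv.1]
    calc ⟪y, v⟫ ≤ ‖y‖ * ‖v‖ := real_inner_le_norm _ _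
      _ ≤ 1 / c := by rw [hv.1, mul_one]; exact hy

theorem volume_closedBall_one (hdim : finrank ℝ F = 1) {r : ℝ} (hr : 0 ≤ r) :
    (volume (Metric.closedBall (0 : F) r)).toReal = 2 * r := by
  have : Nontrivial F := Module.nontrivial_of_finrank_pos (R := ℝ) (by rw [hdim]; norm_num)
  rw [InnerProductSpace.volume_closedBall, hdim]
  rw [ENNReal.toReal_mul]
  have h1 : Real.Gamma (((1 : ℕ) : ℝ) / 2 + 1) = √Real.pi / 2 := by
    rw [Real.Gamma_add_one (by norm_num)]
    have : ((1 : ℕ) : ℝ) / 2 = 1 / 2 := by norm_num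
    rw [this, Real.Gamma_one_half_eq]
    ring
  rw [h1]
  have h2 : (0 : ℝ) < √Real.pi := Real.sqrt_pos.mpr Real.pi_pos
  have h3 : √Real.pi ^ 1 / (√Real.pi / 2) = 2 := by
    field_simp
  rw [h3, pow_one, ENNReal.toReal_ofReal hr, ENNReal.toReal_ofReal (by norm_num)]
  ring

omit [MeasurableSpace F] [BorelSpace F] in
theorem exists_coord (hdim : finrank ℝ F = 2) {a b : F} (ha : a ≠ 0) (hb : b ≠ 0)
    (hab : ⟪a, b⟫ = 0) (x : F) : ∃ α β : ℝ, x = α • a + β • b := by
  have han : ‖a‖ ≠ 0 := norm_ne_zero_iff.mpr ha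
  have hbn : ‖b‖ ≠ 0 := norm_ne_zero_iff.mpr hb
  have hba : ⟪b, a⟫ = 0 := by rw [real_inner_comm]; exact hab
  refine ⟨⟪a, x⟫ / ‖a‖ ^ 2, ⟪b, x⟫ / ‖b‖ ^ 2, ?_⟩
  set z := x - ((⟪a, x⟫ / ‖a‖ ^ 2) • a + (⟪b, x⟫ / ‖b‖ ^ 2) • b) with hz
  by_contra hcon
  have hz0 : z ≠ 0 := fun h => hcon (sub_eq_zero.mp h)
  have hza : ⟪a, z⟫ = 0 := by
    rw [hz, inner_sub_right, inner_add_right, real_inner_smul_right, real_inner_smul_right,
      real_inner_self_eq_norm_sq, hab]
    field_simp
    ring
  have hzb : ⟪b, z⟫ = 0 := by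
    rw [hz, inner_sub_right, inner_add_right, real_inner_smul_right, real_inner_smul_right,
      real_inner_self_eq_norm_sq, hba]
    field_simp
    ring
  have hli : LinearIndependent ℝ ![a, b, z] := by
    refine linearIndependent_of_ne_zero_of_inner_eq_zero (𝕜 := ℝ) ?_ ?_
    · intro i
      fin_cases i
      · exact ha
      · exact hb
      · exact hz0
    · intro i j hij
      fin_cases i <;> fin_cases j <;> simp_all [real_inner_comm]
  have := hli.fintype_card_le_finrank
  rw [hdim] at this
  simp at this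

/-- A summand is a centred solution. -/
theorem good_of_isSummand (hline : LineStmt) (hplane : PlaneStmt) {A : Set F} {τ : ℝ}
    (hτ : 0 < τ) (hA : IsConvexBody A) (h : IsSummand A τ) :
    Good A ((volume A).toReal / τ) := by
  have hne : A.Nonempty := hA.interior_nonempty.mono interior_subset
  have hvol : 0 < (volume A).toReal :=
    ENNReal.toReal_pos (Measure.measure_pos_of_nonempty_interior _ hA.interior_nonempty).ne'
      hA.compact.measure_lt_top.ne
  have hpos : 0 < (volume A).toReal / τ := by positivity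
  rcases h with ⟨hdim, hball⟩ | ⟨hdim, hQ, hv⟩ | ⟨hdim, _, heq⟩
  · have hr : 0 < √(τ / 2) := Real.sqrt_pos.mpr (by positivity)
    have hs : ∀ x ∈ A, -x ∈ A := by
      intro x hx
      rw [hball, Metric.mem_closedBall, dist_zero_right] at hx ⊢
      rwa [norm_neg]
    refine ⟨hA.compact, hA.convex, zero_mem_interior_of_symm hA.convex hA.interior_nonempty hs,
      hs, hpos, ?_⟩
    intro w
    rw [hline A hdim hA.compact hA.convex hne]
    have h1 : supportFn A w = √(τ / 2) * ‖w‖ := by
      by_cases hw : w = 0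
      · subst hw
        rw [supportFn_zero hA.compact hne, norm_zero, mul_zero]
      · have hwn := norm_pos_iff.mpr hw
        have hmem : (√(τ / 2) / ‖w‖) • w ∈ A := by
          rw [hball, Metric.mem_closedBall, dist_zero_right, norm_smul,
            Real.norm_of_nonneg (by positivity)]
          field_simp
          exact le_rfl
        rw [supportFn_eq hA.compact hmem, real_inner_smul_left, real_inner_self_eq_norm_sq]
        · field_simp
        · intro z hz
          rw [real_inner_smul_left, real_inner_self_eq_norm_sq]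
          rw [hball, Metric.mem_closedBall, dist_zero_right] at hz
          calc ⟪z, w⟫ ≤ ‖z‖ * ‖w‖ := real_inner_le_norm _ _
            _ ≤ √(τ / 2) * ‖w‖ := by gcongr
            _ = √(τ / 2) / ‖w‖ * ‖w‖ ^ 2 := by field_simp
    have h2 : (volume A).toReal = 2 * √(τ / 2) := by
      rw [hball]
      exact volume_closedBall_one hdim hr.le
    rw [h1, h2]
    have h3 : √(τ / 2) * √(τ / 2) = τ / 2 := Real.mul_self_sqrt (by positivity)
    calc ‖w‖ = 2 * (τ / 2) / τ * ‖w‖ := by field_simp
      _ = 2 * (√(τ / 2) * √(τ / 2)) / τ * ‖w‖ := by rw [h3]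
      _ = _ := by ring
  · have hex : ∀ x : F, ∃ y : F, ‖y‖ = ‖x‖ ∧ ⟪x, y⟫ = 0 := by
      intro x
      have h1 : (ℝ ∙ x)ᗮ ≠ ⊥ := by
        intro h
        have h2 := (Submodule.finrank_add_finrank_orthogonal (ℝ ∙ x))
        rw [h, finrank_bot, hdim, add_zero] at h2
        have h3 : finrank ℝ (ℝ ∙ x) ≤ 1 := by
          rcases eq_or_ne x 0 with hx0 | hx0
          · subst hx0
            rw [Submodule.span_zero_singleton, finrank_bot]
            exact zero_le_one
          · rw [finrank_span_singleton hx0]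
        omega
      obtain ⟨z, hz, hz0⟩ := Submodule.exists_mem_ne_zero_of_ne_bot h1
      have hzn := norm_pos_iff.mpr hz0
      refine ⟨(‖x‖ / ‖z‖) • z, ?_, ?_⟩
      · rw [norm_smul, Real.norm_of_nonneg (by positivity)]
        field_simp
      · rw [inner_smul_right, Submodule.mem_orthogonal_singleton_iff_inner_right.mp hz, mul_zero]
    have hs : ∀ x ∈ A, -x ∈ A := by
      intro x hx
      obtain ⟨y, hy1, hy2⟩ := hex x
      refine hQ y (hQ x hx y hy1 hy2) (-x) (by rw [norm_neg, hy1]) ?_
      rw [inner_neg_right, real_inner_comm, hy2, neg_zero]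
    refine ⟨hA.compact, hA.convex, zero_mem_interior_of_symm hA.convex hA.interior_nonempty hs,
      hs, hpos, ?_⟩
    intro w
    obtain ⟨y, hy1, hy2⟩ := hex w
    rw [hplane A hdim hA.compact hA.convex hne hs w y hy1 hy2, hv]
    have h1 : supportFn A y = supportFn A w := by
      -- both inequalities by rotating a maximiser
      have hrot : ∀ a b : F, ‖b‖ = ‖a‖ → ⟪a, b⟫ = 0 → supportFn A b ≤ supportFn A a := by
        intro a b hab1 hab2
        by_cases ha : a = 0
        · subst ha
          rw [norm_zero, norm_eq_zero] at hab1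
          rw [hab1]
        obtain ⟨x, hx, hxb⟩ := exists_supportFn hA.compact hne b
        have hρ : 0 < ‖a‖ := norm_pos_iff.mpr ha
        have hb : b ≠ 0 := by
          rw [← norm_pos_iff, hab1]
          exact hρ
        obtain ⟨α, β, hx2⟩ := exists_coord hdim ha hb hab2 x
        set y : F := β • a - α • b with hy
        have hba : ⟪b, a⟫ = 0 := by rw [real_inner_comm]; exact hab2
        have hyn : ‖y‖ = ‖x‖ := by
          have h3 : ‖y‖ ^ 2 = ‖x‖ ^ 2 := by
            rw [hy, hx2, norm_sub_sq_real, norm_add_sq_real, norm_smul, norm_smul, norm_smul,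
              norm_smul, hab1, real_inner_smul_left, real_inner_smul_right, hab2,
              real_inner_smul_left, real_inner_smul_right, hab2]
            ring
          exact (pow_left_inj₀ (norm_nonneg _) (norm_nonneg _) two_ne_zero).mp h3
        have hxy : ⟪x, y⟫ = 0 := by
          rw [hy, hx2]
          simp only [inner_add_left, inner_sub_right,
            real_inner_smul_left, real_inner_smul_right, hab2, hba,
            real_inner_self_eq_norm_sq, hab1]
          ring
        have hyA := hQ x hx y hyn hxy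
        have h4 := inner_le_supportFn hA.compact hyA a
        have h5 : ⟪y, a⟫ = ⟪x, b⟫ := by
          rw [hy, hx2]
          simp only [inner_add_left, inner_sub_left,
            real_inner_smul_left, hab2, hba,
            real_inner_self_eq_norm_sq, hab1]
          ring
        rw [h5, hxb] at h4
        exact h4
      exact le_antisymm (hrot w y hy1 hy2) (hrot y w hy1.symm (by rw [real_inner_comm]; exact hy2))
    rw [h1]
    field_simp
  · have hseg : ∀ w : F, segVol A w = (volume A).toReal / τ * supportFn A w := by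
      intro w
      by_cases hw : w = 0
      · subst hw
        rw [segVol_zero, supportFn_zero hA.compact hne, mul_zero]
      · obtain ⟨e, he, hwe⟩ := exists_unit w hw
        have h1 := heq e he
        rw [← segVol_unit hA.compact hA.convex he] at h1
        rw [hwe, segVol_smul hA.compact hA.convex (norm_nonneg _),
          supportFn_smul hA.compact hne (norm_nonneg _)]
        have h2 : segVol A e = (volume A).toReal / τ * supportFn A e := by
          rw [div_mul_eq_mul_div, ← h1]
          field_simp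
        rw [h2]
        ring
    have h0 : (0 : F) ∈ interior A := by
      refine zero_mem_interior hA.compact hA.convex hA.interior_nonempty ?_
      intro w hw
      have h1 := segVol_pos hA.compact hA.convex hA.interior_nonempty hw
      rw [hseg w] at h1
      exact (pos_iff_pos_of_mul_pos h1).mp hpos
    refine ⟨hA.compact, hA.convex, h0, ?_, hpos, hseg⟩
    intro x hx
    have hsymm : ∀ w : F, supportFn A (-w) = supportFn A w := by
      intro w
      have h1 := segVol_neg A w
      rw [hseg, hseg] at h1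
      exact mul_left_cancel₀ hpos.ne' h1
    refine mem_of_forall_innerNormal hA.compact hA.convex h0 ?_
    intro v _
    rw [← hsymm v]
    have := inner_le_supportFn hA.compact hx (-v)
    rw [inner_neg_right] at this
    rw [inner_neg_left]
    exact this

end

end Pool.Agent.Helper55_PB
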