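import Pool.Agent.Helper55_PB.Vol

open MeasureTheory Module Set
open scoped RealInnerProductSpace Pointwise ENNReal Classical Topology

namespace Pool.Agent.Helper55_PB

variable {E : Type*} [NormedAddCommGroup E] [InnerProductSpace ℝ E] [FiniteDimensional ℝ E]
  [MeasurableSpace E] [BorelSpace E]

omit [FiniteDimensional ℝ E] [MeasurableSpace E] [BorelSpace E] in
theorem convex_add_segment {K : Set E} (hc : Convex ℝ K) (w : E) :
    Convex ℝ (K + segment ℝ (0 : E) w) := hc.add (convex_segment _ _)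

omit [FiniteDimensional ℝ E] [MeasurableSpace E] [BorelSpace E] in
theorem smul_mem_segment {t c : ℝ} (h0 : 0 ≤ t) (h1 : t ≤ c) (w : E) :
    t • w ∈ segment ℝ (0 : E) (c • w) := by
  rw [segment_eq_image]
  rcases eq_or_lt_of_le (h0.trans h1) with h | h
  · have : t = 0 := by linarith
    subst this
    exact ⟨0, by simp, by simp⟩
  · refine ⟨t / c, ⟨by positivity, by rw [div_le_one h]; linarith⟩, ?_⟩
    simp only [smul_zero, zero_add, smul_smul]
    congr 1
    field_simp

omit [FiniteDimensional ℝ E] [MeasurableSpace E] [BorelSpace E] in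
theorem mem_segment_smul {c : ℝ} (hc : 0 ≤ c) {w z : E} (hz : z ∈ segment ℝ (0 : E) (c • w)) :
    ∃ t : ℝ, 0 ≤ t ∧ t ≤ c ∧ z = t • w := by
  rw [segment_eq_image] at hz
  obtain ⟨θ, ⟨h0, h1⟩, rfl⟩ := hz
  exact ⟨θ * c, by positivity, by nlinarith, by simp [smul_smul]⟩

/-- Real valued version. -/
theorem toReal_volume_add_segment {K : Set E} (hK : IsCompact K) (hc : Convex ℝ K) {e : E}
    (he : ‖e‖ = 1) {c : ℝ} (h0 : 0 ≤ c) :
    (volume (K + segment ℝ (0 : E) (c • e))).toReal = (volume K).toReal + c * shadowVol K e := by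
  have := segVol_eq hK hc he h0
  rw [segVol] at this
  linarith

omit [FiniteDimensional ℝ E] [MeasurableSpace E] [BorelSpace E] in
theorem exists_unit (w : E) (hw : w ≠ 0) : ∃ e : E, ‖e‖ = 1 ∧ w = ‖w‖ • e := by
  refine ⟨(‖w‖)⁻¹ • w, ?_, ?_⟩
  · rw [norm_smul, norm_inv, norm_norm, inv_mul_cancel₀ (norm_ne_zero_iff.mpr hw)]
  · rw [smul_smul, mul_inv_cancel₀ (norm_ne_zero_iff.mpr hw), one_smul]

theorem segVol_zero (K : Set E) : segVol K (0 : E) = 0 := by
  simp [segVol, segment_same]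

/-- Positive homogeneity of `segVol`. -/
theorem segVol_smul {K : Set E} (hK : IsCompact K) (hc : Convex ℝ K) {t : ℝ} (ht : 0 ≤ t)
    (w : E) : segVol K (t • w) = t * segVol K w := by
  by_cases hw : w = 0
  · subst hw; simp [segVol_zero]
  · obtain ⟨e, he, hwe⟩ := exists_unit w hw
    rw [hwe, smul_smul, segVol_eq hK hc he (by positivity), segVol_eq hK hc he (norm_nonneg _)]
    ring

/-- Continuity of the shadow volume when a small segment is added. -/
theorem tendsto_shadowVol {K : Set E} (hK : IsCompact K) (e w : E) :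
    Filter.Tendsto (fun ε : ℝ => shadowVol (K + segment ℝ (0 : E) (ε • w)) e) (𝓝[>] 0)
      (𝓝 (shadowVol K e)) := by
  set π := (ℝ ∙ e)ᗮ.orthogonalProjectionOnto with hπ
  have hKπ : IsCompact (π '' K) := hK.image π.continuous
  have hlim : Filter.Tendsto (fun δ : ℝ => (volume (Metric.cthickening δ (π '' K))).toReal) (𝓝 0)
      (𝓝 (volume (π '' K)).toReal) :=
    (ENNReal.tendsto_toReal hKπ.measure_lt_top.ne).comp
      (tendsto_measure_cthickening_of_isCompact hKπ)
  have hlim2 : Filter.Tendsto (fun ε : ℝ =>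
      (volume (Metric.cthickening (ε * ‖w‖) (π '' K))).toReal) (𝓝[>] 0)
      (𝓝 (volume (π '' K)).toReal) := by
    refine hlim.comp ?_
    have : Filter.Tendsto (fun ε : ℝ => ε * ‖w‖) (𝓝 0) (𝓝 (0 * ‖w‖)) :=
      (continuous_id.mul continuous_const).tendsto 0
    rw [zero_mul] at this
    exact this.mono_left nhdsWithin_le_nhds
  refine tendsto_of_tendsto_of_tendsto_of_le_of_le' tendsto_const_nhds hlim2 ?_ ?_
  · filter_upwards [self_mem_nhdsWithin] with ε hε
    have hε' : 0 < ε := hε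
    have hKw : IsCompact (K + segment ℝ (0 : E) (ε • w)) := hK.add (isCompact_segment _ _)
    refine ENNReal.toReal_mono (hKw.image π.continuous).measure_lt_top.ne (measure_mono ?_)
    refine image_mono ?_
    intro x hx
    exact ⟨x, hx, 0, left_mem_segment _ _ _, by simp⟩
  · filter_upwards [self_mem_nhdsWithin] with ε hε
    have hε' : 0 < ε := hε
    have hcomp : IsCompact (Metric.cthickening (ε * ‖w‖) (π '' K)) := hKπ.cthickening
    refine ENNReal.toReal_mono hcomp.measure_lt_top.ne (measure_mono ?_)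
    rintro _ ⟨_, ⟨x, hx, z, hz, rfl⟩, rfl⟩
    obtain ⟨t, h0, h1, rfl⟩ := mem_segment_smul hε'.le hz
    refine Metric.mem_cthickening_of_dist_le _ (π x) _ _ ⟨x, hx, rfl⟩ ?_
    rw [dist_eq_norm]
    have : π (x + t • w) - π x = π (t • w) := by simp
    show ‖π (x + t • w) - π x‖ ≤ ε * ‖w‖
    rw [this]
    refine (Submodule.norm_orthogonalProjectionOnto_apply_le _ _).trans ?_
    rw [norm_smul, Real.norm_of_nonneg h0]
    gcongr

omit [FiniteDimensional ℝ E] [MeasurableSpace E] [BorelSpace E] in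
/-- Moving from a boundary point of a ball in a direction pointing strictly inside. -/
theorem mem_ball_of_inner_neg {x v d : E} {r s : ℝ} (hr : 0 < r) (hv : ‖v‖ = 1) (hs : 0 < s)
    (hd : s * ‖d‖ ^ 2 < -(2 * r * ⟪d, v⟫)) : x + s • d ∈ Metric.ball (x - r • v) r := by
  rw [mem_ball_iff_norm]
  have h1 : x + s • d - (x - r • v) = s • d + r • v := by abel
  rw [h1]
  have h2 : ‖s • d + r • v‖ ^ 2 < r ^ 2 := by
    rw [norm_add_sq_real, norm_smul, norm_smul, hv, Real.norm_of_nonneg hs.le,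
      Real.norm_of_nonneg hr.le, real_inner_smul_left, real_inner_smul_right]
    nlinarith
  exact lt_of_pow_lt_pow_left₀ 2 hr.le h2

/-- The region lemma: near an inner ball point the sum with a parallelogram is larger than the
sum with its diagonal, linearly in `ε`. -/
theorem region {K : Set E} (hK : IsCompact K) (hc : Convex ℝ K) {x v : E} {r : ℝ} (hr : 0 < r)
    (hv : ‖v‖ = 1) (hx : x ∈ K) (hball : Metric.closedBall (x - r • v) r ⊆ K)
    (hsup : ∀ z ∈ K, ⟪z, v⟫ ≤ ⟪x, v⟫) {w₁ w₂ : E} (h1 : 0 < ⟪w₁, v⟫) (h2 : ⟪w₂, v⟫ < 0) :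
    ∃ κ : ℝ, 0 < κ ∧ ∀ ε : ℝ, 0 < ε →
      κ * ε + (volume (K + segment ℝ (0 : E) (ε • (w₁ + w₂)))).toReal ≤
        (volume (K + segment ℝ (0 : E) (ε • w₁) + segment ℝ (0 : E) (ε • w₂))).toReal := by
  have hw1 : w₁ ≠ 0 := by
    rintro rfl
    simp at h1
  obtain ⟨e, he, hwe⟩ := exists_unit w₁ hw1
  set L := ‖w₁‖ with hL
  have hLpos : 0 < L := norm_pos_iff.mpr hw1
  have hev : 0 < ⟪e, v⟫ := by
    rw [hwe, real_inner_smul_left] at h1
    exact (pos_iff_pos_of_mul_pos h1).mp hLpos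
  -- the number θ
  obtain ⟨θ, hθ0, hθ1, hθ⟩ : ∃ θ : ℝ, 0 < θ ∧ θ < 1 ∧ ⟪w₂ + θ • w₁, v⟫ < 0 := by
    refine ⟨min (1 / 2) (-⟪w₂, v⟫ / (2 * ⟪w₁, v⟫)), ?_, ?_, ?_⟩
    · exact lt_min (by norm_num) (div_pos (by linarith) (by linarith))
    · exact lt_of_le_of_lt (min_le_left _ _) (by norm_num)
    · rw [inner_add_left, real_inner_smul_left]
      have h3 : min (1 / 2) (-⟪w₂, v⟫ / (2 * ⟪w₁, v⟫)) * ⟪w₁, v⟫ ≤
          (-⟪w₂, v⟫ / (2 * ⟪w₁, v⟫)) * ⟪w₁, v⟫ := by gcongr; exact min_le_right _ _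
      have h4 : (-⟪w₂, v⟫ / (2 * ⟪w₁, v⟫)) * ⟪w₁, v⟫ = -⟪w₂, v⟫ / 2 := by field_simp
      linarith
  set d := w₂ + θ • w₁ with hd
  -- the number s₁
  obtain ⟨s₁, hs0, hs⟩ : ∃ s₁ : ℝ, 0 < s₁ ∧ s₁ * ‖d‖ ^ 2 < -(2 * r * ⟪d, v⟫) := by
    have hpos : 0 < -(r * ⟪d, v⟫) := by nlinarith
    refine ⟨-(r * ⟪d, v⟫) / (‖d‖ ^ 2 + 1), by positivity, ?_⟩
    have : -(r * ⟪d, v⟫) / (‖d‖ ^ 2 + 1) * ‖d‖ ^ 2 ≤ -(r * ⟪d, v⟫) := by
      rw [div_mul_eq_mul_div, div_le_iff₀ (by positivity)]
      nlinarith [sq_nonneg ‖d‖]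
    linarith
  have hin1 := mem_ball_of_inner_neg (x := x) hr hv hs0 hs
  obtain ⟨η, hη, hηK⟩ := Metric.isOpen_ball.mem_nhds hin1 |> Metric.mem_nhds_iff.mp
  have hηK' : Metric.ball (x + s₁ • d) η ⊆ K :=
    hηK.trans (Metric.ball_subset_closedBall.trans hball)
  -- the number σ
  obtain ⟨σ, hσ0, hσ1, hσ2⟩ : ∃ σ : ℝ, 0 < σ ∧ σ ≤ η / 4 ∧ σ < 2 * r * ⟪e, v⟫ := by
    refine ⟨min (η / 4) (r * ⟪e, v⟫), by positivity, min_le_left _ _, ?_⟩
    have : min (η / 4) (r * ⟪e, v⟫) ≤ r * ⟪e, v⟫ := min_le_right _ _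
    have : 0 < r * ⟪e, v⟫ := by positivity
    linarith
  have hin2 : x + σ • (-e) ∈ Metric.ball (x - r • v) r := by
    refine mem_ball_of_inner_neg hr hv hσ0 ?_
    rw [norm_neg, he, inner_neg_left]
    linarith
  obtain ⟨δ₁, hδ₁, hδ₁K⟩ := Metric.isOpen_ball.mem_nhds hin2 |> Metric.mem_nhds_iff.mp
  have hδ₁K' : Metric.ball (x + σ • (-e)) δ₁ ⊆ K :=
    hδ₁K.trans (Metric.ball_subset_closedBall.trans hball)
  have hout : x + σ • e ∈ Kᶜ := by
    intro h
    have := hsup _ h
    rw [inner_add_left, real_inner_smul_left] at this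
    have : 0 < σ * ⟪e, v⟫ := by positivity
    linarith
  obtain ⟨δ₂, hδ₂, hδ₂K⟩ := hK.isClosed.isOpen_compl.mem_nhds hout |> Metric.mem_nhds_iff.mp
  set δ := min (min δ₁ δ₂) (η / 2) with hδ
  have hδpos : 0 < δ := by positivity
  have hδ1 : δ ≤ δ₁ := (min_le_left _ _).trans (min_le_left _ _)
  have hδ2 : δ ≤ δ₂ := (min_le_left _ _).trans (min_le_right _ _)
  have hδ3 : δ ≤ η / 2 := min_le_right _ _
  -- decomposition of x
  set H : Submodule ℝ E := (ℝ ∙ e)ᗮ with hH
  set τ₀ := ⟪e, x⟫ with hτ₀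
  have hy0 : x - τ₀ • e ∈ H := by
    rw [hH, Submodule.mem_orthogonal_singleton_iff_inner_right, inner_sub_right,
      inner_smul_right, real_inner_self_eq_norm_sq, he]
    simp [hτ₀]
  set y₀ : H := ⟨x - τ₀ • e, hy0⟩ with hy₀
  refine ⟨θ * L * (volume (Metric.ball y₀ δ)).toReal, ?_, ?_⟩
  · have hvol : 0 < volume (Metric.ball y₀ δ) := Metric.measure_ball_pos _ _ hδpos
    have hvol2 : volume (Metric.ball y₀ δ) ≠ ∞ := measure_ball_lt_top.ne
    have := ENNReal.toReal_pos hvol.ne' hvol2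
    positivity
  intro ε hε
  set big := K + segment ℝ (0 : E) (ε • w₁) + segment ℝ (0 : E) (ε • w₂) with hbig
  set small := K + segment ℝ (0 : E) (ε • (w₁ + w₂)) with hsmall
  have hbigc : IsCompact big := (hK.add (isCompact_segment _ _)).add (isCompact_segment _ _)
  have hsmallc : IsCompact small := hK.add (isCompact_segment _ _)
  have hsub : small ⊆ big := by
    rintro _ ⟨k, hk, z, hz, rfl⟩
    obtain ⟨t, ht0, ht1, rfl⟩ := mem_segment_smul hε.le hz
    refine ⟨k + t • w₁, ⟨k, hk, t • w₁, smul_mem_segment ht0 ht1 _, rfl⟩, t • w₂,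
      smul_mem_segment ht0 ht1 _, ?_⟩
    simp only [smul_add]
    abel
  have hmeasA : MeasurableSet (big \ small) := hbigc.measurableSet.diff hsmallc.measurableSet
  -- the key inclusion
  have key : ∀ y : H, y ∈ Metric.ball y₀ δ →
      ENNReal.ofReal (θ * L * ε) ≤ volume (slice (big \ small) e (y : E)) := by
    intro y hy
    have hyd : ‖(y : E) - (x - τ₀ • e)‖ < δ := by
      rw [Metric.mem_ball, dist_eq_norm] at hy
      exact hy
    have hlow : τ₀ - σ ∈ slice K e (y : E) := by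
      apply hδ₁K'
      rw [Metric.mem_ball, dist_eq_norm]
      have : (y : E) + (τ₀ - σ) • e - (x + σ • -e) = (y : E) - (x - τ₀ • e) := by module
      rw [this]
      linarith
    have hne : (slice K e (y : E)).Nonempty := ⟨_, hlow⟩
    have hIcc := slice_eq_Icc hK hc he (y : E) hne
    set a := sInf (slice K e (y : E))
    set b := sSup (slice K e (y : E))
    rw [hIcc] at hlow
    have hb1 : b < τ₀ + σ := by
      by_contra hcon
      push Not at hcon
      have hmem : τ₀ + σ ∈ slice K e (y : E) := by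
        rw [hIcc]
        exact ⟨by linarith [hlow.1], hcon⟩
      refine hδ₂K ?_ hmem
      rw [Metric.mem_ball, dist_eq_norm]
      have : (y : E) + (τ₀ + σ) • e - (x + σ • e) = (y : E) - (x - τ₀ • e) := by module
      rw [this]
      linarith
    have hbK : (y : E) + b • e ∈ K := by
      have : b ∈ slice K e (y : E) := by
        rw [hIcc]
        exact ⟨hlow.1.trans hlow.2, le_rfl⟩
      exact this
    set z := (y : E) + b • e with hz
    have hzd : z + s₁ • d ∈ K := by
      apply hηK'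
      rw [Metric.mem_ball, dist_eq_norm]
      have h5 : z + s₁ • d - (x + s₁ • d) = ((y : E) - (x - τ₀ • e)) + (b - τ₀) • e := by
        rw [hz]; module
      rw [h5]
      have h6 : ‖(b - τ₀) • e‖ ≤ σ := by
        rw [norm_smul, he, mul_one, Real.norm_eq_abs, abs_le]
        constructor <;> linarith [hlow.2]
      calc _ ≤ ‖(y : E) - (x - τ₀ • e)‖ + ‖(b - τ₀) • e‖ := norm_add_le _ _
        _ < η := by linarith
    have hIoo : Ioo (b + (1 - θ) * ε * L) (b + ε * L) ⊆ slice (big \ small) e (y : E) := by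
      intro t ht
      have hτ : (y : E) + t • e = z + ((t - b) / L) • w₁ := by
        rw [hz]
        nth_rewrite 1 [hwe]
        rw [smul_smul, div_mul_cancel₀ _ hLpos.ne']
        module
      set τ := (t - b) / L with hτdef
      have hτ1 : (1 - θ) * ε < τ := by
        rw [hτdef, lt_div_iff₀ hLpos]
        linarith [ht.1]
      have hτ2 : τ < ε := by
        rw [hτdef, div_lt_iff₀ hLpos]
        linarith [ht.2]
      have hτ0 : 0 < τ := by
        have : 0 ≤ (1 - θ) * ε := by
          apply mul_nonneg <;> linarith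
        linarith
      refine ⟨?_, ?_⟩
      · rw [hτ]
        exact ⟨z + τ • w₁, ⟨z, hbK, τ • w₁, smul_mem_segment hτ0.le hτ2.le _, rfl⟩, 0,
          left_mem_segment _ _ _, by simp⟩
      · rintro ⟨q, hq, z', hz', hqz⟩
        obtain ⟨s, hs0', hs1', rfl⟩ := mem_segment_smul hε.le hz'
        simp only at hqz
        rw [hτ] at hqz
        have hq' : q = z - s • d + (τ - s * (1 - θ)) • w₁ := by
          have : q = z + τ • w₁ - s • (w₁ + w₂) := by rw [← hqz]; abel
          rw [this, hd]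
          module
        have hpos : 0 < τ - s * (1 - θ) := by nlinarith
        have hsum : 0 < s₁ + s := by linarith
        have hcomb : (s₁ / (s₁ + s)) • q + (s / (s₁ + s)) • (z + s₁ • d) ∈ K := by
          refine hc hq hzd (by positivity) (by positivity) ?_
          field_simp
        have hcomb2 : (s₁ / (s₁ + s)) • q + (s / (s₁ + s)) • (z + s₁ • d) =
            z + ((s₁ / (s₁ + s)) * (τ - s * (1 - θ))) • w₁ := by
          have h7 : s₁ / (s₁ + s) + s / (s₁ + s) = 1 := by field_simp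
          have h8 : z = (s₁ / (s₁ + s) + s / (s₁ + s)) • z := by rw [h7, one_smul]
          rw [hq']
          calc _ = (s₁ / (s₁ + s) + s / (s₁ + s)) • z +
              ((s / (s₁ + s)) * s₁ - (s₁ / (s₁ + s)) * s) • d +
              ((s₁ / (s₁ + s)) * (τ - s * (1 - θ))) • w₁ := by module
            _ = _ := by
              rw [← h8]
              have h9 : (s / (s₁ + s)) * s₁ - (s₁ / (s₁ + s)) * s = 0 := by ring
              rw [h9, zero_smul, add_zero]
        rw [hcomb2] at hcomb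
        set c' := (s₁ / (s₁ + s)) * (τ - s * (1 - θ)) with hc'
        have hc'pos : 0 < c' := by positivity
        have hmem : b + c' * L ∈ slice K e (y : E) := by
          show (y : E) + (b + c' * L) • e ∈ K
          have : (y : E) + (b + c' * L) • e = z + c' • w₁ := by
            rw [hz]
            nth_rewrite 1 [hwe]
            module
          rw [this]
          exact hcomb
        rw [hIcc] at hmem
        have : 0 < c' * L := by positivity
        linarith [hmem.2]
    calc ENNReal.ofReal (θ * L * ε) = volume (Ioo (b + (1 - θ) * ε * L) (b + ε * L)) := by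
          rw [Real.volume_Ioo]
          congr 1
          ring
      _ ≤ _ := measure_mono hIoo
  have hA : ENNReal.ofReal (θ * L * ε) * volume (Metric.ball y₀ δ) ≤ volume (big \ small) := by
    rw [volume_eq_lintegral_line he hmeasA]
    calc ENNReal.ofReal (θ * L * ε) * volume (Metric.ball y₀ δ)
        = ∫⁻ _ in Metric.ball y₀ δ, ENNReal.ofReal (θ * L * ε) := by
          rw [setLIntegral_const]
      _ ≤ ∫⁻ y in Metric.ball y₀ δ, volume (slice (big \ small) e (y : E)) := by
          exact setLIntegral_mono' measurableSet_ball key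
      _ ≤ _ := setLIntegral_le_lintegral _ _
  have hdiff : volume big = volume (big \ small) + volume small := by
    rw [measure_sdiff hsub hsmallc.measurableSet.nullMeasurableSet hsmallc.measure_lt_top.ne]
    exact (tsub_add_cancel_of_le (measure_mono hsub)).symm
  rw [hdiff, ENNReal.toReal_add (ne_top_of_le_ne_top hbigc.measure_lt_top.ne
    (measure_mono sdiff_subset)) hsmallc.measure_lt_top.ne]
  have hA' : θ * L * ε * (volume (Metric.ball y₀ δ)).toReal ≤ (volume (big \ small)).toReal := by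
    have := ENNReal.toReal_mono (ne_top_of_le_ne_top hbigc.measure_lt_top.ne
      (measure_mono sdiff_subset)) hA
    rw [ENNReal.toReal_mul, ENNReal.toReal_ofReal (by positivity)] at this
    exact this
  linarith

/-- Strict subadditivity at an inner ball point. -/
theorem segVol_add_lt {K : Set E} (hK : IsCompact K) (hc : Convex ℝ K) {x v : E} {r : ℝ}
    (hr : 0 < r) (hv : ‖v‖ = 1) (hx : x ∈ K) (hball : Metric.closedBall (x - r • v) r ⊆ K)
    (hsup : ∀ z ∈ K, ⟪z, v⟫ ≤ ⟪x, v⟫) {w₁ w₂ : E} (h1 : 0 < ⟪w₁, v⟫) (h2 : ⟪w₂, v⟫ < 0) :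
    segVol K (w₁ + w₂) < segVol K w₁ + segVol K w₂ := by
  obtain ⟨κ, hκ, hreg⟩ := region hK hc hr hv hx hball hsup h1 h2
  have hw2 : w₂ ≠ 0 := by
    rintro rfl
    simp at h2
  obtain ⟨e, he, hwe⟩ := exists_unit w₂ hw2
  have hineq : ∀ ε : ℝ, 0 < ε → κ ≤ segVol K w₁ +
      ‖w₂‖ * shadowVol (K + segment ℝ (0 : E) (ε • w₁)) e - segVol K (w₁ + w₂) := by
    intro ε hε
    have h3 := hreg ε hε
    have hK1 : IsCompact (K + segment ℝ (0 : E) (ε • w₁)) := hK.add (isCompact_segment _ _)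
    have hc1 := convex_add_segment hc (ε • w₁)
    have h4 : (volume (K + segment ℝ (0 : E) (ε • w₁) + segment ℝ (0 : E) (ε • w₂))).toReal =
        (volume (K + segment ℝ (0 : E) (ε • w₁))).toReal +
        ε * (‖w₂‖ * shadowVol (K + segment ℝ (0 : E) (ε • w₁)) e) := by
      have h5 := segVol_smul hK1 hc1 hε.le w₂
      have h6 : segVol (K + segment ℝ (0 : E) (ε • w₁)) w₂ =
          ‖w₂‖ * shadowVol (K + segment ℝ (0 : E) (ε • w₁)) e := by
        conv_lhs => rw [hwe]
        exact segVol_eq hK1 hc1 he (norm_nonneg _)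
      rw [h6, segVol] at h5
      linarith
    have h5 : (volume (K + segment ℝ (0 : E) (ε • w₁))).toReal =
        (volume K).toReal + ε * segVol K w₁ := by
      have := segVol_smul hK hc hε.le w₁
      rw [segVol] at this
      linarith
    have h6 : (volume (K + segment ℝ (0 : E) (ε • (w₁ + w₂)))).toReal =
        (volume K).toReal + ε * segVol K (w₁ + w₂) := by
      have := segVol_smul hK hc hε.le (w₁ + w₂)
      rw [segVol] at this
      linarith
    rw [h4, h5, h6] at h3
    have h7 : κ * ε ≤ (segVol K w₁ +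
      ‖w₂‖ * shadowVol (K + segment ℝ (0 : E) (ε • w₁)) e - segVol K (w₁ + w₂)) * ε := by
      linarith
    exact le_of_mul_le_mul_right h7 hε
  have hlim : Filter.Tendsto (fun ε : ℝ => segVol K w₁ +
      ‖w₂‖ * shadowVol (K + segment ℝ (0 : E) (ε • w₁)) e - segVol K (w₁ + w₂)) (𝓝[>] 0)
      (𝓝 (segVol K w₁ + ‖w₂‖ * shadowVol K e - segVol K (w₁ + w₂))) :=
    (((tendsto_shadowVol hK e w₁).const_mul _).const_add _).sub_const _
  have h8 : κ ≤ segVol K w₁ + ‖w₂‖ * shadowVol K e - segVol K (w₁ + w₂) := by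
    refine ge_of_tendsto hlim ?_
    filter_upwards [self_mem_nhdsWithin] with ε hε
    exact hineq ε hε
  have h9 : segVol K w₂ = ‖w₂‖ * shadowVol K e := by
    conv_lhs => rw [hwe]
    exact segVol_eq hK hc he (norm_nonneg _)
  linarith

theorem strictStmt : StrictStmt := fun _ hK hc _ _ _ hr hv hx hball hsup _ _ h1 h2 =>
  segVol_add_lt hK hc hr hv hx hball hsup h1 h2

end Pool.Agent.Helper55_PB
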