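import Pool.Agent.Helper55_PB.Mid

open MeasureTheory Module Set
open scoped RealInnerProductSpace Pointwise Topology

namespace Pool.Agent.Helper55_PB

variable {E : Type} [NormedAddCommGroup E] [InnerProductSpace ℝ E] [FiniteDimensional ℝ E]
  [MeasurableSpace E] [BorelSpace E]

/-- Expansion of the defect of the sum with a weighted zonotope. -/
theorem defect_sum (hom : DelHomStmt) (perm : DelPermStmt) (m : E → ℝ) (w₁ w₂ : E) {r : ℝ}
    (hr : 0 ≤ r) (T : Finset E) : ∀ (K : Set E), IsCompact K → Convex ℝ K → K.Nonempty →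
    (∀ p ∈ T, 0 ≤ m p) →
    defect (K + ∑ p ∈ T, segment ℝ (0 : E) ((r * m p) • p)) w₁ w₂ =
      ∑ s ∈ T.powerset, r ^ s.card * (∏ p ∈ s, m p) * Del s.toList K w₁ w₂ := by
  classical
  induction T using Finset.induction_on with
  | empty =>
    intro K _ _ _ _
    simp [Del]
  | insert a T ha ih =>
    intro K hK hc hne hm
    have hma : 0 ≤ m a := hm a (Finset.mem_insert_self _ _)
    have hmT : ∀ p ∈ T, 0 ≤ m p := fun p hp => hm p (Finset.mem_insert_of_mem hp)
    rw [Finset.sum_insert ha, ← add_assoc,
      ih (K + segment ℝ (0 : E) ((r * m a) • a)) (hK.add (isCompact_segment _ _))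
        (convex_add_segment hc _) (hne.add ⟨0, left_mem_segment _ _ _⟩) hmT,
      Finset.sum_powerset_insert ha, ← Finset.sum_add_distrib]
    refine Finset.sum_congr rfl ?_
    intro s hs
    have has : a ∉ s := fun h => ha (Finset.mem_powerset.mp hs h)
    have h1 : Del s.toList (K + segment ℝ (0 : E) ((r * m a) • a)) w₁ w₂ =
        (r * m a) * Del (a :: s.toList) K w₁ w₂ + Del s.toList K w₁ w₂ := by
      rw [← hom s.toList K hK hc hne (r * m a) a w₁ w₂ (by positivity)]
      simp only [Del]
      ring
    have h2 : Del (insert a s).toList K w₁ w₂ = Del (a :: s.toList) K w₁ w₂ :=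
      perm _ _ (Finset.toList_insert has) K w₁ w₂
    rw [h1, h2, Finset.card_insert_of_notMem has, Finset.prod_insert has, pow_succ]
    ring

end Pool.Agent.Helper55_PB
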