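import Pool.Agent.Helper55_PB.Defs

open MeasureTheory Module Set
open scoped RealInnerProductSpace Pointwise ENNReal Classical

namespace Pool.Agent.Helper55_PB

variable {E : Type*} [NormedAddCommGroup E] [InnerProductSpace ℝ E] [FiniteDimensional ℝ E]
  [MeasurableSpace E] [BorelSpace E]

/-- The map `(y, t) ↦ y + t e` from `e^⊥ × ℝ` to `E`. -/
def lineMap (e : E) (p : ((ℝ ∙ e)ᗮ : Submodule ℝ E) × ℝ) : E := (p.1 : E) + p.2 • e

theorem measurePreserving_lineMap {e : E} (he : ‖e‖ = 1) :
    MeasurePreserving (lineMap e) (volume : Measure (((ℝ ∙ e)ᗮ : Submodule ℝ E) × ℝ)) volume := by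
  have h1 : MeasurePreserving (LinearIsometryEquiv.toSpanUnitSingleton (𝕜 := ℝ) e he) :=
    LinearIsometryEquiv.measurePreserving _
  have h2 : MeasurePreserving (Prod.swap : (((ℝ ∙ e)ᗮ : Submodule ℝ E) × ℝ) → _)
      (volume : Measure (((ℝ ∙ e)ᗮ : Submodule ℝ E) × ℝ)) volume :=
    Measure.measurePreserving_swap
  have h3 : MeasurePreserving (Prod.map (LinearIsometryEquiv.toSpanUnitSingleton (𝕜 := ℝ) e he)
      (id : ((ℝ ∙ e)ᗮ : Submodule ℝ E) → _)) (volume : Measure (ℝ × ((ℝ ∙ e)ᗮ : Submodule ℝ E)))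
      volume := h1.prod (MeasurePreserving.id _)
  have h4 := WithLp.volume_preserving_toLp (ℝ ∙ e) ((ℝ ∙ e)ᗮ : Submodule ℝ E)
  have h5 : MeasurePreserving (Submodule.orthogonalDecomposition (ℝ ∙ e)).symm :=
    LinearIsometryEquiv.measurePreserving _
  have h := h5.comp (h4.comp (h3.comp h2))
  have h6 : lineMap e = (Submodule.orthogonalDecomposition (ℝ ∙ e)).symm ∘
      (WithLp.toLp 2 ∘ (Prod.map (LinearIsometryEquiv.toSpanUnitSingleton (𝕜 := ℝ) e he)
      (id : ((ℝ ∙ e)ᗮ : Submodule ℝ E) → _) ∘ Prod.swap)) := by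
    funext p
    simp [lineMap, add_comm]
  rw [h6]
  exact h

/-- The slice of `K` along the line through `y` in direction `e`. -/
def slice (K : Set E) (e y : E) : Set ℝ := {t : ℝ | y + t • e ∈ K}

/-- Fubini along the direction of the unit vector `e`. -/
theorem volume_eq_lintegral_line {e : E} (he : ‖e‖ = 1) {A : Set E} (hA : MeasurableSet A) :
    volume A = ∫⁻ y : ((ℝ ∙ e)ᗮ : Submodule ℝ E), volume (slice A e (y : E)) := by
  have h := measurePreserving_lineMap he
  rw [← h.measure_preimage hA.nullMeasurableSet]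
  rw [Measure.volume_eq_prod, Measure.prod_apply (h.measurable hA)]
  rfl

omit [FiniteDimensional ℝ E] [MeasurableSpace E] [BorelSpace E] in
theorem isCompact_slice {K : Set E} (hK : IsCompact K) {e : E} (he : ‖e‖ = 1) (y : E) :
    IsCompact (slice K e y) := by
  have hc : IsClosed (slice K e y) := by
    refine hK.isClosed.preimage ?_
    fun_prop
  obtain ⟨R, hR⟩ := hK.isBounded.exists_norm_le
  refine Metric.isCompact_of_isClosed_isBounded hc ?_
  refine (Metric.isBounded_closedBall (x := (0 : ℝ)) (r := R + ‖y‖)).subset ?_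
  intro t ht
  have h1 : ‖y + t • e‖ ≤ R := hR _ ht
  have h2 : ‖t • e‖ ≤ ‖y + t • e‖ + ‖y‖ := by
    have : t • e = (y + t • e) - y := by abel
    calc ‖t • e‖ = ‖(y + t • e) - y‖ := by rw [← this]
      _ ≤ _ := norm_sub_le _ _
  rw [norm_smul, he, mul_one] at h2
  rw [Metric.mem_closedBall, dist_zero_right]
  linarith

omit [FiniteDimensional ℝ E] [MeasurableSpace E] [BorelSpace E] in
theorem convex_slice {K : Set E} (hK : Convex ℝ K) (e y : E) : Convex ℝ (slice K e y) := by
  intro s hs t ht a b ha hb hab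
  have := hK hs ht ha hb hab
  simp only [slice, mem_ofPred_eq] at *
  convert this using 1
  have h1 : a • y + b • y = y := by rw [← add_smul, hab, one_smul]
  calc y + (a • s + b • t) • e = (a • y + b • y) + (a * s + b * t) • e := by rw [h1]; simp
    _ = a • (y + s • e) + b • (y + t • e) := by module

omit [FiniteDimensional ℝ E] [MeasurableSpace E] [BorelSpace E] in
theorem slice_eq_Icc {K : Set E} (hK : IsCompact K) (hc : Convex ℝ K) {e : E} (he : ‖e‖ = 1)
    (y : E) (hne : (slice K e y).Nonempty) :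
    slice K e y = Icc (sInf (slice K e y)) (sSup (slice K e y)) :=
  eq_Icc_of_connected_compact ((convex_slice hc e y).isConnected hne) (isCompact_slice hK he y)

omit [FiniteDimensional ℝ E] [MeasurableSpace E] [BorelSpace E] in
theorem slice_add_segment (K : Set E) (e y : E) {c : ℝ} (hc : 0 ≤ c) :
    slice (K + segment ℝ (0 : E) (c • e)) e y = {t | ∃ s ∈ slice K e y, s ≤ t ∧ t ≤ s + c} := by
  ext t
  simp only [slice, mem_ofPred_eq, mem_add]
  constructor
  · rintro ⟨x, hx, z, hz, hxz⟩
    rw [segment_eq_image] at hz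
    obtain ⟨θ, ⟨h0, h1⟩, rfl⟩ := hz
    refine ⟨t - θ * c, ?_, by nlinarith, by nlinarith⟩
    have : y + (t - θ * c) • e = x := by
      simp only [smul_zero, zero_add] at hxz
      have h2 : x = (y + t • e) - (θ • c • e) := by rw [← hxz]; abel
      rw [h2]
      module
    rw [this]
    exact hx
  · rintro ⟨s, hs, h1, h2⟩
    refine ⟨y + s • e, hs, (t - s) • e, ?_, by module⟩
    rw [segment_eq_image]
    rcases eq_or_lt_of_le hc with h | h
    · subst h
      have : t = s := by linarith
      subst this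
      exact ⟨0, by simp, by simp⟩
    · refine ⟨(t - s) / c, ⟨by apply div_nonneg <;> linarith, by rw [div_le_one h]; linarith⟩, ?_⟩
      simp only [smul_zero, zero_add, smul_smul]
      congr 1
      field_simp

omit [FiniteDimensional ℝ E] [MeasurableSpace E] [BorelSpace E] in
theorem volume_slice_add {K : Set E} (hK : IsCompact K) (hc : Convex ℝ K) {e : E} (he : ‖e‖ = 1)
    (y : E) {c : ℝ} (h0 : 0 ≤ c) :
    volume (slice (K + segment ℝ (0 : E) (c • e)) e y) =
      volume (slice K e y) + (if (slice K e y).Nonempty then ENNReal.ofReal c else 0) := by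
  rw [slice_add_segment K e y h0]
  split_ifs with hne
  · rw [slice_eq_Icc hK hc he y hne]
    set a := sInf (slice K e y)
    set b := sSup (slice K e y)
    have hab : a ≤ b := by
      have h1 := slice_eq_Icc hK hc he y hne
      rw [h1] at hne
      exact nonempty_Icc.mp hne
    have : {t | ∃ s ∈ Icc a b, s ≤ t ∧ t ≤ s + c} = Icc a (b + c) := by
      ext t
      simp only [mem_ofPred_eq, mem_Icc]
      constructor
      · rintro ⟨s, ⟨h1, h2⟩, h3, h4⟩
        exact ⟨by linarith, by linarith⟩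
      · rintro ⟨h1, h2⟩
        refine ⟨min t b, ⟨le_min h1 hab, min_le_right _ _⟩, min_le_left _ _, ?_⟩
        rcases le_total t b with h | h
        · rw [min_eq_left h]; linarith
        · rw [min_eq_right h]; linarith
    rw [this, Real.volume_Icc, Real.volume_Icc, ← ENNReal.ofReal_add (by linarith) h0]
    congr 1
    ring
  · rw [not_nonempty_iff_eq_empty] at hne
    simp [hne]

omit [FiniteDimensional ℝ E] [MeasurableSpace E] [BorelSpace E] in
theorem mem_proj_iff {K : Set E} {e : E} (he : ‖e‖ = 1) (y : ((ℝ ∙ e)ᗮ : Submodule ℝ E)) :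
    y ∈ (ℝ ∙ e)ᗮ.orthogonalProjectionOnto '' K ↔ (slice K e (y : E)).Nonempty := by
  have hdec : ∀ x : E, ((((ℝ ∙ e)ᗮ.orthogonalProjectionOnto x : ((ℝ ∙ e)ᗮ : Submodule ℝ E)) : E))
      = x - ⟪e, x⟫ • e := by
    intro x
    have h1 := Submodule.starProjection_orthogonal' (ℝ ∙ e)
    have h2 : ((((ℝ ∙ e)ᗮ.orthogonalProjectionOnto x : ((ℝ ∙ e)ᗮ : Submodule ℝ E)) : E))
      = (ℝ ∙ e)ᗮ.starProjection x := rfl
    rw [h2, h1]
    simp [Submodule.starProjection_unit_singleton ℝ he]
  constructor
  · rintro ⟨x, hx, rfl⟩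
    refine ⟨⟪e, x⟫, ?_⟩
    simp only [slice, mem_ofPred_eq]
    rw [hdec]
    simpa using hx
  · rintro ⟨t, ht⟩
    refine ⟨(y : E) + t • e, ht, ?_⟩
    apply Subtype.ext
    rw [hdec]
    have h3 : ⟪e, (y : E)⟫ = 0 := (Submodule.mem_orthogonal_singleton_iff_inner_right).mp y.2
    rw [inner_add_right, h3, inner_smul_right, real_inner_self_eq_norm_sq, he]
    simp

omit [FiniteDimensional ℝ E] [MeasurableSpace E] [BorelSpace E] in
theorem isCompact_segment (x y : E) : IsCompact (segment ℝ x y) := by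
  rw [segment_eq_image]
  exact isCompact_Icc.image (by fun_prop)

theorem volume_add_segment {K : Set E} (hK : IsCompact K) (hc : Convex ℝ K) {e : E}
    (he : ‖e‖ = 1) {c : ℝ} (h0 : 0 ≤ c) :
    volume (K + segment ℝ (0 : E) (c • e)) = volume K +
      ENNReal.ofReal c * volume ((ℝ ∙ e)ᗮ.orthogonalProjectionOnto '' K) := by
  have hK' : IsCompact (K + segment ℝ (0 : E) (c • e)) := hK.add (isCompact_segment _ _)
  rw [volume_eq_lintegral_line he hK'.measurableSet, volume_eq_lintegral_line he hK.measurableSet]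
  have h1 : ∀ y : ((ℝ ∙ e)ᗮ : Submodule ℝ E),
      volume (slice (K + segment ℝ (0 : E) (c • e)) e (y : E)) =
      volume (slice K e (y : E)) + ((ℝ ∙ e)ᗮ.orthogonalProjectionOnto '' K).indicator (fun _ => ENNReal.ofReal c) y := by
    intro y
    have := volume_slice_add hK hc he (y : E) h0
    rw [this]
    congr 1
    by_cases hy : y ∈ (ℝ ∙ e)ᗮ.orthogonalProjectionOnto '' K
    · rw [indicator_of_mem hy, if_pos ((mem_proj_iff he y).mp hy)]
    · rw [indicator_of_notMem hy, if_neg (fun h => hy ((mem_proj_iff he y).mpr h))]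
  simp_rw [h1]
  have hm : MeasurableSet ((ℝ ∙ e)ᗮ.orthogonalProjectionOnto '' K) :=
    (hK.image (ContinuousLinearMap.continuous _)).measurableSet
  rw [lintegral_add_right _ (measurable_const.indicator hm), lintegral_indicator hm,
    setLIntegral_const]

theorem segVol_eq {K : Set E} (hK : IsCompact K) (hc : Convex ℝ K) {e : E} (he : ‖e‖ = 1)
    {c : ℝ} (h0 : 0 ≤ c) : segVol K (c • e) = c * shadowVol K e := by
  rw [segVol, volume_add_segment hK hc he h0, shadowVol]
  have h1 : volume K ≠ ∞ := hK.measure_lt_top.ne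
  have h2 : volume ((ℝ ∙ e)ᗮ.orthogonalProjectionOnto '' K) ≠ ∞ :=
    (hK.image (ContinuousLinearMap.continuous _)).measure_lt_top.ne
  rw [ENNReal.toReal_add h1 (ENNReal.mul_ne_top ENNReal.ofReal_ne_top h2), ENNReal.toReal_mul,
    ENNReal.toReal_ofReal h0]
  ring

theorem volStmt : VolStmt := fun _ hK hc _ _ _ he h0 => segVol_eq hK hc he h0

end Pool.Agent.Helper55_PB
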