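import Pool.Agent.Helper55_PB.Sum

open MeasureTheory Module Set
open scoped RealInnerProductSpace Pointwise Topology

namespace Pool.Agent.Helper55_PB

variable {E : Type} [NormedAddCommGroup E] [InnerProductSpace ℝ E] [FiniteDimensional ℝ E]
  [MeasurableSpace E] [BorelSpace E]

omit [FiniteDimensional ℝ E] [MeasurableSpace E] [BorelSpace E] in
theorem abs_max_inner_sub (x y u : E) :
    |max ⟪x, u⟫ 0 - max ⟪y, u⟫ 0| ≤ ‖x - y‖ * ‖u‖ := by
  refine (abs_max_sub_max_le_abs _ _ _).trans ?_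
  rw [← inner_sub_left]
  exact abs_real_inner_le_norm _ _

omit [FiniteDimensional ℝ E] [MeasurableSpace E] [BorelSpace E] in
theorem abs_max_inner_le (x u : E) : |max ⟪x, u⟫ 0| ≤ ‖x‖ * ‖u‖ := by
  have := abs_max_inner_sub x 0 u
  simpa using this

theorem integrable_max_inner (R : ℝ) (u : E) :
    Integrable (fun x : E => max ⟪x, u⟫ 0) (volume.restrict (Metric.closedBall (0 : E) R)) := by
  have hc : Continuous (fun x : E => max ⟪x, u⟫ 0) := by fun_prop
  exact hc.continuousOn.integrableOn_compact (isCompact_closedBall 0 R)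

/-- The mean support function of segments from the origin to points of a ball. -/
theorem integral_max_inner_rot (R : ℝ) {u v : E} (h : ‖u‖ = ‖v‖) :
    ∫ x in Metric.closedBall (0 : E) R, max ⟪x, u⟫ 0 =
      ∫ x in Metric.closedBall (0 : E) R, max ⟪x, v⟫ 0 := by
  set ρ : E ≃ₗᵢ[ℝ] E := Submodule.reflection (ℝ ∙ (u - v))ᗮ with hρ
  have hρu : ρ u = v := Submodule.reflection_sub h
  have hmp : MeasurePreserving ρ := ρ.measurePreserving
  have hpre : ρ ⁻¹' (Metric.closedBall (0 : E) R) = Metric.closedBall (0 : E) R := by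
    ext x
    simp
  have h1 := hmp.setIntegral_preimage_emb ρ.toHomeomorph.measurableEmbedding
    (fun x => max ⟪x, v⟫ 0) (Metric.closedBall (0 : E) R)
  rw [hpre] at h1
  rw [← h1]
  refine integral_congr_ae (Filter.Eventually.of_forall ?_)
  intro x
  show max ⟪x, u⟫ 0 = max ⟪ρ x, v⟫ 0
  rw [← hρu, ρ.inner_map_map]

theorem exists_mean_const [Nontrivial E] {R : ℝ} (hR : 0 < R) :
    ∃ c : ℝ, 0 < c ∧ ∀ u : E, ∫ x in Metric.closedBall (0 : E) R, max ⟪x, u⟫ 0 = c * ‖u‖ := by
  obtain ⟨e, he⟩ := exists_norm_eq E zero_le_one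
  set c := ∫ x in Metric.closedBall (0 : E) R, max ⟪x, e⟫ 0 with hc
  refine ⟨c, ?_, ?_⟩
  · have hnn : 0 ≤ (fun x : E => max ⟪x, e⟫ 0) := fun x => le_max_right _ _
    rw [hc, integral_pos_iff_support_of_nonneg hnn (integrable_max_inner R e)]
    set U : Set E := {x | 0 < ⟪x, e⟫} ∩ Metric.ball 0 R with hU
    have hUo : IsOpen U := (isOpen_lt continuous_const (by fun_prop)).inter Metric.isOpen_ball
    have hUne : U.Nonempty := by
      refine ⟨(R / 2) • e, ?_, ?_⟩
      · show 0 < ⟪(R / 2) • e, e⟫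
        rw [real_inner_smul_left, real_inner_self_eq_norm_sq, he]
        positivity
      · rw [Metric.mem_ball, dist_zero_right, norm_smul, he, Real.norm_of_nonneg (by positivity)]
        linarith
    have hpos : 0 < volume U := hUo.measure_pos _ hUne
    refine lt_of_lt_of_le hpos ?_
    rw [Measure.restrict_apply' measurableSet_closedBall]
    refine measure_mono ?_
    rintro x ⟨h1, h2⟩
    refine ⟨?_, Metric.ball_subset_closedBall h2⟩
    rw [Function.mem_support]
    have h1' : 0 < ⟪x, e⟫ := h1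
    rw [max_eq_left h1'.le]
    exact h1'.ne'
  · intro u
    have h1 : ‖u‖ = ‖‖u‖ • e‖ := by rw [norm_smul, he, norm_norm, mul_one]
    rw [integral_max_inner_rot R h1, hc]
    have h2 : ∀ x : E, max ⟪x, ‖u‖ • e⟫ 0 = ‖u‖ * max ⟪x, e⟫ 0 := by
      intro x
      rw [inner_smul_right, mul_max_of_nonneg _ _ (norm_nonneg u), mul_zero]
    simp_rw [h2]
    rw [integral_const_mul, mul_comm]

/-- Approximation of the identity on a ball by a simple function. -/
theorem exists_simple (R : ℝ) {δ : ℝ} (hδ : 0 < δ) :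
    ∃ φ : SimpleFunc E E, ∀ x ∈ Metric.closedBall (0 : E) R, ‖φ x - x‖ < δ := by
  have hcomp : IsCompact (Metric.closedBall (0 : E) R) := isCompact_closedBall 0 R
  obtain ⟨t, _, htf, htc⟩ := hcomp.finite_cover_balls hδ
  -- enumerate t
  have hcount : t.Countable := htf.countable
  rcases t.eq_empty_or_nonempty with hte | htne
  · refine ⟨SimpleFunc.const E 0, ?_⟩
    intro x hx
    have := htc hx
    rw [hte] at this
    simp at this
  · obtain ⟨e, he⟩ := hcount.exists_eq_range htne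
    obtain ⟨N, hN⟩ : ∃ N : ℕ, ∀ p ∈ t, ∃ k ≤ N, e k = p := by
      have h1 : ∀ p ∈ t, ∃ k, e k = p := by
        intro p hp
        rw [he] at hp
        exact hp
      choose! f hf using h1
      refine ⟨htf.toFinset.sup f, ?_⟩
      intro p hp
      exact ⟨f p, Finset.le_sup (f := f) (htf.mem_toFinset.mpr hp), hf p hp⟩
    refine ⟨SimpleFunc.nearestPt e N, ?_⟩
    intro x hx
    have h2 := htc hx
    simp only [mem_iUnion] at h2
    obtain ⟨p, hp, hxp⟩ := h2
    obtain ⟨k, hk, hkp⟩ := hN p hp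
    have h3 := SimpleFunc.edist_nearestPt_le e x hk
    rw [hkp] at h3
    have h4 : edist (SimpleFunc.nearestPt e N x) x < ENNReal.ofReal δ := by
      refine lt_of_le_of_lt h3 ?_
      rw [edist_comm, edist_dist]
      exact (ENNReal.ofReal_lt_ofReal_iff hδ).mpr hxp
    rw [edist_dist, ENNReal.ofReal_lt_ofReal_iff hδ, dist_eq_norm] at h4
    exact h4

/-- The weights of the approximating zonotope. -/
noncomputable def wt (R : ℝ) (φ : SimpleFunc E E) (p : E) : ℝ :=
  (volume.restrict (Metric.closedBall (0 : E) R)).real (φ ⁻¹' {p})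

theorem wt_nonneg (R : ℝ) (φ : SimpleFunc E E) (p : E) : 0 ≤ wt R φ p := measureReal_nonneg

theorem sum_wt_approx {R c : ℝ}
    (hc : ∀ u : E, ∫ x in Metric.closedBall (0 : E) R, max ⟪x, u⟫ 0 = c * ‖u‖) {δ : ℝ}
    {φ : SimpleFunc E E} (hφ : ∀ x ∈ Metric.closedBall (0 : E) R, ‖φ x - x‖ < δ) (u : E) :
    |∑ p ∈ φ.range, wt R φ p * max ⟪p, u⟫ 0 - c * ‖u‖| ≤
      δ * (volume (Metric.closedBall (0 : E) R)).toReal * ‖u‖ := by
  have : IsFiniteMeasure (volume.restrict (Metric.closedBall (0 : E) R)) :=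
    isFiniteMeasure_restrict.mpr (isCompact_closedBall (0 : E) R).measure_lt_top.ne
  set μ := volume.restrict (Metric.closedBall (0 : E) R) with hμ
  have hint : Integrable φ μ := SimpleFunc.integrable_of_isFiniteMeasure φ
  have h1 : ∑ p ∈ φ.range, wt R φ p * max ⟪p, u⟫ 0 = ∫ x, max ⟪φ x, u⟫ 0 ∂μ := by
    have h2 := SimpleFunc.map_integral φ (fun p : E => max ⟪p, u⟫ (0 : ℝ)) hint (by simp)
    have h3 : Integrable (φ.map (fun p : E => max ⟪p, u⟫ (0 : ℝ))) μ :=
      SimpleFunc.integrable_of_isFiniteMeasure _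
    rw [SimpleFunc.integral_eq_integral _ h3] at h2
    simp only [smul_eq_mul] at h2
    rw [SimpleFunc.coe_map] at h2
    exact h2.symm
  rw [h1, ← hc u]
  have hI1 : Integrable (fun x => max ⟪φ x, u⟫ 0) μ := by
    have h3 : Integrable (φ.map (fun p : E => max ⟪p, u⟫ (0 : ℝ))) μ :=
      SimpleFunc.integrable_of_isFiniteMeasure _
    rw [SimpleFunc.coe_map] at h3
    exact h3
  rw [← integral_sub hI1 (integrable_max_inner R u), ← Real.norm_eq_abs]
  have h4 : ∀ᵐ x ∂μ, ‖max ⟪φ x, u⟫ 0 - max ⟪x, u⟫ 0‖ ≤ δ * ‖u‖ := by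
    rw [hμ, ae_restrict_iff' measurableSet_closedBall]
    refine Filter.Eventually.of_forall ?_
    intro x hx
    rw [Real.norm_eq_abs]
    refine (abs_max_inner_sub _ _ _).trans ?_
    gcongr
    exact (hφ x hx).le
  have h5 := norm_integral_le_of_norm_le_const h4
  refine h5.trans (le_of_eq ?_)
  rw [hμ, measureReal_restrict_apply MeasurableSet.univ, univ_inter, measureReal_def]
  ring

theorem le_sum_wt {R : ℝ} {δ η : ℝ} {φ : SimpleFunc E E}
    (hφ : ∀ x ∈ Metric.closedBall (0 : E) R, ‖φ x - x‖ < δ) (hδη : δ ≤ η / 2) {q : E}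
    (hq : Metric.ball q (η / 2) ⊆ Metric.closedBall (0 : E) R) [DecidablePred (fun p : E => ‖p - q‖ < η)] :
    (volume (Metric.ball q (η / 2))).toReal ≤
      ∑ p ∈ φ.range.filter (fun p => ‖p - q‖ < η), wt R φ p := by
  have : IsFiniteMeasure (volume.restrict (Metric.closedBall (0 : E) R)) :=
    isFiniteMeasure_restrict.mpr (isCompact_closedBall (0 : E) R).measure_lt_top.ne
  set μ := volume.restrict (Metric.closedBall (0 : E) R) with hμ
  set T' := φ.range.filter (fun p => ‖p - q‖ < η) with hT'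
  have h1 : ∑ p ∈ T', wt R φ p = (μ (φ ⁻¹' (T' : Set E))).toReal := by
    rw [← SimpleFunc.sum_measure_preimage_singleton φ T', ENNReal.toReal_sum]
    · rfl
    · intro a _
      exact measure_ne_top _ _
  rw [h1]
  have h2 : volume (Metric.ball q (η / 2)) ≤ μ (φ ⁻¹' (T' : Set E)) := by
    rw [hμ, Measure.restrict_apply' measurableSet_closedBall]
    refine measure_mono ?_
    intro x hx
    refine ⟨?_, hq hx⟩
    show φ x ∈ (T' : Set E)
    rw [hT', Finset.coe_filter]
    refine ⟨SimpleFunc.mem_range_self φ x, ?_⟩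
    have h3 := hφ x (hq hx)
    rw [Metric.mem_ball, dist_eq_norm] at hx
    have h4 : φ x - q = (φ x - x) + (x - q) := by abel
    show ‖φ x - q‖ < η
    rw [h4]
    have := norm_add_le (φ x - x) (x - q)
    linarith
  exact ENNReal.toReal_mono (measure_ne_top _ _) h2

end Pool.Agent.Helper55_PB
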