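import Pool.Agent.Helper55_PB.Zono

open MeasureTheory Module Set
open scoped RealInnerProductSpace Pointwise Topology

namespace Pool.Agent.Helper55_PB

section

variable {E : Type*} [NormedAddCommGroup E] [InnerProductSpace ℝ E]

theorem supportFn_add_set {A B : Set E} (hA : IsCompact A) (hB : IsCompact B) (hAn : A.Nonempty)
    (hBn : B.Nonempty) (u : E) : supportFn (A + B) u = supportFn A u + supportFn B u := by
  obtain ⟨a, ha, hau⟩ := exists_supportFn hA hAn u
  obtain ⟨b, hb, hbu⟩ := exists_supportFn hB hBn u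
  rw [supportFn_eq (hA.add hB) ⟨a, ha, b, hb, rfl⟩, inner_add_left, hau, hbu]
  rintro _ ⟨x, hx, y, hy, rfl⟩
  rw [inner_add_left, inner_add_left, hau, hbu]
  exact add_le_add (inner_le_supportFn hA hx u) (inner_le_supportFn hB hy u)

theorem supportFn_segment (a u : E) : supportFn (segment ℝ (0 : E) a) u = max ⟪a, u⟫ 0 := by
  have hc : IsCompact (segment ℝ (0 : E) a) := isCompact_segment _ _
  rcases le_total 0 ⟪a, u⟫ with h | h
  · rw [max_eq_left h, supportFn_eq hc (right_mem_segment _ _ _)]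
    intro z hz
    rw [segment_eq_image] at hz
    obtain ⟨θ, ⟨h0, h1⟩, rfl⟩ := hz
    simp only [smul_zero, zero_add]
    rw [real_inner_smul_left]
    nlinarith
  · rw [max_eq_right h, supportFn_eq hc (left_mem_segment _ _ _), inner_zero_left]
    intro z hz
    rw [segment_eq_image] at hz
    obtain ⟨θ, ⟨h0, h1⟩, rfl⟩ := hz
    simp only [smul_zero, zero_add]
    rw [real_inner_smul_left, inner_zero_left]
    nlinarith

theorem zono_props (T : Finset E) (c : E → ℝ) :
    IsCompact (∑ p ∈ T, segment ℝ (0 : E) (c p • p)) ∧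
    Convex ℝ (∑ p ∈ T, segment ℝ (0 : E) (c p • p)) ∧
    (∑ p ∈ T, segment ℝ (0 : E) (c p • p)).Nonempty ∧
    ∀ u : E, supportFn (∑ p ∈ T, segment ℝ (0 : E) (c p • p)) u =
      ∑ p ∈ T, max ⟪c p • p, u⟫ 0 := by
  classical
  induction T using Finset.induction_on with
  | empty =>
    simp only [Finset.sum_empty]
    refine ⟨isCompact_singleton, convex_singleton _, singleton_nonempty _, ?_⟩
    intro u
    exact supportFn_zero_set u
  | insert a T ha ih =>
    obtain ⟨h1, h2, h3, h4⟩ := ih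
    rw [Finset.sum_insert ha]
    refine ⟨(isCompact_segment _ _).add h1, (convex_segment _ _).add h2,
      Set.Nonempty.add ⟨0, left_mem_segment _ _ _⟩ h3, ?_⟩
    intro u
    rw [supportFn_add_set (isCompact_segment _ _) h1 ⟨0, left_mem_segment _ _ _⟩ h3,
      supportFn_segment, h4, Finset.sum_insert ha]
where
  supportFn_zero_set (u : E) : supportFn (0 : Set E) u = 0 := by
    have : supportFn ({0} : Set E) u = ⟪(0 : E), u⟫ := by
      refine supportFn_eq isCompact_singleton (mem_singleton _) ?_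
      intro z hz
      rw [mem_singleton_iff] at hz
      rw [hz]
    rw [inner_zero_left] at this
    exact this

theorem subset_closedBall_of_support {Z : Set E} (hZ : IsCompact Z) {b : ℝ} (hb : 0 ≤ b)
    (h : ∀ u : E, supportFn Z u ≤ b * ‖u‖) : Z ⊆ Metric.closedBall 0 b := by
  intro z hz
  rw [Metric.mem_closedBall, dist_zero_right]
  have h1 := (inner_le_supportFn hZ hz z).trans (h z)
  rw [real_inner_self_eq_norm_sq] at h1
  by_cases hz0 : ‖z‖ = 0
  · rw [hz0]; exact hb
  · have : 0 < ‖z‖ := lt_of_le_of_ne (norm_nonneg _) (Ne.symm hz0)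
    nlinarith

theorem closedBall_subset_of_support [CompleteSpace E] {Z : Set E} (hZ : IsCompact Z)
    (hc : Convex ℝ Z) (hne : Z.Nonempty) {a : ℝ}
    (h : ∀ u : E, a * ‖u‖ ≤ supportFn Z u) : Metric.closedBall 0 a ⊆ Z := by
  intro z hz
  rw [Metric.mem_closedBall, dist_zero_right] at hz
  by_contra hcon
  obtain ⟨f, s, hf1, hf2⟩ := geometric_hahn_banach_closed_point hc hZ.isClosed hcon
  set u := (InnerProductSpace.toDual ℝ E).symm f with hu
  have hfu : ∀ x : E, f x = ⟪x, u⟫ := by
    intro x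
    rw [real_inner_comm, hu, InnerProductSpace.toDual_symm_apply]
  have h1 : supportFn Z u ≤ s := supportFn_le hne (fun x hx => by
    rw [← hfu]; exact (hf1 x hx).le)
  have h2 : ⟪z, u⟫ ≤ ‖z‖ * ‖u‖ := real_inner_le_norm _ _
  have h3 : ‖z‖ * ‖u‖ ≤ a * ‖u‖ := by gcongr
  have h4 := h u
  rw [hfu] at hf2
  linarith

end

section

variable {E : Type} [NormedAddCommGroup E] [InnerProductSpace ℝ E] [FiniteDimensional ℝ E]
  [MeasurableSpace E] [BorelSpace E]

/-- Monotonicity of `segVol`. -/
theorem segVol_mono {K₁ K₂ : Set E} (h1 : IsCompact K₁) (hc1 : Convex ℝ K₁) (h2 : IsCompact K₂)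
    (hc2 : Convex ℝ K₂) (h : K₁ ⊆ K₂) (w : E) : segVol K₁ w ≤ segVol K₂ w := by
  by_cases hw : w = 0
  · subst hw; rw [segVol_zero, segVol_zero]
  · obtain ⟨e, he, hwe⟩ := exists_unit w hw
    rw [hwe, segVol_eq h1 hc1 he (norm_nonneg _), segVol_eq h2 hc2 he (norm_nonneg _)]
    refine mul_le_mul_of_nonneg_left ?_ (norm_nonneg _)
    exact ENNReal.toReal_mono (h2.image (ContinuousLinearMap.continuous _)).measure_lt_top.ne
      (measure_mono (image_mono h))

/-- Coefficients of converging polynomials converge. -/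
theorem tendsto_coeff {n : ℕ} {a : ℕ → ℕ → ℝ} {b : ℕ → ℝ}
    (h : ∀ r : ℝ, 0 ≤ r → Filter.Tendsto (fun N => ∑ j ∈ Finset.range n, a N j * r ^ j)
      Filter.atTop (𝓝 (∑ j ∈ Finset.range n, b j * r ^ j))) {k : ℕ} (hk : k < n) :
    Filter.Tendsto (fun N => a N k) Filter.atTop (𝓝 (b k)) := by
  set x : Fin n → ℝ := fun i => (i : ℕ) with hx
  set M : Matrix (Fin n) (Fin n) ℝ := Matrix.vandermonde x with hM
  have hdet : M.det ≠ 0 := by
    rw [hM, Matrix.det_vandermonde_ne_zero_iff]
    intro i j hij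
    simp only [hx] at hij
    exact Fin.ext (by exact_mod_cast hij)
  have hunit : IsUnit M.det := isUnit_iff_ne_zero.mpr hdet
  have hsum : ∀ (c : ℕ → ℝ) (i : Fin n), (M.mulVec (fun j : Fin n => c j)) i =
      ∑ j ∈ Finset.range n, c j * (x i) ^ j := by
    intro c i
    rw [Matrix.mulVec, dotProduct, Finset.sum_range]
    refine Finset.sum_congr rfl ?_
    intro j _
    rw [hM, Matrix.vandermonde_apply]
    ring
  have hinv : ∀ c : ℕ → ℝ, c k = (M⁻¹.mulVec (fun i => ∑ j ∈ Finset.range n, c j * (x i) ^ j))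
      ⟨k, hk⟩ := by
    intro c
    have h1 : (fun i => ∑ j ∈ Finset.range n, c j * (x i) ^ j) =
        M.mulVec (fun j : Fin n => c j) := by
      funext i; exact (hsum c i).symm
    rw [h1, Matrix.mulVec_mulVec, Matrix.nonsing_inv_mul M hunit, Matrix.one_mulVec]
  rw [hinv b]
  have h2 : (fun N => a N k) = fun N => (M⁻¹.mulVec
      (fun i => ∑ j ∈ Finset.range n, a N j * (x i) ^ j)) ⟨k, hk⟩ := by
    funext N; exact hinv (a N)
  rw [h2]
  simp only [Matrix.mulVec, dotProduct]
  refine tendsto_finset_sum _ ?_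
  intro i _
  refine Filter.Tendsto.const_mul _ ?_
  exact h (x i) (by simp [hx])

end

end Pool.Agent.Helper55_PB
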